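import Mathlib

namespace Pool.Agent.P.MP_8704cc_co

open PowerSeries

/-- The animal `A` of a diagonally convex polyomino: non-empty, connected by unit steps inside `A`,
and on every line `x + y = k` its points are consecutive. -/
def IsDiagConvex (A : Finset (ℤ × ℤ)) : Prop :=
  A.Nonempty ∧
  (∀ p ∈ A, ∀ r ∈ A, Relation.ReflTransGen
    (fun x y : ℤ × ℤ => x ∈ A ∧ y ∈ A ∧ |x.1 - y.1| + |x.2 - y.2| = 1) p r) ∧
  (∀ p ∈ A, ∀ r ∈ A, ∀ s : ℤ × ℤ,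
    p.1 + p.2 = s.1 + s.2 → r.1 + r.2 = s.1 + s.2 → p.1 ≤ s.1 → s.1 ≤ r.1 → s ∈ A)

/-- Diagonally convex polyominoes of area `n`, up to translation. -/
def TranslClasses (n : ℕ) : Type :=
  Quot (fun A B : {A : Finset (ℤ × ℤ) // IsDiagConvex A ∧ A.card = n} =>
    ∃ v : ℤ × ℤ, B.1 = A.1.image (· + v))

/-- `q^(k choose 2) / ((1-q)(1-q^2)...(1-q^k))^2` -/
noncomputable def wgt (k : ℕ) : ℚ⟦X⟧ :=
  X ^ k.choose 2 * ((∏ i ∈ Finset.range k, (1 - X ^ (i + 1))) ^ 2)⁻¹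

/-- `k + 2 (q/(1-q) + ... + q^k/(1-q^k))` -/
noncomputable def lgd (k : ℕ) : ℚ⟦X⟧ :=
  k + 2 * ∑ i ∈ Finset.range k, X ^ (i + 1) * (1 - X ^ (i + 1))⁻¹

/-- The `k`-th term of the twelve `q`-series. -/
noncomputable def qterm (k : ℕ) : Matrix (Fin 3) (Fin 4) ℚ⟦X⟧ :=
  let t : ℚ⟦X⟧ := X ^ k
  let g : ℚ⟦X⟧ := (1 - X ^ (k + 1))⁻¹
  let d : ℚ⟦X⟧ := lgd k
  let E : ℚ⟦X⟧ := wgt k * X ^ (2 * (k / 2))
  let G : ℚ⟦X⟧ := wgt k * X ^ k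
  let F : ℚ⟦X⟧ := wgt k * X ^ (2 * ((k + 1) / 2))
  let s : ℚ⟦X⟧ := (-1) ^ k
  !![(F - 2 * G * t) * (1 - t), (E - 2 * G) * t, E * t * (1 - t), 2 * t * g * (E - G * t);
     -s * F * (1 - t), s * E * t, s * E * t * (1 - t), 2 * s * E * t * g;
     F * (d * (1 - t) - t) - 2 * G * t * (d * (1 - t) + 1 - 2 * t), (E - 2 * G) * t * (d + 1),
       E * t * (d * (1 - t) + 1 - 2 * t), 2 * t * g * (E * (d + g) - G * t * (d + 1 + g))]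

end Pool.Agent.P.MP_8704cc_co
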