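import Pool.Agent.P.MP_8704cc_co.Code
import Pool.Agent.P.MP_8704cc_co.Defs

namespace Pool.Agent.P.MP_8704cc_co

open Finset

/-- a segment of a diagonal -/
noncomputable def row (d : ℕ) (l : ℤ) (n : ℕ) : Finset (ℤ × ℤ) := (Ico l (l + n)).image fun x => (x, d - x)

theorem mem_row {d : ℕ} {l : ℤ} {n : ℕ} {p : ℤ × ℤ} :
    p ∈ row d l n ↔ p.1 + p.2 = d ∧ l ≤ p.1 ∧ p.1 < l + n := by
  simp only [row, mem_image, mem_Ico]
  constructor
  · rintro ⟨x, hx, rfl⟩
    simp [hx]
  · rintro ⟨h1, h2⟩
    exact ⟨p.1, h2, by ext <;> simp; omega⟩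

theorem card_row (d : ℕ) (l : ℤ) (n : ℕ) : (row d l n).card = n := by
  rw [row, card_image_of_injective _ (fun x y h => (Prod.ext_iff.1 h).1)]
  simp

/-- adjacency inside a set -/
def Adj (A : Finset (ℤ × ℤ)) (x y : ℤ × ℤ) : Prop :=
  x ∈ A ∧ y ∈ A ∧ |x.1 - y.1| + |x.2 - y.2| = 1

theorem abs_iff (a b : ℤ) : |a| + |b| = 1 ↔
    (a = 1 ∧ b = 0) ∨ (a = -1 ∧ b = 0) ∨ (a = 0 ∧ b = 1) ∨ (a = 0 ∧ b = -1) := by
  rcases abs_cases a with h | h <;> rcases abs_cases b with h' | h' <;> omega

theorem Adj.symm {A : Finset (ℤ × ℤ)} {x y : ℤ × ℤ} (h : Adj A x y) : Adj A y x :=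
  ⟨h.2.1, h.1, by rw [abs_sub_comm y.1, abs_sub_comm y.2]; exact h.2.2⟩

/-- connectedness inside a set -/
def Conn (A : Finset (ℤ × ℤ)) : ℤ × ℤ → ℤ × ℤ → Prop := Relation.ReflTransGen (Adj A)

theorem Conn.symm {A : Finset (ℤ × ℤ)} {x y : ℤ × ℤ} (h : Conn A x y) : Conn A y x := by
  induction h with
  | refl => exact Relation.ReflTransGen.refl
  | tail _ h ih => exact Relation.ReflTransGen.head h.symm ih

theorem Conn.mono {A A' : Finset (ℤ × ℤ)} (hA : A ⊆ A') {x y : ℤ × ℤ} (h : Conn A x y) :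
    Conn A' x y := by
  induction h with
  | refl => exact Relation.ReflTransGen.refl
  | tail _ h ih => exact Relation.ReflTransGen.tail ih ⟨hA h.1, hA h.2.1, h.2.2⟩

namespace Code

/-- left end of the last diagonal -/
def lo : Code → ℤ
  | first _ => 0
  | step P u _ a _ => P.lo + u - a

/-- index of the last diagonal -/
def ht : Code → ℕ
  | first _ => 0
  | step P _ _ _ _ => P.ht + 1

/-- the cells of a code -/
noncomputable def cells : Code → Finset (ℤ × ℤ)
  | first n => row 0 0 (n + 1)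
  | step P u w a b =>
    P.cells ∪ row (P.ht + 1) (P.lo + u - a) (a + (P.la + P.core + P.rb + 1 - u - w) + b)

theorem la_step (P : Code) (u w a b : ℕ) : (step P u w a b).la = a := rfl
theorem rb_step (P : Code) (u w a b : ℕ) : (step P u w a b).rb = b := rfl
theorem core_step (P : Code) (u w a b : ℕ) :
    (step P u w a b).core = P.la + P.core + P.rb + 1 - u - w := rfl
theorem lo_step (P : Code) (u w a b : ℕ) : (step P u w a b).lo = P.lo + u - a := rfl
theorem ht_step (P : Code) (u w a b : ℕ) : (step P u w a b).ht = P.ht + 1 := rfl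

theorem mem_cells_ht : ∀ (P : Code) {p : ℤ × ℤ}, p ∈ P.cells → 0 ≤ p.1 + p.2 ∧ p.1 + p.2 ≤ P.ht
  | first n, p, h => by
    rw [cells, mem_row] at h
    simp only [ht]; omega
  | step P u w a b, p, h => by
    rw [cells, mem_union, mem_row] at h
    simp only [ht]
    rcases h with h | h
    · have := mem_cells_ht P h
      omega
    · omega

theorem mem_cells_top : ∀ (P : Code) {p : ℤ × ℤ}, p.1 + p.2 = P.ht →
    (p ∈ P.cells ↔ P.lo ≤ p.1 ∧ p.1 < P.lo + (P.la + P.core + P.rb : ℕ))
  | first n, p, h => by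
    rw [cells, mem_row]
    simp only [ht, lo, la, core, rb] at h ⊢
    omega
  | step P u w a b, p, h => by
    rw [cells, mem_union, mem_row]
    simp only [ht, lo, la, core, rb] at h ⊢
    constructor
    · rintro (h1 | h1)
      · have := mem_cells_ht P h1
        omega
      · exact h1.2
    · intro h1
      exact Or.inr ⟨h, h1⟩

theorem mem_cells_step (P : Code) (u w a b : ℕ) {p : ℤ × ℤ} (h : p.1 + p.2 ≤ P.ht) :
    p ∈ (step P u w a b).cells ↔ p ∈ P.cells := by
  rw [cells, mem_union, mem_row]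
  constructor
  · rintro (h1 | h1)
    · exact h1
    · omega
  · exact Or.inl

theorem zero_mem : ∀ (P : Code), ((0, 0) : ℤ × ℤ) ∈ P.cells
  | first n => by rw [cells, mem_row]; simp
  | step P u w a b => mem_union_left _ (zero_mem P)

theorem bottom_nonneg : ∀ (P : Code) {p : ℤ × ℤ}, p ∈ P.cells → p.1 + p.2 = 0 → 0 ≤ p.1
  | first n, p, h, _ => by rw [cells, mem_row] at h; exact h.2.1
  | step P u w a b, p, h, h0 =>
    bottom_nonneg P ((mem_cells_step P u w a b (by omega)).1 h) h0

theorem card_cells : ∀ (P : Code), P.cells.card = P.area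
  | first n => by rw [cells, card_row, area]
  | step P u w a b => by
    rw [cells, card_union_of_disjoint, card_row, card_cells P, area]
    rw [disjoint_left]
    intro p h1 h2
    have := mem_cells_ht P h1
    rw [mem_row] at h2
    omega

theorem convex_cells : ∀ (P : Code), ∀ p ∈ P.cells, ∀ r ∈ P.cells, ∀ s : ℤ × ℤ,
    p.1 + p.2 = s.1 + s.2 → r.1 + r.2 = s.1 + s.2 → p.1 ≤ s.1 → s.1 ≤ r.1 → s ∈ P.cells
  | first n, p, hp, r, hr, s, h1, h2, h3, h4 => by
    rw [cells, mem_row] at *
    omega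
  | step P u w a b, p, hp, r, hr, s, h1, h2, h3, h4 => by
    by_cases h : s.1 + s.2 ≤ P.ht
    · rw [mem_cells_step P u w a b (by omega)] at *
      exact convex_cells P p hp r hr s h1 h2 h3 h4
    · have := mem_cells_ht _ hp
      have h5 : s.1 + s.2 = (step P u w a b).ht := by simp only [ht] at *; omega
      rw [mem_cells_top _ (by omega)] at *
      omega

theorem conn_cells : ∀ (P : Code), P.valid → ∀ p ∈ P.cells,
    (p.1 + p.2 < P.ht ∨ (P.lo + P.la ≤ p.1 ∧ p.1 < P.lo + P.la + P.core)) →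
    Conn P.cells p (P.lo + P.la, P.ht - (P.lo + P.la))
  | first n, _, p, hp, h => by
    rw [cells, mem_row] at hp
    simp only [ht, lo, la, core] at h ⊢
    have : p = ((0 : ℤ) + (0 : ℕ), ((0 : ℕ) : ℤ) - (0 + (0 : ℕ))) := by ext <;> simp <;> omega
    rw [this]
    exact Relation.ReflTransGen.refl
  | step P u w a b, hv, p, hp, h => by
    have ih := conn_cells P hv.1
    have hc := core_pos hv.1
    obtain ⟨hu, hw, huw⟩ := hv.2.1
    have hsub : P.cells ⊆ (step P u w a b).cells := subset_union_left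
    set A := (step P u w a b).cells with hA
    have hbase : ((step P u w a b).lo + (step P u w a b).la,
        ((step P u w a b).ht : ℤ) - ((step P u w a b).lo + (step P u w a b).la)) =
        (P.lo + u, P.ht + 1 - (P.lo + u)) := by
      simp only [lo, la, ht]; ext <;> simp
    rw [hbase]
    have top : ∀ x : ℤ, P.lo + u ≤ x → x ≤ P.lo + (P.la + P.core + P.rb : ℕ) - w →
        (x, (P.ht : ℤ) + 1 - x) ∈ A := by
      intro x h1 h2
      rw [hA, mem_cells_top _ (by simp [ht])]
      simp only [lo_step, la_step, core_step, rb_step]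
      omega
    have old : ∀ x : ℤ, P.lo ≤ x → x < P.lo + (P.la + P.core + P.rb : ℕ) →
        (x, (P.ht : ℤ) - x) ∈ P.cells := by
      intro x h1 h2
      rw [mem_cells_top _ (by simp)]
      exact ⟨h1, h2⟩
    have c1 : ∀ k : ℕ, P.lo + u + k ≤ P.lo + (P.la + P.core + P.rb : ℕ) - w →
        Conn A (P.lo + u + k, P.ht + 1 - (P.lo + u + k)) (P.lo + u, P.ht + 1 - (P.lo + u)) := by
      intro k
      induction k with
      | zero => intro _; simp only [Nat.cast_zero, add_zero]; exact Relation.ReflTransGen.refl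
      | succ k ihk =>
        intro hk
        push_cast at hk ⊢
        refine Relation.ReflTransGen.head (b := (P.lo + u + k, P.ht - (P.lo + u + k))) ?_
          (Relation.ReflTransGen.head ?_ (ihk (by omega)))
        · exact ⟨top _ (by omega) (by omega), hsub (old _ (by omega) (by omega)),
            by rw [abs_iff]; omega⟩
        · exact ⟨hsub (old _ (by omega) (by omega)), top _ (by omega) (by omega),
            by rw [abs_iff]; omega⟩
    have c2 : ∀ x : ℤ, P.lo + u ≤ x → x ≤ P.lo + (P.la + P.core + P.rb : ℕ) - w →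
        Conn A (x, P.ht + 1 - x) (P.lo + u, P.ht + 1 - (P.lo + u)) := by
      intro x h1 h2
      obtain ⟨k, rfl⟩ := Int.le.dest h1
      exact c1 k h2
    have c3 : ∀ x : ℤ, P.lo ≤ x → x < P.lo + (P.la + P.core + P.rb : ℕ) → P.lo + u - 1 ≤ x →
        x ≤ P.lo + (P.la + P.core + P.rb : ℕ) - w →
        Conn A (x, P.ht - x) (P.lo + u, P.ht + 1 - (P.lo + u)) := by
      intro x h1 h2 h3 h4
      by_cases h5 : P.lo + u ≤ x
      · exact Relation.ReflTransGen.head
          ⟨hsub (old _ h1 h2), top _ h5 h4, by rw [abs_iff]; omega⟩ (c2 x h5 h4)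
      · exact Relation.ReflTransGen.head
          ⟨hsub (old _ h1 h2), top (x + 1) (by omega) (by omega), by rw [abs_iff]; omega⟩
          (c2 (x + 1) (by omega) (by omega))
    have hu' : u ≤ P.la + P.core := by unfold mu at hu; split_ifs at hu <;> omega
    have hw' : w ≤ P.rb + P.core := by unfold mu at hw; split_ifs at hw <;> omega
    have c4 : Conn A (P.lo + P.la, P.ht - (P.lo + P.la)) (P.lo + u, P.ht + 1 - (P.lo + u)) := by
      have h1 := ih (max (P.lo + P.la) (P.lo + u - 1), P.ht - max (P.lo + P.la) (P.lo + u - 1))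
        (old _ (by omega) (by omega)) (Or.inr (by simp only; omega))
      exact (h1.symm.mono hsub).trans (c3 _ (by omega) (by omega) (by omega) (by omega))
    have hp' := mem_cells_ht _ hp
    simp only [ht_step, lo_step, la_step, core_step] at h hp'
    by_cases h1 : p.1 + p.2 ≤ P.ht
    · rw [hA, mem_cells_step _ _ _ _ _ h1] at hp
      by_cases h2 : p.1 + p.2 < P.ht ∨ (P.lo + P.la ≤ p.1 ∧ p.1 < P.lo + P.la + P.core)
      · exact ((ih p hp h2).mono hsub).trans c4
      · have h3 : p = (p.1, P.ht - p.1) := by ext <;> simp; omega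
        rw [mem_cells_top _ (by omega)] at hp
        rw [h3]
        unfold mu at hu hw
        refine c3 _ hp.1 hp.2 ?_ ?_ <;> split_ifs at hu hw <;> omega
    · have h3 : p = (p.1, P.ht + 1 - p.1) := by ext <;> simp; omega
      rw [h3]
      exact c2 _ (by omega) (by omega)

theorem isDiagConvex_cells (P : Code) (hv : P.valid) (ha : P.la = 0) (hb : P.rb = 0) :
    IsDiagConvex P.cells := by
  refine ⟨⟨_, zero_mem P⟩, fun p hp r hr => ?_, convex_cells P⟩
  have key : ∀ p ∈ P.cells, Conn P.cells p (P.lo + P.la, P.ht - (P.lo + P.la)) := by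
    intro p hp
    refine conn_cells P hv p hp ?_
    have h1 := mem_cells_ht _ hp
    by_cases h : p.1 + p.2 < P.ht
    · exact Or.inl h
    · rw [mem_cells_top _ (by omega)] at hp
      omega
  exact (key p hp).trans (key r hr).symm

theorem top_eq {P Q : Code} (hP : P.valid) (hQ : Q.valid) (h : P.cells = Q.cells) :
    P.ht = Q.ht ∧ P.lo = Q.lo ∧ P.la + P.core + P.rb = Q.la + Q.core + Q.rb := by
  have cP := core_pos hP
  have cQ := core_pos hQ
  have a1 : (P.lo, P.ht - P.lo) ∈ P.cells := by rw [mem_cells_top _ (by simp)]; omega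
  have a2 : (Q.lo, Q.ht - Q.lo) ∈ Q.cells := by rw [mem_cells_top _ (by simp)]; omega
  have b1 := mem_cells_ht _ (h ▸ a1)
  have b2 := mem_cells_ht _ (h ▸ a2 : _ ∈ P.cells)
  have e : P.ht = Q.ht := by simp only at b1 b2; omega
  have key : ∀ x : ℤ, (P.lo ≤ x ∧ x < P.lo + (P.la + P.core + P.rb : ℕ)) ↔
      (Q.lo ≤ x ∧ x < Q.lo + (Q.la + Q.core + Q.rb : ℕ)) := by
    intro x
    rw [← mem_cells_top P (p := (x, P.ht - x)) (by simp),
      ← mem_cells_top Q (p := (x, P.ht - x)) (by simp [e]), h]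
  have k1 := key P.lo
  have k2 := key Q.lo
  have k3 := key (P.lo + (P.la + P.core + P.rb : ℕ) - 1)
  have k4 := key (Q.lo + (Q.la + Q.core + Q.rb : ℕ) - 1)
  omega

theorem cells_inj : ∀ (P Q : Code), P.valid → Q.valid → P.cells = Q.cells → P = Q
  | first n, first m, hP, hQ, h => by
    have := top_eq hP hQ h
    simp only [la, core, rb] at this
    rw [show n = m by omega]
  | first n, step Q u w a b, hP, hQ, h => by
    have := top_eq hP hQ h
    simp [ht] at this
  | step Q u w a b, first n, hP, hQ, h => by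
    have := top_eq hP hQ h
    simp [ht] at this
  | step P u w a b, step Q u' w' a' b', hP, hQ, h => by
    have h1 := top_eq hP hQ h
    simp only [ht_step, lo_step, la_step, core_step, rb_step] at h1
    have h2 : P.cells = Q.cells := by
      ext p
      by_cases hp : p.1 + p.2 ≤ P.ht
      · rw [← mem_cells_step P u w a b hp, ← mem_cells_step Q u' w' a' b' (by omega), h]
      · constructor <;> intro h3 <;> have := mem_cells_ht _ h3 <;> omega
    obtain rfl := cells_inj P Q hP.1 hQ.1 h2
    obtain ⟨-, ⟨-, -, p1⟩, p2, p3⟩ := hP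
    obtain ⟨-, ⟨-, -, q1⟩, q2, q3⟩ := hQ
    obtain ⟨rfl, rfl, rfl, rfl⟩ : u = u' ∧ w = w' ∧ a = a' ∧ b = b' := by omega
    rfl

end Code

end Pool.Agent.P.MP_8704cc_co
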