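import Pool.Agent.P.MP_8704cc_co.Solve

namespace Pool.Agent.P.MP_8704cc_co

open Code Finset PowerSeries
open scoped PowerSeries.WithPiTopology

theorem wgt_succ (k : ℕ) : wgt (k + 1) = wgt k * X ^ k * (1 - X ^ (k + 1))⁻¹ ^ 2 := by
  unfold wgt
  rw [prod_range_succ, mul_pow, PowerSeries.mul_inv_rev, Nat.choose_succ_succ', Nat.choose_one_right,
    pow_add, pow_two (1 - X ^ (k + 1) : ℚ⟦X⟧), PowerSeries.mul_inv_rev]
  ring

theorem lgd_succ (k : ℕ) : lgd (k + 1) = lgd k + 1 + 2 * (X ^ (k + 1) * (1 - X ^ (k + 1))⁻¹) := by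
  unfold lgd
  rw [sum_range_succ]
  push_cast
  ring

theorem summable_wgt (f : ℕ → ℚ⟦X⟧) (hf : ∀ k, wgt k ∣ f k) : Summable f := by
  refine good_X _ fun n => (Set.finite_Iic (n + 1)).subset fun k hk => ?_
  by_contra hcon
  apply hk
  simp only [Set.mem_Iic, not_le] at hcon
  have h1 : n ≤ k.choose 2 := by
    obtain ⟨j, rfl⟩ : ∃ j, k = j + 1 := ⟨k - 1, by omega⟩
    rw [Nat.choose_succ_succ', Nat.choose_one_right]
    omega
  exact ((pow_dvd_pow X h1).mul_right _).trans (hf k)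

/-- the terms with a free weight -/
noncomputable def qterm' (W : ℚ⟦X⟧) (k : ℕ) : Matrix (Fin 3) (Fin 4) ℚ⟦X⟧ :=
  let t : ℚ⟦X⟧ := X ^ k
  let g : ℚ⟦X⟧ := (1 - X ^ (k + 1))⁻¹
  let d : ℚ⟦X⟧ := lgd k
  let E : ℚ⟦X⟧ := W * X ^ (2 * (k / 2))
  let G : ℚ⟦X⟧ := W * X ^ k
  let F : ℚ⟦X⟧ := W * X ^ (2 * ((k + 1) / 2))
  let s : ℚ⟦X⟧ := (-1) ^ k
  !![(F - 2 * G * t) * (1 - t), (E - 2 * G) * t, E * t * (1 - t), 2 * t * g * (E - G * t);
     -s * F * (1 - t), s * E * t, s * E * t * (1 - t), 2 * s * E * t * g;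
     F * (d * (1 - t) - t) - 2 * G * t * (d * (1 - t) + 1 - 2 * t), (E - 2 * G) * t * (d + 1),
       E * t * (d * (1 - t) + 1 - 2 * t), 2 * t * g * (E * (d + g) - G * t * (d + 1 + g))]

theorem summable_qterm (i : Fin 3) (j : Fin 4) : Summable fun k => qterm k i j := by
  refine summable_wgt _ fun k => ⟨qterm' 1 k i j, ?_⟩
  fin_cases i <;> fin_cases j <;> simp [qterm, qterm'] <;> ring

theorem telescope (s : ℕ → ℚ⟦X⟧) (hs : ∀ k, wgt k ∣ s k) (h0 : s 0 = 0) (i : Fin 3)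
    (v : Fin 4 → ℚ⟦X⟧) (h : ∀ k, s k = ∑ j, qterm k i j * v j + s (k + 1)) :
    ∑ j, (∑' k, qterm k i j) * v j = 0 := by
  have h1 := summable_wgt s hs
  have h2 : Summable fun k => s (k + 1) := (summable_nat_add_iff 1).2 h1
  have h3 := h1.tsum_eq_zero_add
  have h4 : HasSum (fun k => ∑ j, qterm k i j * v j) (∑ j, (∑' k, qterm k i j) * v j) :=
    hasSum_sum fun j _ => (summable_qterm i j).hasSum.mul_right _
  have h5 := (h4.add h2.hasSum).tsum_eq
  simp only [← h] at h5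
  linear_combination h3 - h5 + h0

theorem linear_system : ∃ β μ : ℚ⟦X⟧, ∀ i : Fin 3,
    ∑ j, (∑' k, qterm k i j) * ![1, X + al X, β, μ] j = 0 := by
  obtain ⟨x, y, z, x', y', z', β, μ, hx, hy, hz, hx', hy', hz', c1, c2, c3⟩ := recur
  refine ⟨β, μ, fun i => ?_⟩
  have e1 : ∀ k : ℕ, 2 * ((k + 1 + 1) / 2) = 2 * (k / 2) + 2 := fun k => by omega
  fin_cases i
  · refine telescope (fun k => wgt k * (X ^ (2 * (k / 2)) * x k - X ^ k * y k +
      X ^ (2 * ((k + 1) / 2)) * z k)) (fun k => Dvd.intro _ rfl) (by simp [c1]) _ _ fun k => ?_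
    simp only [Fin.sum_univ_four, qterm, wgt_succ, e1]
    simp
    rw [hx k, hy k, hz k]
    ring
  · refine telescope (fun k => wgt k * ((-1) ^ k * (X ^ (2 * (k / 2)) * x k -
      X ^ (2 * ((k + 1) / 2)) * z k))) (fun k => Dvd.intro _ rfl) (by simp [c2]) _ _ fun k => ?_
    simp only [Fin.sum_univ_four, qterm, wgt_succ, e1]
    simp
    rw [hx k, hz k]
    ring
  · refine telescope (fun k => wgt k * (X ^ (2 * (k / 2)) * (lgd k * x k + x' k) -
      X ^ k * (lgd k * y k + y' k) + X ^ (2 * ((k + 1) / 2)) * (lgd k * z k + z' k)))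
      (fun k => Dvd.intro _ rfl) (by simp [lgd, c3]) _ _ fun k => ?_
    simp only [Fin.sum_univ_four, qterm, wgt_succ, lgd_succ, e1]
    simp
    rw [hx k, hy k, hz k, hx' k, hy' k, hz' k]
    ring

theorem constCoeff_S (i : Fin 3) (j : Fin 3) :
    constantCoeff (∑' k, qterm k i j.succ) = !![-1, 0, 0; 1, 0, 2; -1, -1, -2] i j := by
  have := ((summable_qterm i j.succ).hasSum.map (constantCoeff (R := ℚ))
    (PowerSeries.WithPiTopology.continuous_constantCoeff ℚ)).tsum_eq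
  rw [← this, tsum_eq_single 0]
  · fin_cases i <;> fin_cases j <;> simp [qterm, wgt, lgd, map_ofNat] <;> norm_num
  · intro k hk
    fin_cases i <;> fin_cases j <;> simp [qterm, hk]

theorem closed_form :
    constantCoeff ((Matrix.of fun i j => ∑' k, qterm k i j).submatrix id ![1, 2, 3]).det = -2 ∧
    X + al X = -((Matrix.of fun i j => ∑' k, qterm k i j).submatrix id ![0, 2, 3]).det *
      (((Matrix.of fun i j => ∑' k, qterm k i j).submatrix id ![1, 2, 3]).det)⁻¹ := by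
  have h1 : constantCoeff
      ((Matrix.of fun i j => ∑' k, qterm k i j).submatrix id ![1, 2, 3]).det = -2 := by
    have c := constCoeff_S
    have c00 := c 0 0; have c01 := c 0 1; have c02 := c 0 2
    have c10 := c 1 0; have c11 := c 1 1; have c12 := c 1 2
    have c20 := c 2 0; have c21 := c 2 1; have c22 := c 2 2
    simp at c00 c01 c02 c10 c11 c12 c20 c21 c22
    rw [Matrix.det_fin_three]
    simp [c00, c01, c02, c10, c11, c12, c20, c21, c22]
  refine ⟨h1, ?_⟩
  rw [PowerSeries.eq_mul_inv_iff_mul_eq (by rw [h1]; norm_num)]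
  obtain ⟨β, μ, h⟩ := linear_system
  have h0 := h 0; have h1 := h 1; have h2 := h 2
  rw [Fin.sum_univ_four] at h0 h1 h2
  rw [Matrix.det_fin_three, Matrix.det_fin_three]
  simp at h0 h1 h2 ⊢
  generalize (∑' k, qterm k 0 0) = a0 at *
  generalize (∑' k, qterm k 0 1) = a1 at *
  generalize (∑' k, qterm k 0 2) = a2 at *
  generalize (∑' k, qterm k 0 3) = a3 at *
  generalize (∑' k, qterm k 1 0) = b0 at *
  generalize (∑' k, qterm k 1 1) = b1 at *
  generalize (∑' k, qterm k 1 2) = b2 at *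
  generalize (∑' k, qterm k 1 3) = b3 at *
  generalize (∑' k, qterm k 2 0) = c0 at *
  generalize (∑' k, qterm k 2 1) = c1 at *
  generalize (∑' k, qterm k 2 2) = c2 at *
  generalize (∑' k, qterm k 2 3) = c3 at *
  linear_combination (b2 * c3 - b3 * c2) * h0 - (a2 * c3 - a3 * c2) * h1 + (a2 * b3 - a3 * b2) * h2

theorem coeff_al (n : ℕ) : coeff n (X + al X : ℚ⟦X⟧) =
    (Nat.card {P : Code // P.valid ∧ P.la = 0 ∧ P.rb = 0 ∧ P.area = n} : ℚ) := by
  classical
  rw [← T_complete good_X]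
  unfold T
  have := ((summable_W good_X (fun P => P) Function.injective_id
    (fun P => iz P.la * iz P.rb)).hasSum.map (coeff (R := ℚ) n)
    (PowerSeries.WithPiTopology.continuous_coeff ℚ n)).tsum_eq
  rw [← this]
  have hf : {P : Code | P.valid ∧ P.la = 0 ∧ P.rb = 0 ∧ P.area = n}.Finite :=
    (finite_valid n).subset fun P h => ⟨h.1, h.2.2.2.le⟩
  have key : ∀ P : Code, (coeff (R := ℚ) n ∘ fun P : Code => W X P * (iz P.la * iz P.rb)) P =
      if P ∈ hf.toFinset then 1 else 0 := by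
    intro P
    simp only [Function.comp, W, iz, Set.Finite.mem_toFinset, Set.mem_ofPred_eq]
    by_cases h1 : P.valid <;> by_cases h2 : P.la = 0 <;> by_cases h3 : P.rb = 0 <;>
      simp [h1, h2, h3, coeff_X_pow, eq_comm]
  rw [tsum_congr key, tsum_eq_sum (s := hf.toFinset) (fun P hP => if_neg hP),
    sum_congr rfl (fun P hP => if_pos hP)]
  simp only [sum_const, nsmul_eq_mul, mul_one, Nat.cast_inj]
  rw [← Set.ncard_eq_toFinset_card _ hf]
  rfl

end Pool.Agent.P.MP_8704cc_co
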