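import Mathlib

namespace Pool.Agent.P.MP_8704cc_co

/-- Codes for stacks of diagonals. -/
inductive Code : Type
  | first (n : ℕ) : Code
  | step (P : Code) (u w a b : ℕ) : Code

namespace Code

/-- left overhang of the last diagonal -/
def la : Code → ℕ
  | first _ => 0
  | step _ _ _ a _ => a

/-- right overhang of the last diagonal -/
def rb : Code → ℕ
  | first n => n
  | step _ _ _ _ b => b

/-- attached part of the last diagonal -/
def core : Code → ℕ
  | first _ => 1
  | step P u w _ _ => P.la + P.core + P.rb + 1 - u - w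

/-- number of cells -/
def area : Code → ℕ
  | first n => n + 1
  | step P u w a b => P.area + (a + (P.la + P.core + P.rb + 1 - u - w) + b)

/-- bound for the offsets -/
def mu (a c : ℕ) : ℕ := if a = 0 then c else 1

/-- admissible offsets after a diagonal with state `(a, c, b)` -/
def Adm (a c b u w : ℕ) : Prop := u ≤ mu a c ∧ w ≤ mu b c ∧ u + w ≤ a + c + b

instance (a c b u w : ℕ) : Decidable (Adm a c b u w) := by unfold Adm; infer_instance

/-- valid codes -/
def valid : Code → Prop
  | first _ => True
  | step P u w a b => P.valid ∧ Adm P.la P.core P.rb u w ∧ (a ≠ 0 → u = 0) ∧ (b ≠ 0 → w = 0)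

theorem core_pos : ∀ {P : Code}, P.valid → 1 ≤ P.core
  | first _, _ => le_rfl
  | step P u w a b, h => by
    have := h.2.1.2.2
    simp only [core]; omega

theorem len_le_area : ∀ (P : Code), P.la + P.core + P.rb ≤ P.area
  | first n => by simp [la, core, rb, area]; omega
  | step P u w a b => by simp only [la, core, rb, area]; omega

theorem finite_valid (n : ℕ) : {P : Code | P.valid ∧ P.area ≤ n}.Finite := by
  induction n with
  | zero =>
    refine Set.finite_empty.subset ?_
    rintro P ⟨h1, h2⟩
    have := core_pos h1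
    have := len_le_area P
    omega
  | succ n ih =>
    have hf : ((first '' Set.Iic n) ∪
        ((fun x : Code × ℕ × ℕ × ℕ × ℕ => step x.1 x.2.1 x.2.2.1 x.2.2.2.1 x.2.2.2.2) ''
          ({P : Code | P.valid ∧ P.area ≤ n} ×ˢ Set.Iic n ×ˢ Set.Iic n ×ˢ Set.Iic n ×ˢ
            Set.Iic n))).Finite :=
      ((Set.finite_Iic n).image _).union ((ih.prod ((Set.finite_Iic n).prod
        ((Set.finite_Iic n).prod ((Set.finite_Iic n).prod (Set.finite_Iic n))))).image _)
    refine hf.subset ?_
    rintro P ⟨h1, h2⟩
    cases P with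
    | first m =>
      left
      exact ⟨m, by simp only [area] at h2; simp; omega, rfl⟩
    | step P u w a b =>
      right
      have h3 := h1.2.1.2.2
      have h4 := len_le_area P
      have h5 := core_pos h1.1
      simp only [area] at h2
      refine ⟨(P, u, w, a, b), ⟨⟨h1.1, by simp; omega⟩, ?_, ?_, ?_, ?_⟩, rfl⟩ <;> simp <;> omega

/-- the two kinds of codes -/
def equivSum : (ℕ ⊕ (Code × (ℕ × ℕ) × (ℕ × ℕ))) ≃ Code where
  toFun
    | Sum.inl n => first n
    | Sum.inr x => step x.1 x.2.1.1 x.2.1.2 x.2.2.1 x.2.2.2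
  invFun
    | first n => Sum.inl n
    | step P u w a b => Sum.inr (P, (u, w), (a, b))
  left_inv := by rintro (n | ⟨P, ⟨u, w⟩, ⟨a, b⟩⟩) <;> rfl
  right_inv := by rintro (n | ⟨P, u, w, a, b⟩) <;> rfl

end Code

end Pool.Agent.P.MP_8704cc_co
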