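import Pool.Agent.P.MP_8704cc_co.GF

namespace Pool.Agent.P.MP_8704cc_co

open Code Finset

section Ring
variable {B : Type} [CommRing B]

/-- offset weights -/
def rho (t : B) (u : ℕ) : B := 1 - t + t * iz u

theorem sum_rho (t : B) (m N : ℕ) (h : m ≤ N) :
    ∑ u ∈ range (m + 1), rho t u * t ^ (N - u) = t ^ (N - m) := by
  induction m with
  | zero => simp [rho, iz]
  | succ m ih =>
    rw [sum_range_succ, ih (by omega)]
    have : N - m = N - (m + 1) + 1 := by omega
    rw [this, pow_succ]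
    simp [rho, iz]
    ring

theorem sum_iz (t : B) (m N : ℕ) :
    ∑ u ∈ range (m + 1), iz u * t ^ (N - u) = t ^ N := by
  rw [sum_range_succ']
  simp [iz]

theorem ker_eq (f : ℕ → ℕ → ℕ → B) (a c b : ℕ) (hc : 1 ≤ c) :
    ker f a c b = ∑ u ∈ range (mu a c + 1), ∑ w ∈ range (min (mu b c) (a + c + b - u) + 1),
      f u w (a + c + b + 1 - u - w) := by
  unfold ker
  refine sum_finset_product _ _ (fun u => range (min (mu b c) (a + c + b - u) + 1)) ?_
  intro p
  have : mu a c ≤ a + c + b := by unfold mu; split_ifs <;> omega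
  simp only [mem_Dset, Adm, mem_range]
  omega

theorem ker_rect (t : B) (f g : ℕ → B) (a c b j j' : ℕ) (hc : 1 ≤ c)
    (h : mu a c + mu b c ≤ a + c + b) (hj' : j' ≤ mu b c)
    (hf : ∀ N, mu a c ≤ N → ∑ u ∈ range (mu a c + 1), f u * t ^ (N - u) = t ^ (N - j))
    (hg : ∀ N, mu b c ≤ N → ∑ u ∈ range (mu b c + 1), g u * t ^ (N - u) = t ^ (N - j')) :
    ker (fun u w c => f u * g w * t ^ c) a c b = t ^ (a + c + b + 1 - j' - j) := by
  rw [ker_eq _ _ _ _ hc, ← hf _ (by omega)]
  refine sum_congr rfl fun u hu => ?_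
  rw [mem_range] at hu
  rw [min_eq_left (by omega)]
  have : a + c + b + 1 - j' - u = a + c + b + 1 - u - j' := by omega
  rw [this, ← hg _ (by omega), mul_sum]
  refine sum_congr rfl fun w _ => by ring

theorem ker_add (f g : ℕ → ℕ → ℕ → B) (a c b : ℕ) :
    ker (fun u w c => f u w c + g u w c) a c b = ker f a c b + ker g a c b := by
  simp only [ker, sum_add_distrib]

/-- first kernel -/
def kx (t : B) (u w c : ℕ) : B := rho t u * rho t w * t ^ c
/-- second kernel -/
def ky (t : B) (u w c : ℕ) : B := iz u * rho t w * t ^ c + rho t u * iz w * t ^ c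
/-- third kernel -/
def kz (t : B) (u w c : ℕ) : B := iz u * iz w * t ^ c

theorem kx_rect (t : B) (a c b : ℕ) (hc : 1 ≤ c) (h : mu a c + mu b c ≤ a + c + b) :
    ker (kx t) a c b = t ^ (a + c + b + 1 - mu b c - mu a c) :=
  ker_rect t _ _ a c b _ _ hc h le_rfl (fun N hN => sum_rho t _ N hN) (fun N hN => sum_rho t _ N hN)

theorem ky_rect (t : B) (a c b : ℕ) (hc : 1 ≤ c) (h : mu a c + mu b c ≤ a + c + b) :
    ker (ky t) a c b = t ^ (a + c + b + 1 - mu b c) + t ^ (a + c + b + 1 - mu a c) := by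
  have h1 := ker_rect t iz (rho t) a c b 0 _ hc h le_rfl (fun N _ => sum_iz t _ N)
    (fun N hN => sum_rho t _ N hN)
  have h2 := ker_rect t (rho t) iz a c b _ 0 hc h (Nat.zero_le _) (fun N hN => sum_rho t _ N hN)
    (fun N _ => sum_iz t _ N)
  exact (ker_add _ _ a c b).trans (by rw [h1, h2]; simp)

theorem kz_all (t : B) (a c b : ℕ) (hc : 1 ≤ c) : ker (kz t) a c b = t ^ (a + c + b + 1) := by
  rw [ker_eq _ _ _ _ hc, ← sum_iz t (mu a c)]
  refine sum_congr rfl fun u _ => ?_
  rw [← sum_iz t (min (mu b c) (a + c + b - u)), mul_sum]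
  refine sum_congr rfl fun w _ => by unfold kz; ring

theorem kx_tri (t : B) (c : ℕ) (hc : 1 ≤ c) : ker (kx t) 0 c 0 = t + c * (t * (1 - t)) := by
  rw [ker_eq _ _ _ _ hc]
  have : ∀ u ∈ range (mu 0 c + 1), ∑ w ∈ range (min (mu 0 c) (0 + c + 0 - u) + 1),
      kx t u w (0 + c + 0 + 1 - u - w) = rho t u * t := by
    intro u hu
    simp only [mu, if_true, mem_range] at hu ⊢
    rw [min_eq_right (by omega)]
    have h1 := sum_rho t (0 + c + 0 - u) (0 + c + 0 + 1 - u) (by omega)
    have h2 : 0 + c + 0 + 1 - u - (0 + c + 0 - u) = 1 := by omega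
    rw [h2, pow_one] at h1
    refine Eq.trans ?_ (congrArg (rho t u * ·) h1)
    rw [mul_sum]
    refine sum_congr rfl fun w _ => by unfold kx; ring
  rw [sum_congr rfl this, sum_range_succ']
  simp [rho, iz, mu]
  ring

theorem ky_tri (t : B) (c : ℕ) (hc : 1 ≤ c) : ker (ky t) 0 c 0 = 2 * t := by
  rw [ker_eq _ _ _ _ hc]
  have : ∀ u ∈ range (mu 0 c + 1), ∑ w ∈ range (min (mu 0 c) (0 + c + 0 - u) + 1),
      ky t u w (0 + c + 0 + 1 - u - w) = iz u * t + rho t u * t ^ (c + 1 - u) := by
    intro u hu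
    simp only [mu, if_true, mem_range] at hu ⊢
    rw [min_eq_right (by omega)]
    have h1 := sum_rho t (0 + c + 0 - u) (0 + c + 0 + 1 - u) (by omega)
    have h2 : 0 + c + 0 + 1 - u - (0 + c + 0 - u) = 1 := by omega
    rw [h2, pow_one] at h1
    have h3 := sum_iz t (0 + c + 0 - u) (0 + c + 0 + 1 - u)
    have h4 : c + 1 - u = 0 + c + 0 + 1 - u := by omega
    rw [h4]
    refine Eq.trans ?_ (congrArg₂ (fun x y => iz u * x + rho t u * y) h1 h3)
    rw [mul_sum, mul_sum, ← sum_add_distrib]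
    refine sum_congr rfl fun w _ => by unfold ky; ring
  rw [sum_congr rfl this, sum_add_distrib]
  simp only [mu, if_true]
  rw [sum_rho t c (c + 1) (by omega), sum_range_succ']
  simp [iz]
  ring

end Ring

variable {B : Type} [CommRing B] [TopologicalSpace B] [IsTopologicalRing B] [T3Space B]

theorem tsum_first {q : B} (hq : Good q) (t : B) (ψ : ℕ → B) (p0 p1 : B) (h0 : ψ 0 = p0)
    (h1 : ∀ n, ψ (n + 1) = t ^ n * p1) :
    ∑' n : ℕ, q ^ (n + 1) * ψ n = q * (p0 + q * geo q t * p1) := by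
  have := ((hasSum_iz.mul_right p0).add ((hasSum_gs hq t).mul_right p1)).mul_left q
  rw [one_mul] at this
  rw [← this.tsum_eq]
  refine tsum_congr fun n => ?_
  rcases n with _ | n <;> simp [iz, gs, h0, h1]
  ring

/-- generating function of complete stacks with at least two diagonals -/
noncomputable def al (q : B) : B := L q (fun _ _ c => q ^ c)
/-- the same, weighted by the length of the last diagonal -/
noncomputable def be (q : B) : B := L q (fun _ _ c => c * q ^ c)
/-- the same, weighted by the number of flush sides -/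
noncomputable def la' (q : B) : B := L q (fun u w c => (iz u + iz w) * q ^ c)

theorem eq_x {q : B} (hq : Good q) (t : B) :
    L q (kx t) = q * (t + t * (1 - t) + q * geo q t * t) + (t * al q + t * (1 - t) * be q +
      q * geo q t * t * la' q + q ^ 2 * geo q t ^ 2 * t * L q (kz (q * t))) := by
  unfold al be la'
  rw [← L_mul hq, ← L_mul hq, ← L_mul hq, ← L_mul hq, ← L_add hq, ← L_add hq, ← L_add hq]
  conv_lhs => unfold L
  rw [T_decomp hq]
  congr 1
  · refine tsum_first hq t _ _ _ (by rw [kx_tri t 1 le_rfl]; simp) fun n => ?_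
    rw [kx_rect t 0 1 (n + 1) le_rfl (by simp [mu] <;> omega), ← pow_succ]
    congr 1
    simp [mu] <;> omega
  · refine L_congr fun u w c hc => ?_
    rw [next_eq hq t _ u w c _ t t (t ^ (c + 1)) (kx_tri t c hc)]
    · unfold kz; ring
    · intro a
      rw [kx_rect t _ _ _ hc (by simp [mu] <;> omega), ← pow_succ]
      congr 1
      simp [mu] <;> omega
    · intro a
      rw [kx_rect t _ _ _ hc (by simp [mu] <;> omega), ← pow_succ]
      congr 1
      simp [mu] <;> omega
    · intro a b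
      rw [kx_rect t _ _ _ hc (by simp [mu] <;> omega), ← pow_add]
      congr 1
      simp [mu] <;> omega

theorem eq_y {q : B} (hq : Good q) (t : B) :
    L q (ky t) = q * (2 * t + q * geo q t * (2 * t ^ 2)) + (2 * t * al q +
      q * geo q t * t ^ 2 * la' q + q * geo q t ^ 2 * t * L q (ky (q * t))) := by
  unfold al la'
  rw [← L_mul hq, ← L_mul hq, ← L_mul hq, ← L_add hq, ← L_add hq]
  conv_lhs => unfold L
  rw [T_decomp hq]
  congr 1
  · refine tsum_first hq t _ _ _ (ky_tri t 1 le_rfl) fun n => ?_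
    rw [ky_rect t 0 1 (n + 1) le_rfl (by simp [mu] <;> omega)]
    simp [mu]
    ring
  · refine L_congr fun u w c hc => ?_
    rw [next_eq hq t _ u w c _ (t ^ 2 + t ^ (c + 1)) (t ^ 2 + t ^ (c + 1)) (2 * t ^ (c + 2))
      (ky_tri t c hc)]
    · unfold ky rho
      have := geo_mul hq t
      linear_combination (-(q * geo q t * t * (q * t) ^ c * (iz u + iz w))) * this
    · intro a
      rw [ky_rect t _ _ _ hc (by simp [mu] <;> omega)]
      have h1 : a + 1 + c + 0 + 1 - mu 0 c = a + 2 := by simp [mu] <;> omega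
      have h2 : a + 1 + c + 0 + 1 - mu (a + 1) c = a + (c + 1) := by simp [mu] <;> omega
      rw [h1, h2]; ring
    · intro a
      rw [ky_rect t _ _ _ hc (by simp [mu] <;> omega)]
      have h1 : 0 + c + (a + 1) + 1 - mu 0 c = a + 2 := by simp [mu] <;> omega
      have h2 : 0 + c + (a + 1) + 1 - mu (a + 1) c = a + (c + 1) := by simp [mu] <;> omega
      rw [h1, h2]; ring
    · intro a b
      rw [ky_rect t _ _ _ hc (by simp [mu] <;> omega)]
      have h1 : a + 1 + c + (b + 1) + 1 - mu (b + 1) c = a + b + (c + 2) := by simp [mu] <;> omega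
      have h2 : a + 1 + c + (b + 1) + 1 - mu (a + 1) c = a + b + (c + 2) := by simp [mu] <;> omega
      rw [h1, h2]; ring

theorem eq_z {q : B} (hq : Good q) (t : B) :
    L q (kz t) = q * (t ^ 2 + q * geo q t * t ^ 3) + geo q t ^ 2 * t * L q (kx (q * t)) := by
  rw [← L_mul hq]
  conv_lhs => unfold L
  rw [T_decomp hq]
  congr 1
  · refine tsum_first hq t _ _ _ (by rw [kz_all t _ _ _ le_rfl]) fun n => ?_
    rw [kz_all t _ _ _ le_rfl]
    ring
  · refine L_congr fun u w c hc => ?_
    rw [next_eq hq t _ u w c (t ^ (c + 1)) (t ^ (c + 2)) (t ^ (c + 2)) (t ^ (c + 3))]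
    · unfold kx rho
      have := geo_mul hq t
      linear_combination (-(t * (q * t) ^ c) * (geo q t * (1 - q * t) + 1 +
        geo q t * (q * t) * (iz u + iz w))) * this
    · rw [kz_all t _ _ _ hc]; ring
    · intro a; rw [kz_all t _ _ _ hc]; ring
    · intro a; rw [kz_all t _ _ _ hc]; ring
    · intro a b; rw [kz_all t _ _ _ hc]; ring

theorem close_x {q : B} (hq : Good q) (t : B) :
    L q (kx t) + (-t) * L q (ky t) + t ^ 2 * L q (kz t) =
      (1 - t) ^ 2 * L q (fun _ _ c => t ^ c) := by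
  rw [← L_mul hq, ← L_mul hq, ← L_mul hq, ← L_add hq, ← L_add hq]
  refine L_congr fun u w c _ => ?_
  unfold kx ky kz rho
  ring

theorem close_y {q : B} (hq : Good q) (t : B) :
    L q (ky t) + (-2 * t) * L q (kz t) =
      (1 - t) * L q (fun u w c => (iz u + iz w) * t ^ c) := by
  rw [← L_mul hq, ← L_mul hq, ← L_add hq]
  refine L_congr fun u w c _ => ?_
  unfold ky kz rho
  ring

theorem T_complete {q : B} (hq : Good q) : T q (fun a _ b => iz a * iz b) = q + al q := by
  rw [T_decomp hq]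
  congr 1
  · rw [tsum_first hq 0 _ 1 0 (by simp [iz]) (by simp [iz])]
    simp
  · refine L_congr fun u w c _ => ?_
    rw [next_eq hq 0 _ u w c 1 0 0 0 (by simp [iz]) (by simp [iz]) (by simp [iz]) (by simp [iz])]
    simp

end Pool.Agent.P.MP_8704cc_co
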