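import Pool.Agent.P.MP_8704cc_co.Code

namespace Pool.Agent.P.MP_8704cc_co

open Code Finset

variable {B : Type} [CommRing B] [TopologicalSpace B] [IsTopologicalRing B] [T3Space B]

/-- families that tend to zero `q`-adically are summable -/
def Good (q : B) : Prop :=
  ∀ {ι : Type} (f : ι → B), (∀ n : ℕ, {i | ¬ q ^ n ∣ f i}.Finite) → Summable f

open Classical in
/-- weight of a code -/
noncomputable def W (q : B) (P : Code) : B := if P.valid then q ^ P.area else 0

omit [IsTopologicalRing B] [T3Space B] in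
theorem summable_W {q : B} (hq : Good q) {ι : Type} (e : ι → Code) (he : Function.Injective e)
    (φ : ι → B) : Summable (fun i => W q (e i) * φ i) := by
  refine hq _ fun n => ?_
  refine ((finite_valid n).preimage he.injOn).subset ?_
  intro i hi
  simp only [Set.mem_ofPred_eq, Set.mem_preimage] at hi ⊢
  by_contra hcon
  apply hi
  unfold W
  split_ifs with h
  · have : n ≤ (e i).area := by
      by_contra h2
      exact hcon ⟨h, by omega⟩
    exact (pow_dvd_pow q this).mul_right _
  · simp

/-- admissible offsets -/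
def Dset (a c b : ℕ) : Finset (ℕ × ℕ) :=
  (range (a + c + b + 1) ×ˢ range (a + c + b + 1)).filter (fun x => Adm a c b x.1 x.2)

theorem mem_Dset {a c b : ℕ} {x : ℕ × ℕ} : x ∈ Dset a c b ↔ Adm a c b x.1 x.2 := by
  simp only [Dset, mem_filter, mem_product, mem_range, and_iff_right_iff_imp]
  intro h
  have := h.2.2
  omega

/-- sum of a state function over valid codes -/
noncomputable def T (q : B) (ψ : ℕ → ℕ → ℕ → B) : B := ∑' P : Code, W q P * ψ P.la P.core P.rb

/-- sum over admissible offsets -/
def ker (f : ℕ → ℕ → ℕ → B) (a c b : ℕ) : B :=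
  ∑ x ∈ Dset a c b, f x.1 x.2 (a + c + b + 1 - x.1 - x.2)

/-- sum over the overhangs of the next diagonal -/
noncomputable def next (q : B) (ψ : ℕ → ℕ → ℕ → B) (u w c : ℕ) : B :=
  ∑' x : ℕ × ℕ, if (x.1 ≠ 0 → u = 0) ∧ (x.2 ≠ 0 → w = 0) then q ^ (x.1 + c + x.2) * ψ x.1 c x.2
    else 0

theorem T_decomp {q : B} (hq : Good q) (ψ : ℕ → ℕ → ℕ → B) :
    T q ψ = ∑' n : ℕ, q ^ (n + 1) * ψ 0 1 n + T q (ker (next q ψ)) := by
  unfold T
  rw [← equivSum.tsum_eq]
  have h1 : Summable (fun n : ℕ => W q (first n) * ψ 0 1 n) :=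
    summable_W hq first (fun a b h => by cases h; rfl) _
  let e : Code × (ℕ × ℕ) × (ℕ × ℕ) → Code := fun x => step x.1 x.2.1.1 x.2.1.2 x.2.2.1 x.2.2.2
  have he : Function.Injective e := by
    rintro ⟨P, ⟨u, w⟩, ⟨a, b⟩⟩ ⟨P', ⟨u', w'⟩, ⟨a', b'⟩⟩ h
    cases h; rfl
  have h2 : Summable (fun x => W q (e x) * ψ (e x).la (e x).core (e x).rb) :=
    summable_W hq e he _
  have h3 := (HasSum.sum (f := fun x => W q (equivSum x) * ψ (equivSum x).la (equivSum x).core
    (equivSum x).rb) h1.hasSum h2.hasSum).tsum_eq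
  rw [h3]
  congr 1
  · refine tsum_congr fun n => ?_
    simp [W, valid, area]
  · rw [h2.tsum_prod' (fun P => summable_W hq (fun y => e (P, y))
      (fun y z h => by simpa using he h) _)]
    refine tsum_congr fun P => ?_
    rw [(summable_W hq (fun y => e (P, y)) (fun y z h => by simpa using he h) _).tsum_prod'
      (fun y => summable_W hq (fun z => e (P, y, z)) (fun y z h => by simpa using he h) _)]
    rw [tsum_eq_sum (s := Dset P.la P.core P.rb)]
    · unfold ker
      rw [mul_sum]
      refine sum_congr rfl fun x hx => ?_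
      unfold next
      rw [← Summable.tsum_mul_left]
      · refine tsum_congr fun z => ?_
        rw [mem_Dset] at hx
        by_cases hP : P.valid
        · by_cases hz : (z.1 ≠ 0 → x.1 = 0) ∧ (z.2 ≠ 0 → x.2 = 0)
          · have : (e (P, x, z)).valid := ⟨hP, hx, hz⟩
            simp only [W, if_pos this, if_pos hP, if_pos hz]
            simp only [e, area, la, core, rb, pow_add, mul_assoc]
          · have : ¬ (e (P, x, z)).valid := fun h => hz h.2.2
            simp only [W, if_neg this, if_neg hz, zero_mul, mul_zero]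
        · have : ¬ (e (P, x, z)).valid := fun h => hP h.1
          simp only [W, if_neg this, if_neg hP, zero_mul]
      · refine hq _ fun n => ?_
        refine ((Set.finite_Iic n).prod (Set.finite_Iic n)).subset ?_
        intro z hz
        simp only [Set.mem_ofPred_eq] at hz
        by_contra hcon
        apply hz
        simp only [Set.mem_prod, Set.mem_Iic] at hcon
        split_ifs
        · exact (pow_dvd_pow q (by omega)).mul_right _
        · simp
    · intro x hx
      rw [mem_Dset] at hx
      have : ∀ z, ¬ (e (P, x, z)).valid := fun z h => hx h.2.1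
      simp only [W, if_neg (this _), zero_mul, tsum_zero]

omit [IsTopologicalRing B] [T3Space B] in
theorem T_congr {q : B} {ψ φ : ℕ → ℕ → ℕ → B} (h : ∀ a c b, 1 ≤ c → ψ a c b = φ a c b) :
    T q ψ = T q φ := by
  refine tsum_congr fun P => ?_
  by_cases hP : P.valid
  · rw [h _ _ _ (core_pos hP)]
  · simp [W, hP]

/-- sum over valid codes and admissible offsets -/
noncomputable def L (q : B) (f : ℕ → ℕ → ℕ → B) : B := T q (ker f)

omit [IsTopologicalRing B] [T3Space B] in
theorem L_congr {q : B} {f g : ℕ → ℕ → ℕ → B} (h : ∀ u w c, 1 ≤ c → f u w c = g u w c) :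
    L q f = L q g := by
  refine T_congr fun a c b _ => sum_congr rfl fun x hx => h _ _ _ ?_
  have := (mem_Dset.1 hx).2.2
  omega

theorem L_add {q : B} (hq : Good q) (f g : ℕ → ℕ → ℕ → B) :
    L q (fun u w c => f u w c + g u w c) = L q f + L q g := by
  unfold L T
  rw [← Summable.tsum_add (summable_W hq (fun P => P) Function.injective_id _)
    (summable_W hq (fun P => P) Function.injective_id _)]
  refine tsum_congr fun P => ?_
  simp only [ker, sum_add_distrib, mul_add]

theorem L_mul {q : B} (hq : Good q) (r : B) (f : ℕ → ℕ → ℕ → B) :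
    L q (fun u w c => r * f u w c) = r * L q f := by
  unfold L T
  rw [← Summable.tsum_mul_left r (summable_W hq (fun P => P) Function.injective_id _)]
  refine tsum_congr fun P => ?_
  simp only [ker, ← mul_sum]
  ring

/-- indicator of zero -/
def iz (u : ℕ) : B := if u = 0 then 1 else 0

/-- geometric series -/
noncomputable def geo (q t : B) : B := ∑' n : ℕ, (q * t) ^ n

omit [IsTopologicalRing B] [T3Space B] in
theorem summable_geo {q : B} (hq : Good q) (t : B) : Summable (fun n : ℕ => (q * t) ^ n) := by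
  refine hq _ fun n => (Set.finite_Iic n).subset ?_
  intro k hk
  by_contra hcon
  apply hk
  simp only [Set.mem_Iic, not_le] at hcon
  rw [mul_pow]
  exact (pow_dvd_pow q hcon.le).mul_right _

theorem geo_mul {q : B} (hq : Good q) (t : B) : geo q t * (1 - q * t) = 1 :=
  (summable_geo hq t).tsum_pow_mul_one_sub

/-- shifted geometric sequence -/
def gs (q t : B) (a : ℕ) : B := if a = 0 then 0 else q * (q * t) ^ (a - 1)

omit [T3Space B] in
theorem hasSum_gs {q : B} (hq : Good q) (t : B) : HasSum (gs q t) (q * geo q t) := by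
  have h1 : HasSum (fun n => gs q t (n + 1)) (q * geo q t) := by
    have := (summable_geo hq t).hasSum.mul_left q
    simp only [gs, if_neg (Nat.succ_ne_zero _), Nat.add_sub_cancel]
    exact this
  have := (hasSum_nat_add_iff' 1 (f := gs q t) (g := q * geo q t)).1 (by simpa [gs] using h1)
  exact this

omit [IsTopologicalRing B] [T3Space B] in
theorem hasSum_iz : HasSum (iz : ℕ → B) 1 := hasSum_ite_eq 0 1

theorem hasSum_prod {q : B} (hq : Good q) {f g : ℕ → B} {r s : B} (h1 : HasSum f r)
    (h2 : HasSum g s) (hf : ∀ a, q ^ (a - 1) ∣ f a) (hg : ∀ a, q ^ (a - 1) ∣ g a) :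
    HasSum (fun x : ℕ × ℕ => f x.1 * g x.2) (r * s) := by
  refine HasSum.mul h1 h2 ?_
  refine hq _ fun n => ((Set.finite_Iic (n + 1)).prod (Set.finite_Iic (n + 1))).subset ?_
  intro z hz
  simp only [Set.mem_ofPred_eq] at hz
  by_contra hcon
  apply hz
  simp only [Set.mem_prod, Set.mem_Iic, not_and_or, not_le] at hcon
  rcases hcon with h | h
  · exact ((pow_dvd_pow q (by omega)).trans (hf z.1)).mul_right _
  · exact ((pow_dvd_pow q (by omega)).trans (hg z.2)).mul_left _

theorem next_eq {q : B} (hq : Good q) (t : B) (ψ : ℕ → ℕ → ℕ → B) (u w c : ℕ)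
    (p00 p10 p01 p11 : B) (h00 : ψ 0 c 0 = p00) (h10 : ∀ a, ψ (a + 1) c 0 = t ^ a * p10)
    (h01 : ∀ b, ψ 0 c (b + 1) = t ^ b * p01)
    (h11 : ∀ a b, ψ (a + 1) c (b + 1) = t ^ (a + b) * p11) :
    next q ψ u w c = q ^ c * (p00 + iz u * (q * geo q t) * p10 + iz w * (q * geo q t) * p01 +
      iz u * iz w * (q * geo q t) ^ 2 * p11) := by
  have a1 : ∀ a, q ^ (a - 1) ∣ (iz a : B) := by
    intro a
    rcases a with _ | a <;> simp [iz]
  have a2 : ∀ a, q ^ (a - 1) ∣ gs q t a := by
    intro a
    rcases a with _ | a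
    · simp [gs]
    · simp only [gs, Nat.add_sub_cancel, if_neg (Nat.succ_ne_zero a), mul_pow]
      exact (Dvd.intro _ rfl).mul_left _
  have s00 := hasSum_prod hq hasSum_iz hasSum_iz a1 a1
  have s10 := hasSum_prod hq (hasSum_gs hq t) hasSum_iz a2 a1
  have s01 := hasSum_prod hq hasSum_iz (hasSum_gs hq t) a1 a2
  have s11 := hasSum_prod hq (hasSum_gs hq t) (hasSum_gs hq t) a2 a2
  have h4 := ((((s00.mul_right p00).add (s10.mul_right (iz u * p10))).add
    (s01.mul_right (iz w * p01))).add (s11.mul_right (iz u * iz w * p11))).mul_left (q ^ c)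
  have h2 := h4.tsum_eq
  have h3 : q ^ c * (1 * 1 * p00 + q * geo q t * 1 * (iz u * p10) + 1 * (q * geo q t) * (iz w * p01)
      + q * geo q t * (q * geo q t) * (iz u * iz w * p11)) = q ^ c * (p00 + iz u * (q * geo q t) * p10
      + iz w * (q * geo q t) * p01 + iz u * iz w * (q * geo q t) ^ 2 * p11) := by ring
  rw [← h3, ← h2]
  unfold next
  refine tsum_congr ?_
  rintro ⟨a, b⟩
  rcases a with _ | a <;> rcases b with _ | b <;> rcases u with _ | u <;> rcases w with _ | w <;>
    simp [iz, gs, h00, h10, h01, h11] <;> ring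

end Pool.Agent.P.MP_8704cc_co
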