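import Pool.Agent.P.MP_8704cc_co.Cells
import Pool.Agent.P.MP_8704cc_co.Closed

namespace Pool.Agent.P.MP_8704cc_co

open Finset Code

theorem exists_nbr {A : Finset (ℤ × ℤ)} {p r : ℤ × ℤ} (h : Conn A p r) (hne : p ≠ r) :
    ((p.1, p.2 + 1) ∈ A ∨ (p.1 + 1, p.2) ∈ A) ∨ ((p.1, p.2 - 1) ∈ A ∨ (p.1 - 1, p.2) ∈ A) := by
  rcases Relation.ReflTransGen.cases_head h with h | ⟨c, ⟨-, hc, h1⟩, -⟩
  · exact absurd h hne
  · rw [abs_iff] at h1
    rcases h1 with h1 | h1 | h1 | h1
    · right; right; convert hc using 1; ext <;> simp <;> omega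
    · left; right; convert hc using 1; ext <;> simp <;> omega
    · right; left; convert hc using 1; ext <;> simp <;> omega
    · left; left; convert hc using 1; ext <;> simp <;> omega

theorem exists_cut {A : Finset (ℤ × ℤ)} {p r : ℤ × ℤ} (h : Conn A p r) (d : ℤ)
    (hp : p.1 + p.2 < d) (hr : d < r.1 + r.2) :
    ∃ s ∈ A, s.1 + s.2 = d ∧ ((s.1, s.2 + 1) ∈ A ∨ (s.1 + 1, s.2) ∈ A) ∧
      ((s.1, s.2 - 1) ∈ A ∨ (s.1 - 1, s.2) ∈ A) := by
  by_contra hcon
  have key : r.1 + r.2 < d ∨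
      (r.1 + r.2 = d ∧ ((r.1, r.2 - 1) ∈ A ∨ (r.1 - 1, r.2) ∈ A)) := by
    clear hr
    induction h with
    | refl => exact Or.inl hp
    | @tail b c _ h ih =>
      obtain ⟨hb, hc, h1⟩ := h
      rw [abs_iff] at h1
      by_cases h2 : c.1 + c.2 < d
      · exact Or.inl h2
      · right
        rcases ih with ih | ⟨ih, ih2⟩
        · refine ⟨by omega, ?_⟩
          by_cases h3 : c.1 = b.1
          · left
            have : (c.1, c.2 - 1) = b := by ext <;> simp <;> omega
            rwa [this]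
          · right
            have : (c.1 - 1, c.2) = b := by ext <;> simp <;> omega
            rwa [this]
        · exfalso
          refine hcon ⟨b, hb, ih, ?_, ih2⟩
          by_cases h3 : c.1 = b.1
          · left
            have : (b.1, b.2 + 1) = c := by ext <;> simp <;> omega
            rwa [this]
          · right
            have : (b.1 + 1, b.2) = c := by ext <;> simp <;> omega
            rwa [this]
  omega

theorem below_core {P : Code} (hv : P.valid) {s : ℤ × ℤ} (hs : s ∈ P.cells)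
    (h : s.1 + s.2 = P.ht) (hb : (s.1, s.2 - 1) ∈ P.cells ∨ (s.1 - 1, s.2) ∈ P.cells) :
    0 < P.ht ∧ P.lo + P.la ≤ s.1 ∧ s.1 < P.lo + P.la + P.core := by
  cases P with
  | first n =>
    rcases hb with hb | hb <;> have := mem_cells_ht _ hb <;> simp only [ht] at this h <;> omega
  | step P u w a b =>
    obtain ⟨-, ⟨-, -, p1⟩, p2, p3⟩ := hv
    rw [mem_cells_top _ h] at hs
    simp only [ht_step, lo_step, la_step, core_step, rb_step] at *
    rcases hb with hb | hb <;>
      rw [mem_cells_step _ _ _ _ _ (by simp only; omega), mem_cells_top _ (by simp only; omega)]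
        at hb <;> simp only at hb <;> omega

theorem first_of_ht {P : Code} (h : P.ht = 0) : P.la = 0 ∧ P.core = 1 := by
  cases P with
  | first n => exact ⟨rfl, rfl⟩
  | step P u w a b => simp [ht] at h

theorem exists_prefix {A : Finset (ℤ × ℤ)} (hA : IsDiagConvex A) (h0 : ((0, 0) : ℤ × ℤ) ∈ A)
    (h1 : ∀ p ∈ A, 0 ≤ p.1 + p.2 ∧ (p.1 + p.2 = 0 → 0 ≤ p.1)) (d : ℕ)
    (hd : ∃ r ∈ A, (d : ℤ) ≤ r.1 + r.2) :
    ∃ P : Code, P.valid ∧ P.ht = d ∧ ∀ p, p ∈ P.cells ↔ p ∈ A ∧ p.1 + p.2 ≤ d := by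
  have hconn : ∀ p ∈ A, ∀ r ∈ A, Conn A p r := hA.2.1
  have rowA : ∀ e : ℕ, (∃ s ∈ A, s.1 + s.2 = e) → ∃ l r : ℤ, l ≤ r ∧
      ∀ p : ℤ × ℤ, p.1 + p.2 = e → (p ∈ A ↔ l ≤ p.1 ∧ p.1 ≤ r) := by
    rintro e ⟨s, hs, hse⟩
    have hne : (A.filter fun p : ℤ × ℤ => p.1 + p.2 = (e : ℤ)).Nonempty := ⟨s, mem_filter.2 ⟨hs, hse⟩⟩
    obtain ⟨a, ha, ha2⟩ := exists_min_image _ (fun p : ℤ × ℤ => p.1) hne
    obtain ⟨b, hb, hb2⟩ := exists_max_image _ (fun p : ℤ × ℤ => p.1) hne
    refine ⟨a.1, b.1, ha2 b hb, fun p hp => ⟨fun h => ?_, fun h => ?_⟩⟩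
    · exact ⟨ha2 p (mem_filter.2 ⟨h, hp⟩), hb2 p (mem_filter.2 ⟨h, hp⟩)⟩
    · rw [mem_filter] at ha hb
      exact hA.2.2 a ha.1 b hb.1 p (by omega) (by omega) h.1 h.2
  induction d with
  | zero =>
    obtain ⟨l, r, hlr, hrow⟩ := rowA 0 ⟨(0, 0), h0, by simp⟩
    have e1 := (hrow (0, 0) (by simp)).1 h0
    have e2 := (h1 _ ((hrow (l, -l) (by simp)).2 ⟨le_rfl, hlr⟩)).2 (by simp)
    simp only at e1 e2
    refine ⟨first r.toNat, trivial, rfl, fun p => ?_⟩
    rw [cells, mem_row]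
    constructor
    · intro h
      exact ⟨(hrow p h.1).2 (by omega), by omega⟩
    · intro h
      have := h1 p h.1
      have := (hrow p (by omega)).1 h.1
      omega
  | succ d ih =>
    obtain ⟨r0, hr0, hr1⟩ := hd
    obtain ⟨P, hv, hh, hP⟩ := ih ⟨r0, hr0, by omega⟩
    have hc := core_pos hv
    have nb : ∀ x : ℤ, P.lo ≤ x → x < P.lo + (P.la + P.core + P.rb : ℕ) →
        (d = 0 ∨ x < P.lo + P.la ∨ P.lo + P.la + P.core ≤ x) →
        (x, d - x + 1) ∈ A ∨ (x + 1, d - x) ∈ A := by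
      intro x x1 x2 x3
      have m1 : (x, (d : ℤ) - x) ∈ P.cells := by
        rw [mem_cells_top _ (by simp [hh])]; exact ⟨x1, x2⟩
      rcases exists_nbr (hconn _ ((hP _).1 m1).1 r0 hr0) (by rintro rfl; simp at hr1)
        with h | h
      · exact h
      · exfalso
        have := below_core hv m1 (by simp [hh]) (h.imp (fun h => (hP _).2 ⟨h, by simp only; omega⟩)
          (fun h => (hP _).2 ⟨h, by simp only; omega⟩))
        simp only at this
        omega
    have cut : ∃ x : ℤ, P.lo + P.la ≤ x ∧ x < P.lo + P.la + P.core ∧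
        ((x, d - x + 1) ∈ A ∨ (x + 1, d - x) ∈ A) := by
      rcases Nat.eq_zero_or_pos d with hd0 | hd0
      · exact ⟨P.lo + P.la, le_rfl, by omega, nb _ (by omega) (by omega) (Or.inl hd0)⟩
      · obtain ⟨s, hs, s1, s2, s3⟩ := exists_cut (hconn _ h0 r0 hr0) d (by simpa using hd0)
          (by omega)
        have := below_core hv ((hP s).2 ⟨hs, s1.le⟩) (by omega)
          (s3.imp (fun h => (hP _).2 ⟨h, by simp only; omega⟩)
          (fun h => (hP _).2 ⟨h, by simp only; omega⟩))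
        refine ⟨s.1, this.2.1, this.2.2, ?_⟩
        rwa [show (d : ℤ) - s.1 = s.2 by omega]
    obtain ⟨y, y1, y2, y3⟩ := cut
    obtain ⟨l, r, hlr, hrow⟩ := rowA (d + 1) (by
      rcases y3 with h | h
      · exact ⟨_, h, by simp only; push_cast; omega⟩
      · exact ⟨_, h, by simp only; push_cast; omega⟩)
    have up : ∀ x : ℤ, ((x, d - x + 1) ∈ A ∨ (x + 1, d - x) ∈ A) → l ≤ x + 1 ∧ x ≤ r := by
      intro x h
      rcases h with h | h <;> rw [hrow _ (by simp only; push_cast; omega)] at h <;>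
        simp only at h <;> omega
    have u0 := up y y3
    have u1 : d = 0 ∨ P.la ≠ 0 → l ≤ P.lo + 1 := fun h =>
      (up _ (nb P.lo le_rfl (by omega) (by omega))).1
    have u2 : d = 0 ∨ P.rb ≠ 0 → P.lo + (P.la + P.core + P.rb : ℕ) - 1 ≤ r := fun h =>
      (up _ (nb _ (by omega) (by omega) (by omega))).2
    refine ⟨step P (l - P.lo).toNat (P.lo + (P.la + P.core + P.rb : ℕ) - r).toNat
      (P.lo - l).toNat (r - (P.lo + (P.la + P.core + P.rb : ℕ))).toNat,
      ⟨hv, ⟨?_, ?_, by omega⟩, by omega, by omega⟩, by rw [ht_step, hh], fun p => ?_⟩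
    · unfold mu; split_ifs <;> omega
    · unfold mu; split_ifs <;> omega
    · by_cases hp : p.1 + p.2 ≤ d
      · rw [mem_cells_step _ _ _ _ _ (by omega), hP]
        exact and_congr_right fun _ => by omega
      · by_cases hp2 : p.1 + p.2 = d + 1
        · rw [mem_cells_top _ (by rw [ht_step]; push_cast; omega), hrow p (by push_cast; omega)]
          simp only [lo_step, la_step, core_step, rb_step]
          omega
        · constructor
          · intro h
            have := mem_cells_ht _ h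
            rw [ht_step] at this
            omega
          · omega

theorem exists_code {A : Finset (ℤ × ℤ)} (hA : IsDiagConvex A) (h0 : ((0, 0) : ℤ × ℤ) ∈ A)
    (h1 : ∀ p ∈ A, 0 ≤ p.1 + p.2 ∧ (p.1 + p.2 = 0 → 0 ≤ p.1)) :
    ∃ P : Code, P.valid ∧ P.la = 0 ∧ P.rb = 0 ∧ P.cells = A := by
  have hconn : ∀ p ∈ A, ∀ r ∈ A, Conn A p r := hA.2.1
  obtain ⟨r, hr, hr2⟩ := exists_max_image A (fun p : ℤ × ℤ => p.1 + p.2) hA.1
  have := (h1 r hr).1
  obtain ⟨P, hv, hh, hP⟩ := exists_prefix hA h0 h1 (r.1 + r.2).toNat ⟨r, hr, by omega⟩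
  have hPA : P.cells = A := by
    ext p
    rw [hP]
    refine and_iff_left_of_imp fun h => ?_
    have := hr2 p h
    omega
  have hc := core_pos hv
  have key : ∀ x : ℤ, P.lo ≤ x → x < P.lo + (P.la + P.core + P.rb : ℕ) →
      P.lo + P.la ≤ x ∧ x < P.lo + P.la + P.core := by
    intro x x1 x2
    by_contra hcon
    have m1 : (x, (P.ht : ℤ) - x) ∈ P.cells := by
      rw [mem_cells_top _ (by simp)]; exact ⟨x1, x2⟩
    have m2 : (P.lo + P.la, (P.ht : ℤ) - (P.lo + P.la)) ∈ P.cells := by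
      rw [mem_cells_top _ (by simp)]; simp only; omega
    rcases exists_nbr (hconn _ (hPA ▸ m1) _ (hPA ▸ m2))
      (fun h => by have := (Prod.ext_iff.1 h).1; simp only at this; omega) with h | h
    · rw [← hPA] at h
      rcases h with h | h <;> have := mem_cells_ht _ h <;> simp only at this <;> omega
    · rw [← hPA] at h
      exact hcon (below_core hv m1 (by simp) h).2
  have k1 := key P.lo le_rfl (by omega)
  have k2 := key (P.lo + (P.la + P.core + P.rb : ℕ) - 1) (by omega) (by omega)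
  exact ⟨P, hv, by omega, by omega, hPA⟩

theorem mem_transl {A : Finset (ℤ × ℤ)} {v p : ℤ × ℤ} : p ∈ A.image (· + v) ↔ p - v ∈ A := by
  rw [mem_image]
  constructor
  · rintro ⟨a, ha, rfl⟩; simpa using ha
  · intro h; exact ⟨_, h, by simp⟩

theorem IsDiagConvex.transl {A : Finset (ℤ × ℤ)} (hA : IsDiagConvex A) (v : ℤ × ℤ) :
    IsDiagConvex (A.image (· + v)) := by
  refine ⟨hA.1.image _, fun p hp r hr => ?_, fun p hp r hr s h1 h2 h3 h4 => ?_⟩
  · obtain ⟨p, hp', rfl⟩ := mem_image.1 hp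
    obtain ⟨r, hr', rfl⟩ := mem_image.1 hr
    have := hA.2.1 p hp' r hr'
    clear hr hr'
    induction this with
    | refl => exact Relation.ReflTransGen.refl
    | tail _ h ih =>
      exact Relation.ReflTransGen.tail ih
        ⟨mem_image_of_mem _ h.1, mem_image_of_mem _ h.2.1, by simpa using h.2.2⟩
  · rw [mem_transl] at *
    refine hA.2.2 _ hp _ hr _ ?_ ?_ ?_ ?_ <;> simp only [Prod.fst_sub, Prod.snd_sub] <;> omega

/-- from codes to translation classes -/
noncomputable def toClass (n : ℕ)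
    (P : {P : Code // P.valid ∧ P.la = 0 ∧ P.rb = 0 ∧ P.area = n}) : TranslClasses n :=
  Quot.mk _ ⟨P.1.cells, isDiagConvex_cells P.1 P.2.1 P.2.2.1 P.2.2.2.1,
    (card_cells P.1).trans P.2.2.2.2⟩

theorem toClass_bijective (n : ℕ) : Function.Bijective (toClass n) := by
  have hequiv : Equivalence (fun A B : {A : Finset (ℤ × ℤ) // IsDiagConvex A ∧ A.card = n} =>
      ∃ v : ℤ × ℤ, B.1 = A.1.image (· + v)) := by
    refine ⟨fun A => ⟨0, by simp⟩, ?_, ?_⟩
    · rintro A B ⟨v, h⟩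
      refine ⟨-v, ?_⟩
      ext p
      rw [h, mem_transl, mem_transl]; simp
    · rintro A B C ⟨v, h⟩ ⟨w, h'⟩
      refine ⟨v + w, ?_⟩
      ext p
      rw [h', h, mem_transl, mem_transl, mem_transl, sub_sub, add_comm]
  constructor
  · intro P Q h
    obtain ⟨v, hv⟩ := hequiv.eqvGen_iff.1 (Quot.eq.1 h)
    simp only at hv
    have a1 : ((0, 0) : ℤ × ℤ) - v ∈ P.1.cells := by rw [← mem_transl, ← hv]; exact zero_mem _
    have a2 : v ∈ Q.1.cells := by rw [hv, mem_transl, sub_self]; exact zero_mem _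
    have b1 := (mem_cells_ht _ a1).1
    have b2 := (mem_cells_ht _ a2).1
    have c1 := bottom_nonneg _ a1
    have c2 := bottom_nonneg _ a2
    simp only [Prod.fst_sub, Prod.snd_sub] at b1 c1
    have : v = 0 := by ext <;> simp <;> omega
    rw [this] at hv
    exact Subtype.ext (cells_inj _ _ P.2.1 Q.2.1 (by simpa using hv.symm))
  · rintro ⟨A, hA, hn⟩
    obtain ⟨r, hr, hr2⟩ := exists_min_image A (fun p : ℤ × ℤ => p.1 + p.2) hA.1
    obtain ⟨s, hs, hs2⟩ := exists_min_image (A.filter fun p => p.1 + p.2 = r.1 + r.2)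
      (fun p : ℤ × ℤ => p.1) ⟨r, mem_filter.2 ⟨hr, rfl⟩⟩
    rw [mem_filter] at hs
    obtain ⟨P, hv, ha, hb, hP⟩ := exists_code (hA.transl (-s))
      (by rw [mem_transl]; convert hs.1 using 1; ext <;> simp) (by
        intro p hp
        rw [mem_transl] at hp
        have h1 := hr2 _ hp
        have h2 := fun h => hs2 _ (mem_filter.2 ⟨hp, h⟩)
        simp only [Prod.fst_sub, Prod.snd_sub, Prod.fst_neg, Prod.snd_neg] at h1 h2
        omega)
    refine ⟨⟨P, hv, ha, hb, ?_⟩, ?_⟩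
    · rw [← card_cells, hP, card_image_of_injective _ (add_left_injective _), hn]
    · refine Quot.sound ⟨s, ?_⟩
      ext p
      simp only [hP, mem_transl]
      simp

open PowerSeries in
open scoped PowerSeries.WithPiTopology in
theorem main :
    (∀ n, Finite (TranslClasses n)) ∧ (∀ i j, Summable fun k => qterm k i j) ∧
    constantCoeff ((Matrix.of fun i j => ∑' k, qterm k i j).submatrix id ![1, 2, 3]).det = -2 ∧
    (PowerSeries.mk fun n => (Nat.card (TranslClasses n) : ℚ)) =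
      -((Matrix.of fun i j => ∑' k, qterm k i j).submatrix id ![0, 2, 3]).det *
        (((Matrix.of fun i j => ∑' k, qterm k i j).submatrix id ![1, 2, 3]).det)⁻¹ := by
  refine ⟨fun n => ?_, summable_qterm, closed_form.1, ?_⟩
  · have hf : {P : Code | P.valid ∧ P.la = 0 ∧ P.rb = 0 ∧ P.area = n}.Finite :=
      (finite_valid n).subset fun P h => ⟨h.1, h.2.2.2.le⟩
    have : Finite {P : Code // P.valid ∧ P.la = 0 ∧ P.rb = 0 ∧ P.area = n} := hf
    exact Finite.of_surjective _ (toClass_bijective n).2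
  · rw [← closed_form.2]
    ext n
    rw [coeff_mk, coeff_al, Nat.card_eq_of_bijective _ (toClass_bijective n)]

end Pool.Agent.P.MP_8704cc_co
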