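import Pool.Agent.P.MP_8704cc_co.NDForm

namespace Pool.Agent.P.MP_8704cc_co

open Filter Topology

theorem mnr_map {R S : Type} [CommRing R] [CommRing S] (φ : R →+* S) (j : Fin 4) (q a b c d A B C D : R) :
    φ (mnr j (TT q a b c d A B C D)) =
      mnr j (TT (φ q) (φ a) (φ b) (φ c) (φ d) (φ A) (φ B) (φ C) (φ D)) := by
  fin_cases j <;> simp [mnr, TT, r0, r1, map_ofNat]

/-- coefficients of the reduced denominator and numerator -/
def dA (q r : ℝ) : ℝ := -6 * q - 2 * q ^ 2 + (-1 + 29 * q + 14 * q ^ 2) * r + (2 - 33 * q - 24 * q ^ 2) * r ^ 2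
/-- see `dA` -/
def dB (q r : ℝ) : ℝ := 1 + 3 * q - (4 + 15 * q + 2 * q ^ 2) * r + (4 + 18 * q + 6 * q ^ 2) * r ^ 2
/-- see `dA` -/
def nA (q r : ℝ) : ℝ := 2 + 2 * q - (8 + 11 * q + q ^ 2) * r + (8 + 14 * q + 3 * q ^ 2) * r ^ 2
/-- see `dA` -/
def nB (q r : ℝ) : ℝ := q + q ^ 2 - (4 * q + 5 * q ^ 2) * r + (4 * q + 6 * q ^ 2) * r ^ 2
/-- see `dA` -/
def eD (q r : ℝ) : ℝ := -1 + 3 * q - q ^ 2 - 3 * q ^ 3 + 2 * q ^ 4 + (2 - 5 * q + 9 * q ^ 3 - 6 * q ^ 4) * r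
/-- see `dA` -/
def eN (q r : ℝ) : ℝ := q + q ^ 2 - q ^ 3 - q ^ 4 + (-2 * q - 3 * q ^ 2 + 2 * q ^ 3 + 3 * q ^ 4) * r
/-- see `dA` -/
def rD (q r x y : ℝ) : ℝ := 2 * eD q r +
  (1 - 19 * q + 31 * q ^ 2 + 3 * q ^ 3 - 8 * q ^ 4) * x + (2 + 4 * q - 16 * q ^ 2 + 4 * q ^ 3 + 2 * q ^ 4) * y +
  (-2 + 37 * q - 44 * q ^ 2 - 15 * q ^ 3 + 24 * q ^ 4) * r * x +
  (-4 - 10 * q + 26 * q ^ 2 - 6 * q ^ 3 - 6 * q ^ 4) * r * y
/-- see `dA` -/
def rN (q r x y : ℝ) : ℝ := 2 * eN q r +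
  (4 - 3 * q - 9 * q ^ 2 + 7 * q ^ 3 + q ^ 4) * x + (2 * q - 2 * q ^ 2 - 6 * q ^ 3 + 2 * q ^ 4) * y +
  (-8 + 2 * q + 17 * q ^ 2 - 8 * q ^ 3 - 3 * q ^ 4) * r * x + (-4 * q + 2 * q ^ 2 + 8 * q ^ 3 - 6 * q ^ 4) * r * y

theorem algD {q a r c d x y C D : ℝ} (w1 : a * d - a * r * c + a * (a * r) = 1)
    (w2 : a * x * D - a * y * C + a * x * (a * y) = 1) :
    mnr 1 (TT q a (a * r) c d (a * x) (a * y) C D) = 4 * q ^ 2 * a * ((1 - q) ^ 2 *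
      (dA q r * (a * C - c * (a * x)) + dB q r * (a * D + (a - c) * (a * y))) + rD q r x y) := by
  simp only [mnr, TT, r0, r1, Matrix.of_apply, Matrix.cons_val]
  linear_combination (norm := (simp only [dA, dB, rD, eD]; ring1))
    (4 * q ^ 2 * a * (rD q r x y - eD q r)) * w1 + (4 * q ^ 2 * a * eD q r) * w2

theorem algN {q a r c d x y C D : ℝ} (w1 : a * d - a * r * c + a * (a * r) = 1)
    (w2 : a * x * D - a * y * C + a * x * (a * y) = 1) :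
    mnr 0 (TT q a (a * r) c d (a * x) (a * y) C D) = 4 * q ^ 3 * a * ((1 - q) ^ 2 *
      (nA q r * (a * C - c * (a * x)) + nB q r * (a * D + (a - c) * (a * y))) + rN q r x y) := by
  simp only [mnr, TT, r0, r1, Matrix.of_apply, Matrix.cons_val]
  linear_combination (norm := (simp only [nA, nB, rN, eN]; ring1))
    (4 * q ^ 3 * a * (rN q r x y - eN q r)) * w1 + (4 * q ^ 3 * a * eN q r) * w2

theorem lower : ∀ᶠ q in 𝓝 (1 : ℝ), ∀ r ∈ Set.Icc (0 : ℝ) (39 / 100),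
    1 / 10 ^ 5 < dB q r ∧ 1 / 10 ^ 5 < nA q r * dB q r - nB q r * dA q r := by
  refine isCompact_Icc.eventually_forall_of_forall_eventually fun r hr => Eventually.and ?_ ?_
  · refine (show ContinuousAt (fun z : ℝ × ℝ => dB z.1 z.2) (1, r) by unfold dB; fun_prop).eventually
      (lt_mem_nhds ?_)
    simp only [dB]
    nlinarith [sq_nonneg (r - 3 / 8)]
  · refine (show ContinuousAt (fun z : ℝ × ℝ => nA z.1 z.2 * dB z.1 z.2 - nB z.1 z.2 * dA z.1 z.2) (1, r) by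
      unfold nA nB dA dB; fun_prop).eventually (lt_mem_nhds ?_)
    have h1 : nA 1 r * dB 1 r - nB 1 r * dA 1 r = 2 * (2 - 5 * r) ^ 4 := by
      simp only [nA, nB, dA, dB]; ring
    have h2 : (1 / 20 : ℝ) ^ 4 ≤ (2 - 5 * r) ^ 4 := pow_le_pow_left₀ (by norm_num) (by linarith [hr.2]) 4
    simp only [h1]
    linarith

theorem upper : ∃ M > 0, ∀ q ∈ Set.Icc (0 : ℝ) 1, ∀ r ∈ Set.Icc (0 : ℝ) 1, ∀ x y : ℝ, |x| ≤ 1 → |y| ≤ 1 →
    |rD q r x y| ≤ M ∧ |dA q r * rN q r x y - nA q r * rD q r x y| ≤ M ∧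
      |nB q r * rD q r x y - dB q r * rN q r x y| ≤ M := by
  obtain ⟨M, hM⟩ := (isCompact_Icc (a := ((0, 0, -1, -1) : ℝ × ℝ × ℝ × ℝ)) (b := (1, 1, 1, 1))).exists_bound_of_continuousOn
    (f := fun z => (rD z.1 z.2.1 z.2.2.1 z.2.2.2,
      dA z.1 z.2.1 * rN z.1 z.2.1 z.2.2.1 z.2.2.2 - nA z.1 z.2.1 * rD z.1 z.2.1 z.2.2.1 z.2.2.2,
      nB z.1 z.2.1 * rD z.1 z.2.1 z.2.2.1 z.2.2.2 - dB z.1 z.2.1 * rN z.1 z.2.1 z.2.2.1 z.2.2.2))
    (by unfold rD rN eD eN dA dB nA nB; fun_prop)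
  refine ⟨|M| + 1, by positivity, fun q hq r hr x y hx hy => ?_⟩
  have h := hM (q, r, x, y) ⟨⟨hq.1, hr.1, (abs_le.1 hx).1, (abs_le.1 hy).1⟩,
    hq.2, hr.2, (abs_le.1 hx).2, (abs_le.1 hy).2⟩
  simp only [Prod.norm_def, Real.norm_eq_abs, max_le_iff] at h
  have := le_abs_self M
  exact ⟨by linarith [h.1], by linarith [h.2.1], by linarith [h.2.2]⟩

theorem key : ∃ η > 0, ∀ᶠ q in 𝓝[<] (1 : ℝ), ∀ r ∈ Set.Icc (0 : ℝ) (39 / 100), ∀ x y P Q : ℝ,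
    |x| + |y| ≤ η * (1 - q) ^ 2 → x * Q - y * P = 1 →
    (P = 0 → 0 < ((1 - q) ^ 2 * (dA q r * P + dB q r * Q) + rD q r x y) * Q) ∧
    ((1 - q) ^ 2 * (dA q r * P + dB q r * Q) + rD q r x y = 0 →
      (1 - q) ^ 2 * (nA q r * P + nB q r * Q) + rN q r x y ≠ 0) := by
  obtain ⟨M, M0, hM⟩ := upper
  refine ⟨min 1 (1 / 10 ^ 5 / M), by positivity, ?_⟩
  filter_upwards [lower.filter_mono nhdsWithin_le_nhds, Ioo_mem_nhdsLT (zero_lt_one' ℝ)] with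
    q hq q01 r hr x y P Q hxy hw
  have e0 : 0 < (1 - q) ^ 2 := pow_pos (by linarith [q01.2]) 2
  have e1 : (1 - q) ^ 2 ≤ 1 := pow_le_one₀ (by linarith [q01.2]) (by linarith [q01.1])
  have x0 := abs_nonneg x
  have y0 := abs_nonneg y
  have s1 : |x| + |y| ≤ 1 := hxy.trans (mul_le_one₀ (min_le_left _ _) e0.le e1)
  have s2 : M * (|x| + |y|) ≤ 1 / 10 ^ 5 * (1 - q) ^ 2 := by
    have := hxy.trans (mul_le_mul_of_nonneg_right (min_le_right _ _) e0.le)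
    rw [div_mul_eq_mul_div, le_div_iff₀ M0] at this
    linarith
  obtain ⟨b1, b2, b3⟩ := hM q ⟨q01.1.le, q01.2.le⟩ r ⟨hr.1, by linarith [hr.2]⟩ x y (by linarith) (by linarith)
  obtain ⟨l1, l2⟩ := hq r hr
  generalize (1 - q) ^ 2 = e at *
  generalize rD q r x y = u at *
  generalize rN q r x y = v at *
  refine ⟨fun h => ?_, fun h h' => ?_⟩
  · subst h
    have h1 : x * Q = 1 := by linarith
    have h2 : Q ≠ 0 := fun h => by simp [h] at h1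
    have h3 : |u * x| ≤ M * |x| := abs_mul u x ▸ mul_le_mul_of_nonneg_right b1 x0
    have h4 : 0 < e * dB q r + u * x := by
      nlinarith [(abs_le.1 h3).1, mul_lt_mul_of_pos_left l1 e0, mul_nonneg M0.le y0]
    have h5 : (e * (dA q r * 0 + dB q r * Q) + u) * Q = Q ^ 2 * (e * dB q r + u * x) := by
      linear_combination (-(u * Q)) * h1
    rw [h5]
    positivity
  · have h1 : e * (nA q r * dB q r - nB q r * dA q r) =
        (dA q r * v - nA q r * u) * x - (nB q r * u - dB q r * v) * y := by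
      linear_combination (-(e * (nA q r * dB q r - nB q r * dA q r))) * hw +
        (x * nA q r + y * nB q r) * h - (x * dA q r + y * dB q r) * h'
    have h2 : |(dA q r * v - nA q r * u) * x| ≤ M * |x| := abs_mul _ x ▸ mul_le_mul_of_nonneg_right b2 x0
    have h3 : |(nB q r * u - dB q r * v) * y| ≤ M * |y| := abs_mul _ y ▸ mul_le_mul_of_nonneg_right b3 y0
    nlinarith [(abs_le.1 h2).2, (abs_le.1 h3).1, mul_lt_mul_of_pos_left l2 e0]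

end Pool.Agent.P.MP_8704cc_co
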