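import Pool.Agent.P.MP_8704cc_co.Main

namespace Pool.Agent.P.MP_8704cc_co

open Finset PowerSeries
open scoped PowerSeries.WithPiTopology

/-- `J(e q^m)` -/
noncomputable def Js (e : ℚ⟦X⟧) (m : ℕ) : ℚ⟦X⟧ := ∑' k, wgt k * (e ^ k * (X ^ k) ^ m)

/-- `K(e q^m)` -/
noncomputable def Ks (e : ℚ⟦X⟧) (m : ℕ) : ℚ⟦X⟧ := ∑' k, wgt k * (e ^ k * (X ^ k) ^ m * lgd k)

theorem hJ (e : ℚ⟦X⟧) (m : ℕ) : HasSum (fun k => wgt k * (e ^ k * (X ^ k) ^ m)) (Js e m) :=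
  (summable_wgt _ fun _ => Dvd.intro _ rfl).hasSum

theorem hK (e : ℚ⟦X⟧) (m : ℕ) : HasSum (fun k => wgt k * (e ^ k * (X ^ k) ^ m * lgd k)) (Ks e m) :=
  (summable_wgt _ fun _ => Dvd.intro _ rfl).hasSum

theorem fin {f g : ℕ → ℚ⟦X⟧} {a b : ℚ⟦X⟧} (hf : HasSum f a) (hg : HasSum g b) (h : ∀ k, f k = g k) :
    a = b := hf.unique (funext h ▸ hg)

theorem shift {f g : ℕ → ℚ⟦X⟧} {a b : ℚ⟦X⟧} (hf : HasSum f a) (h : ∀ k, g k = f (k + 1))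
    (hb : b = a - f 0) : HasSum g b := by
  have := (hasSum_nat_add_iff' 1).2 hf
  rw [funext h, hb]
  simpa using this

theorem hg (k : ℕ) : (1 - X ^ (k + 1) : ℚ⟦X⟧)⁻¹ * (1 - X ^ k * X) = 1 := by
  rw [← pow_succ]
  exact PowerSeries.inv_mul_cancel _ (by simp)

theorem wgt_zero : wgt 0 = 1 := by simp [wgt]

theorem lgd_zero : lgd 0 = 0 := by simp [lgd]

theorem hJg (e : ℚ⟦X⟧) (m : ℕ) :
    HasSum (fun k => wgt k * (e ^ k * e * X ^ m * (X ^ k) ^ (m + 1) * (1 - X ^ (k + 1))⁻¹))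
      (Js e m - Js e (m + 1)) := by
  refine shift ((hJ e m).sub (hJ e (m + 1))) (fun k => ?_) (by simp)
  have := hg k
  rw [wgt_succ]
  generalize (1 - X ^ (k + 1) : ℚ⟦X⟧)⁻¹ = g at *
  simp only [pow_succ, mul_pow]
  linear_combination (-(wgt k * e ^ k * e * X ^ m * (X ^ k) ^ m * X ^ k * g)) * this

theorem hKg (e : ℚ⟦X⟧) (m : ℕ) :
    HasSum (fun k => wgt k * (e ^ k * e * X ^ m * (X ^ k) ^ (m + 1) * (1 - X ^ (k + 1))⁻¹ * lgd k))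
      (Ks e m - Ks e (m + 1) - Js e m - Js e (m + 1) + 2) := by
  refine shift ((((hK e m).sub (hK e (m + 1))).sub (hJ e m)).sub (hJ e (m + 1))) (fun k => ?_)
    (by simp [wgt_zero, lgd_zero]; ring)
  have := hg k
  rw [wgt_succ, lgd_succ]
  generalize (1 - X ^ (k + 1) : ℚ⟦X⟧)⁻¹ = g at *
  simp only [pow_succ, mul_pow]
  linear_combination (-(wgt k * e ^ k * e * X ^ m * (X ^ k) ^ m * X ^ k * g) *
    (lgd k + 2 * (X ^ k * X * g))) * this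

theorem hJgg (e : ℚ⟦X⟧) (m : ℕ) :
    HasSum (fun k => wgt k * (e ^ k * e * X ^ m * (X ^ k) ^ (m + 1) * (1 - X ^ (k + 1))⁻¹ ^ 2))
      (Js e m - 1) := by
  refine shift (hJ e m) (fun k => ?_) (by simp [wgt_zero])
  rw [wgt_succ]
  generalize (1 - X ^ (k + 1) : ℚ⟦X⟧)⁻¹ = g at *
  simp only [pow_succ, mul_pow]
  ring

theorem recJ (e : ℚ⟦X⟧) (m : ℕ) : Js e (m + 2) = (2 + e * X ^ m) * Js e (m + 1) - Js e m := by
  have h : HasSum _ (Js e m - 2 * Js e (m + 1) + Js e (m + 2)) :=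
    shift (g := fun k => e * X ^ m * (wgt k * (e ^ k * (X ^ k) ^ (m + 1))))
      (((hJ e m).sub ((hJ e (m + 1)).mul_left 2)).add (hJ e (m + 2))) (fun k => by
        have := hg k
        rw [wgt_succ]
        generalize (1 - X ^ (k + 1) : ℚ⟦X⟧)⁻¹ = g at *
        simp only [pow_succ, mul_pow]
        linear_combination (-(wgt k * e ^ k * e * X ^ m * (X ^ k) ^ m * X ^ k) *
          (g * (1 - X ^ k * X) + 1)) * this) (by simp [wgt_zero]; ring)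
  linear_combination h.unique ((hJ e (m + 1)).mul_left _)

theorem recK (e : ℚ⟦X⟧) (m : ℕ) :
    Ks e (m + 2) = (2 + e * X ^ m) * Ks e (m + 1) - Ks e m + Js e m - Js e (m + 2) := by
  have h : HasSum _ (Ks e m - 2 * Ks e (m + 1) + Ks e (m + 2) - Js e m + Js e (m + 2)) :=
    shift (g := fun k => e * X ^ m * (wgt k * (e ^ k * (X ^ k) ^ (m + 1) * lgd k)))
      (((((hK e m).sub ((hK e (m + 1)).mul_left 2)).add (hK e (m + 2))).sub (hJ e m)).add (hJ e (m + 2)))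
      (fun k => by
        have := hg k
        rw [wgt_succ, lgd_succ]
        generalize (1 - X ^ (k + 1) : ℚ⟦X⟧)⁻¹ = g at *
        simp only [pow_succ, mul_pow]
        linear_combination (-(wgt k * e ^ k * e * X ^ m * (X ^ k) ^ m * X ^ k) *
          ((g * (1 - X ^ k * X) + 1) * lgd k + 2 * (X ^ k * X) * g ^ 2 * (1 - X ^ k * X))) * this)
      (by simp [wgt_zero, lgd_zero])
  linear_combination h.unique ((hK e (m + 1)).mul_left _)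

theorem gen (e j1 j2 j3 k1 k2 k3 g1 g2 h1 h2 i1 i2 : ℚ⟦X⟧) :
    HasSum (fun k => wgt k * e ^ k * (j1 * X ^ k + j2 * (X ^ k) ^ 2 + j3 * (X ^ k) ^ 3 +
        lgd k * (k1 * X ^ k + k2 * (X ^ k) ^ 2 + k3 * (X ^ k) ^ 3) +
        e * (1 - X ^ (k + 1))⁻¹ * ((g1 + h1 * lgd k + i1 * (1 - X ^ (k + 1))⁻¹) * X * (X ^ k) ^ 2 +
          (g2 + h2 * lgd k + i2 * (1 - X ^ (k + 1))⁻¹) * X ^ 2 * (X ^ k) ^ 3)))
      (let a := Js e 0; let b := Js e 1; let c := Ks e 0; let d := Ks e 1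
       let a2 := (2 + e) * b - a; let a3 := (2 + e * X) * a2 - b
       let c2 := (2 + e) * d - c + a - a2; let c3 := (2 + e * X) * c2 - d + b - a3
       j1 * b + j2 * a2 + j3 * a3 + k1 * d + k2 * c2 + k3 * c3 + g1 * (b - a2) + g2 * (a2 - a3) +
        h1 * (d - c2 - b - a2 + 2) + h2 * (c2 - c3 - a2 - a3 + 2) + i1 * (b - 1) + i2 * (a2 - 1)) := by
  have a2 := recJ e 0
  have a3 := recJ e 1
  have c2 := recK e 0
  have c3 := recK e 1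
  simp only [pow_zero, pow_one, mul_one, zero_add, Nat.reduceAdd] at a2 a3 c2 c3
  simp only [← a2, ← a3, ← c2, ← c3]
  have := ((((((((((((hJ e 1).mul_left j1).add ((hJ e 2).mul_left j2)).add ((hJ e 3).mul_left j3)).add
    ((hK e 1).mul_left k1)).add ((hK e 2).mul_left k2)).add ((hK e 3).mul_left k3)).add
    ((hJg e 1).mul_left g1)).add ((hJg e 2).mul_left g2)).add ((hKg e 1).mul_left h1)).add
    ((hKg e 2).mul_left h2)).add ((hJgg e 1).mul_left i1)).add ((hJgg e 2).mul_left i2)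
  refine HasSum.congr_fun this fun k => ?_
  generalize (1 - X ^ (k + 1) : ℚ⟦X⟧)⁻¹ = g
  ring

theorem par (k : ℕ) :
    ((-1 : ℚ⟦X⟧) ^ k = 1 ∧ (X : ℚ⟦X⟧) ^ (2 * (k / 2)) = X ^ k ∧ (X : ℚ⟦X⟧) ^ (2 * ((k + 1) / 2)) = X ^ k) ∨
    ((-1 : ℚ⟦X⟧) ^ k = -1 ∧ (X : ℚ⟦X⟧) ^ k = X * X ^ (2 * (k / 2)) ∧
      (X : ℚ⟦X⟧) ^ (2 * ((k + 1) / 2)) = X ^ 2 * X ^ (2 * (k / 2))) := by
  rcases Nat.even_or_odd k with h | h
  · refine Or.inl ⟨h.neg_one_pow, ?_, ?_⟩ <;> obtain ⟨j, rfl⟩ := h <;> congr 1 <;> omega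
  · refine Or.inr ⟨h.neg_one_pow, ?_, ?_⟩ <;> obtain ⟨j, rfl⟩ := h
    · rw [← pow_succ']; congr 1; omega
    · rw [← pow_add]; congr 1; omega

section
variable {R : Type} [CommRing R]

/-- rows 0 and 2 of the reduced system -/
def r0 (q a b A B : R) : Fin 4 → R :=
  ![(-3 * q ^ 2 - 3 * q ^ 3) * a + (6 * q ^ 2 + 10 * q ^ 3) * b + (q ^ 2 - q ^ 3) * A,
    (-q + 3 * q ^ 2) * a + (3 * q - 9 * q ^ 2) * b + (q - q ^ 2) * A + (-q + q ^ 2) * B,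
    (q + 2 * q ^ 2 + q ^ 3) * a + (-2 * q - 5 * q ^ 2 - 3 * q ^ 3) * b + (-q + 2 * q ^ 2 - q ^ 3) * A +
      (-q ^ 2 + q ^ 3) * B,
    (-2 - 2 * q) * a + (4 + 8 * q) * b + (2 - 2 * q) * A]

/-- row 1 of the reduced system -/
def r1 (q a b A B : R) : Fin 4 → R :=
  ![(-q ^ 2 + q ^ 3) * a + (2 * q ^ 2 - 2 * q ^ 3) * b + (-q ^ 2 - q ^ 3) * A,
    (q - q ^ 2) * a + (-3 * q + 3 * q ^ 2) * b + (-q - q ^ 2) * A + (q + q ^ 2) * B,
    (-q + q ^ 3) * a + (2 * q + q ^ 2 - 3 * q ^ 3) * b + (q - q ^ 3) * A + (q ^ 2 + q ^ 3) * B,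
    (-2 + 2 * q) * a + (4 - 4 * q) * b + (-2 - 2 * q) * A]

/-- the reduced system -/
def TT (q a b c d A B C D : R) : Matrix (Fin 3) (Fin 4) R :=
  Matrix.of ![r0 q a b A B, r1 q a b A B, r0 q (c - a) d (C - A) D]

/-- the minor on columns `j, 2, 3` -/
def mnr (j : Fin 4) (M : Matrix (Fin 3) (Fin 4) R) : R :=
  M 0 j * (M 1 2 * M 2 3 - M 1 3 * M 2 2) - M 0 2 * (M 1 j * M 2 3 - M 1 3 * M 2 j) +
    M 0 3 * (M 1 j * M 2 2 - M 1 2 * M 2 j)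

end

theorem S_eq (i : Fin 3) (j : Fin 4) : 2 * X ^ 2 * ∑' k, qterm k i j =
    TT X (Js 1 0) (Js 1 1) (Ks 1 0) (Ks 1 1) (Js (-1) 0) (Js (-1) 1) (Ks (-1) 0) (Ks (-1) 1) i j := by
  have hS := fun i j => (summable_qterm i j).hasSum.mul_left (2 * X ^ 2)
  fin_cases i <;> fin_cases j <;> simp only [Fin.zero_eta, Fin.mk_one, Fin.reduceFinMk, Fin.isValue]
  · refine (fin (hS 0 0) ((gen 1 (X ^ 2 + X ^ 3) (-5 * X ^ 2 - X ^ 3) (4 * X ^ 2) 0 0 0 0 0 0 0 0 0).add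
      (gen (-1) (X ^ 2 - X ^ 3) (-X ^ 2 + X ^ 3) 0 0 0 0 0 0 0 0 0 0)) fun k => ?_).trans ?_
    · rcases par k with ⟨h1, h2, h3⟩ | ⟨h1, h2, h3⟩ <;>
        simp only [qterm, Matrix.of_apply, Matrix.cons_val, h1, h2, h3, one_pow] <;> ring
    · simp only [TT, r0, r1, Matrix.of_apply, Matrix.cons_val]; ring
  · refine (fin (hS 0 1) ((gen 1 0 (X - 3 * X ^ 2) 0 0 0 0 0 0 0 0 0 0).add
      (gen (-1) 0 (-X + X ^ 2) 0 0 0 0 0 0 0 0 0 0)) fun k => ?_).trans ?_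
    · rcases par k with ⟨h1, h2, h3⟩ | ⟨h1, h2, h3⟩ <;>
        simp only [qterm, Matrix.of_apply, Matrix.cons_val, h1, h2, h3, one_pow] <;> ring
    · simp only [TT, r0, r1, Matrix.of_apply, Matrix.cons_val]; ring
  · refine (fin (hS 0 2) ((gen 1 0 (X + X ^ 2) (-X - X ^ 2) 0 0 0 0 0 0 0 0 0).add
      (gen (-1) 0 (-X + X ^ 2) (X - X ^ 2) 0 0 0 0 0 0 0 0 0)) fun k => ?_).trans ?_
    · rcases par k with ⟨h1, h2, h3⟩ | ⟨h1, h2, h3⟩ <;>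
        simp only [qterm, Matrix.of_apply, Matrix.cons_val, h1, h2, h3, one_pow] <;> ring
    · simp only [TT, r0, r1, Matrix.of_apply, Matrix.cons_val]; ring
  · refine (fin (hS 0 3) ((gen 1 0 0 0 0 0 0 (2 + 2 * X) (-4) 0 0 0 0).add
      (gen (-1) 0 0 0 0 0 0 (2 - 2 * X) 0 0 0 0 0)) fun k => ?_).trans ?_
    · rcases par k with ⟨h1, h2, h3⟩ | ⟨h1, h2, h3⟩ <;>
        simp only [qterm, Matrix.of_apply, Matrix.cons_val, h1, h2, h3, one_pow] <;> ring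
    · simp only [TT, r0, r1, Matrix.of_apply, Matrix.cons_val]; ring
  · refine (fin (hS 1 0) ((gen 1 (-X ^ 2 + X ^ 3) (X ^ 2 - X ^ 3) 0 0 0 0 0 0 0 0 0 0).add
      (gen (-1) (-X ^ 2 - X ^ 3) (X ^ 2 + X ^ 3) 0 0 0 0 0 0 0 0 0 0)) fun k => ?_).trans ?_
    · rcases par k with ⟨h1, h2, h3⟩ | ⟨h1, h2, h3⟩ <;>
        simp only [qterm, Matrix.of_apply, Matrix.cons_val, h1, h2, h3, one_pow] <;> ring
    · simp only [TT, r0, r1, Matrix.of_apply, Matrix.cons_val]; ring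
  · refine (fin (hS 1 1) ((gen 1 0 (-X + X ^ 2) 0 0 0 0 0 0 0 0 0 0).add
      (gen (-1) 0 (X + X ^ 2) 0 0 0 0 0 0 0 0 0 0)) fun k => ?_).trans ?_
    · rcases par k with ⟨h1, h2, h3⟩ | ⟨h1, h2, h3⟩ <;>
        simp only [qterm, Matrix.of_apply, Matrix.cons_val, h1, h2, h3, one_pow] <;> ring
    · simp only [TT, r0, r1, Matrix.of_apply, Matrix.cons_val]; ring
  · refine (fin (hS 1 2) ((gen 1 0 (-X + X ^ 2) (X - X ^ 2) 0 0 0 0 0 0 0 0 0).add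
      (gen (-1) 0 (X + X ^ 2) (-X - X ^ 2) 0 0 0 0 0 0 0 0 0)) fun k => ?_).trans ?_
    · rcases par k with ⟨h1, h2, h3⟩ | ⟨h1, h2, h3⟩ <;>
        simp only [qterm, Matrix.of_apply, Matrix.cons_val, h1, h2, h3, one_pow] <;> ring
    · simp only [TT, r0, r1, Matrix.of_apply, Matrix.cons_val]; ring
  · refine (fin (hS 1 3) ((gen 1 0 0 0 0 0 0 (-2 + 2 * X) 0 0 0 0 0).add
      (gen (-1) 0 0 0 0 0 0 (-2 - 2 * X) 0 0 0 0 0)) fun k => ?_).trans ?_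
    · rcases par k with ⟨h1, h2, h3⟩ | ⟨h1, h2, h3⟩ <;>
        simp only [qterm, Matrix.of_apply, Matrix.cons_val, h1, h2, h3, one_pow] <;> ring
    · simp only [TT, r0, r1, Matrix.of_apply, Matrix.cons_val]; ring
  · refine (fin (hS 2 0) ((gen 1 0 (-5 * X ^ 2 - X ^ 3) (8 * X ^ 2) (X ^ 2 + X ^ 3) (-5 * X ^ 2 - X ^ 3) (4 * X ^ 2) 0 0 0 0 0 0).add
      (gen (-1) 0 (-X ^ 2 + X ^ 3) 0 (X ^ 2 - X ^ 3) (-X ^ 2 + X ^ 3) 0 0 0 0 0 0 0)) fun k => ?_).trans ?_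
    · rcases par k with ⟨h1, h2, h3⟩ | ⟨h1, h2, h3⟩ <;>
        simp only [qterm, Matrix.of_apply, Matrix.cons_val, h1, h2, h3, one_pow] <;> ring
    · simp only [TT, r0, r1, Matrix.of_apply, Matrix.cons_val]; ring
  · refine (fin (hS 2 1) ((gen 1 0 (X - 3 * X ^ 2) 0 0 (X - 3 * X ^ 2) 0 0 0 0 0 0 0).add
      (gen (-1) 0 (-X + X ^ 2) 0 0 (-X + X ^ 2) 0 0 0 0 0 0 0)) fun k => ?_).trans ?_
    · rcases par k with ⟨h1, h2, h3⟩ | ⟨h1, h2, h3⟩ <;>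
        simp only [qterm, Matrix.of_apply, Matrix.cons_val, h1, h2, h3, one_pow] <;> ring
    · simp only [TT, r0, r1, Matrix.of_apply, Matrix.cons_val]; ring
  · refine (fin (hS 2 2) ((gen 1 0 (X + X ^ 2) (-2 * X - 2 * X ^ 2) 0 (X + X ^ 2) (-X - X ^ 2) 0 0 0 0 0 0).add
      (gen (-1) 0 (-X + X ^ 2) (2 * X - 2 * X ^ 2) 0 (-X + X ^ 2) (X - X ^ 2) 0 0 0 0 0 0)) fun k => ?_).trans ?_
    · rcases par k with ⟨h1, h2, h3⟩ | ⟨h1, h2, h3⟩ <;>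
        simp only [qterm, Matrix.of_apply, Matrix.cons_val, h1, h2, h3, one_pow] <;> ring
    · simp only [TT, r0, r1, Matrix.of_apply, Matrix.cons_val]; ring
  · refine (fin (hS 2 3) ((gen 1 0 0 0 0 0 0 0 (-4) (2 + 2 * X) (-4) (2 + 2 * X) (-4)).add
      (gen (-1) 0 0 0 0 0 0 0 0 (2 - 2 * X) 0 (2 - 2 * X) 0)) fun k => ?_).trans ?_
    · rcases par k with ⟨h1, h2, h3⟩ | ⟨h1, h2, h3⟩ <;>
        simp only [qterm, Matrix.of_apply, Matrix.cons_val, h1, h2, h3, one_pow] <;> ring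
    · simp only [TT, r0, r1, Matrix.of_apply, Matrix.cons_val]; ring

theorem formal : (PowerSeries.mk fun n => (Nat.card (TranslClasses n) : ℚ)) *
    mnr 1 (TT X (Js 1 0) (Js 1 1) (Ks 1 0) (Ks 1 1) (Js (-1) 0) (Js (-1) 1) (Ks (-1) 0) (Ks (-1) 1)) =
    -mnr 0 (TT X (Js 1 0) (Js 1 1) (Ks 1 0) (Ks 1 1) (Js (-1) 0) (Js (-1) 1) (Ks (-1) 0) (Ks (-1) 1)) := by
  obtain ⟨-, -, h1, h2⟩ := main
  rw [PowerSeries.eq_mul_inv_iff_mul_eq (by rw [h1]; norm_num), Matrix.det_fin_three,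
    Matrix.det_fin_three] at h2
  simp only [mnr, ← S_eq]
  simp only [Matrix.submatrix_apply, Matrix.of_apply, id, Matrix.cons_val] at h2
  linear_combination (8 * X ^ 6) * h2

end Pool.Agent.P.MP_8704cc_co
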