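import Pool.Agent.P.MP_8704cc_co.NDZero

namespace Pool.Agent.P.MP_8704cc_co

open Finset PowerSeries Filter Topology

/-- `g` is a convergent series divided by a power of `D`, and `G` is the corresponding function -/
def Mer (D : ℝ⟦X⟧) (DF : ℝ → ℝ) (g : ℝ⟦X⟧) (G : ℝ → ℝ) : Prop :=
  ∃ (k : ℕ) (RF : ℝ → ℝ), Rep (g * D ^ k) RF ∧ ∀ x, |x| < 1 → DF x ≠ 0 → G x * DF x ^ k = RF x

theorem npow_aux {R : Type} [CommRing R] (a : R) (k : ℕ) : (k : R) * a ^ (k - 1) * a = k * a ^ k := by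
  rcases k with _ | k
  · simp
  · simp [pow_succ, mul_assoc]

variable {D g h : ℝ⟦X⟧} {DF G H : ℝ → ℝ}

theorem Rep.mer (hg : Rep g G) : Mer D DF g G := ⟨0, G, by simpa using hg, fun _ _ _ => by simp⟩

theorem Mer.add (hD : Rep D DF) (hg : Mer D DF g G) (hh : Mer D DF h H) :
    Mer D DF (g + h) fun x => G x + H x := by
  obtain ⟨k, R, h1, h2⟩ := hg
  obtain ⟨l, S, h3, h4⟩ := hh
  refine ⟨k + l, _, (show g * D ^ k * D ^ l + h * D ^ l * D ^ k = (g + h) * D ^ (k + l) by ring) ▸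
    (h1.mul (hD.pow l)).add (h3.mul (hD.pow k)), fun x hx h0 => ?_⟩
  simp only [← h2 x hx h0, ← h4 x hx h0]
  ring

theorem Mer.mul (hg : Mer D DF g G) (hh : Mer D DF h H) : Mer D DF (g * h) fun x => G x * H x := by
  obtain ⟨k, R, h1, h2⟩ := hg
  obtain ⟨l, S, h3, h4⟩ := hh
  refine ⟨k + l, _, (show g * D ^ k * (h * D ^ l) = (g * h) * D ^ (k + l) by ring) ▸ h1.mul h3,
    fun x hx h0 => ?_⟩
  simp only [← h2 x hx h0, ← h4 x hx h0]
  ring

theorem Mer.deriv (hD : Rep D DF) (hg : Mer D DF g G) : Mer D DF (derivative ℝ g) (deriv G) := by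
  obtain ⟨k, R, h1, h2⟩ := hg
  have e : derivative ℝ (g * D ^ k) * D - C (k : ℝ) * (g * D ^ k * derivative ℝ D) =
      derivative ℝ g * D ^ (k + 1) := by
    rw [Derivation.leibniz, Derivation.leibniz_pow, map_natCast]
    simp only [smul_eq_mul, nsmul_eq_mul]
    linear_combination (g * derivative ℝ D) * npow_aux D k
  refine ⟨k + 1, _, e ▸ (h1.deriv.mul hD).sub ((Rep.const k).mul (h1.mul hD.deriv)), fun x hx h0 => ?_⟩
  have a1 := (hD.analyticAt hx).differentiableAt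
  have a2 := (h1.analyticAt hx).differentiableAt
  have ev : ∀ᶠ y in 𝓝 x, G y * DF y ^ k = R y ∧ DF y ≠ 0 := by
    filter_upwards [a1.continuousAt.eventually_ne h0,
      (continuous_abs.tendsto x).eventually (gt_mem_nhds hx)] with y y0 y1
    exact ⟨h2 y y1 y0, y0⟩
  have a3 : DifferentiableAt ℝ G x :=
    (a2.div (a1.pow k) (pow_ne_zero k h0)).congr_of_eventuallyEq (ev.mono fun y hy =>
      eq_div_of_mul_eq (pow_ne_zero k hy.2) hy.1)
  have a4 := (a2.hasDerivAt.congr_of_eventuallyEq (ev.mono fun y hy => hy.1)).unique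
    (a3.hasDerivAt.mul (a1.hasDerivAt.pow k))
  simp only [a4, ← h2 x hx h0]
  linear_combination (-(G x * _root_.deriv DF x)) * npow_aux (DF x) k

theorem Mer.sum (hD : Rep D DF) (s : Finset ℕ) {g : ℕ → ℝ⟦X⟧} {G : ℕ → ℝ → ℝ}
    (hg : ∀ i, Mer D DF (g i) (G i)) : Mer D DF (∑ i ∈ s, g i) fun x => ∑ i ∈ s, G i x := by
  induction s using Finset.induction_on with
  | empty => simpa using Rep.zero.mer
  | insert a s ha ih => simpa only [sum_insert ha] using (hg a).add hD ih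

theorem Mer.zero (hg : Mer D DF 0 G) {x : ℝ} (hx : |x| < 1) (h0 : DF x ≠ 0) : G x = 0 := by
  obtain ⟨k, R, h1, h2⟩ := hg
  rw [zero_mul] at h1
  exact (mul_eq_zero.1 ((h2 x hx h0).trans (h1.unique Rep.zero hx))).resolve_right (pow_ne_zero k h0)

theorem ord_sum_gt {z : ℝ} {m : ℤ} (s : Finset ℕ) {g : ℕ → ℝ → ℝ} (hg : ∀ i ∈ s, MeromorphicAt (g i) z)
    (ho : ∀ i ∈ s, (m : WithTop ℤ) < meromorphicOrderAt (g i) z) :
    (m : WithTop ℤ) < meromorphicOrderAt (fun x => ∑ i ∈ s, g i x) z := by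
  induction s using Finset.induction_on with
  | empty =>
    rw [meromorphicOrderAt_eq_top_iff.2 (Eventually.of_forall fun _ => by simp)]
    exact WithTop.coe_lt_top _
  | insert a s ha ih =>
    have h1 := ih (fun i hi => hg i (mem_insert_of_mem hi)) fun i hi => ho i (mem_insert_of_mem hi)
    have h2 := meromorphicOrderAt_add (hg a (mem_insert_self _ _))
      (MeromorphicAt.fun_sum fun i hi => hg i (mem_insert_of_mem hi) :
        MeromorphicAt (fun x => ∑ i ∈ s, g i x) z)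
    simp only [sum_insert ha]
    exact (lt_min (ho a (mem_insert_self _ _)) h1).trans_le h2

theorem indep (hD : Rep D DF) {g : ℕ → ℝ⟦X⟧} {G : ℕ → ℝ → ℝ} (hg : ∀ i, Mer D DF (g i) (G i))
    (ho : ∃ᶠ x in 𝓝[<] (1 : ℝ), (∀ᶠ y in 𝓝[≠] x, DF y ≠ 0) ∧ ∃ o : ℕ → ℤ, StrictAnti o ∧ o 0 < 0 ∧
      ∀ i, MeromorphicAt (G i) x ∧ meromorphicOrderAt (G i) x = o i)
    {c : ℕ → ℝ⟦X⟧} {cF : ℕ → ℝ → ℝ} (hcF : ∀ i, Rep (c i) (cF i))
    (hcn : ∀ i, c i ≠ 0 → ∀ᶠ x in 𝓝[<] (1 : ℝ), cF i x ≠ 0) {e : ℝ⟦X⟧} {eF : ℝ → ℝ} (he : Rep e eF)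
    (s : Finset ℕ) (hc : ∑ i ∈ s, c i * g i = e) : ∀ i ∈ s, c i = 0 := by
  classical
  by_contra hne
  set S := s.filter fun i => c i ≠ 0 with hS
  have Sne : S.Nonempty := by
    by_contra h
    exact hne fun i hi => by_contra fun h' => h ⟨i, mem_filter.2 ⟨hi, h'⟩⟩
  have rS := S.max'_mem Sne
  set r := S.max' Sne
  have hc' : ∑ i ∈ S, c i * g i + -e = 0 := by
    rw [← hc, hS, sum_filter, add_neg_eq_zero]
    refine sum_congr rfl fun i _ => ?_
    split_ifs with h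
    · rfl
    · simp [not_not.1 h]
  have hz := (Mer.sum hD S fun i => (hcF i).mer.mul (hg i)).add hD he.neg.mer
  rw [hc'] at hz
  obtain ⟨x, ⟨⟨h1, o, h2, h0, h3⟩, h4⟩, h5⟩ := ((ho.and_eventually (hcn r (mem_filter.1 rS).2)).and_eventually
    (Ioo_mem_nhdsLT (zero_lt_one' ℝ))).exists
  have hx : |x| < 1 := by rw [abs_of_pos h5.1]; exact h5.2
  have an : ∀ i, AnalyticAt ℝ (cF i) x := fun i => (hcF i).analyticAt hx
  have top : meromorphicOrderAt (fun y => ∑ i ∈ S, cF i y * G i y) x = meromorphicOrderAt eF x := by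
    refine meromorphicOrderAt_congr ?_
    filter_upwards [h1, ((continuous_abs.tendsto x).eventually (gt_mem_nhds hx)).filter_mono
      nhdsWithin_le_nhds] with y y0 y1
    exact add_neg_eq_zero.1 (hz.zero y1 y0)
  have o1 : meromorphicOrderAt (fun y => cF r y * G r y) x = o r :=
    (meromorphicOrderAt_mul_of_ne_zero (an r) h4).trans (h3 r).2
  have o2 := ord_sum_gt (m := o r) (S.erase r) (g := fun i y => cF i y * G i y)
    (fun i _ => (an i).meromorphicAt.mul (h3 i).1) fun i hi => by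
      have : i < r := lt_of_le_of_ne (S.le_max' i (mem_of_mem_erase hi)) (ne_of_mem_erase hi)
      rw [fun_meromorphicOrderAt_mul (an i).meromorphicAt (h3 i).1, (h3 i).2]
      exact (WithTop.coe_lt_coe.2 (h2 this)).trans_le
        (le_add_of_nonneg_left (an i).meromorphicOrderAt_nonneg)
  have o3 := meromorphicOrderAt_add_eq_left_of_lt
    (MeromorphicAt.fun_sum fun i _ => (an i).meromorphicAt.mul (h3 i).1) (o1 ▸ o2)
  simp only [← add_sum_erase S _ rS] at top
  have o4 := (he.analyticAt hx).meromorphicOrderAt_nonneg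
  rw [← o1.symm.trans (o3.symm.trans top)] at o4
  have o5 : 0 ≤ o r := by exact_mod_cast o4
  exact absurd (h2.antitone (Nat.zero_le r)) (by omega)

theorem big {c : ℝ⟦X⟧} {R : ℝ} (hR : 1 < R) (hc : Summable fun n => coeff n c * R ^ n) :
    Rep c (fun x => ∑' n, coeff n c * x ^ n) ∧
      (c ≠ 0 → ∀ᶠ x in 𝓝[<] (1 : ℝ), ∑' n, coeff n c * x ^ n ≠ 0) := by
  have R0 : 0 < R := by linarith
  have h1 : Rep (rescale R c) fun y => ∑' n, coeff n c * (R * y) ^ n := fun y hy => by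
    have e : ∀ n, coeff n (rescale R c) * y ^ n = coeff n c * R ^ n * y ^ n := fun n => by
      rw [coeff_rescale]; ring
    simp only [e, mul_pow, ← mul_assoc]
    refine Summable.hasSum (hc.norm.of_norm_bounded (E := ℝ) fun n => ?_)
    rw [norm_mul, norm_pow]
    exact mul_le_of_le_one_right (norm_nonneg _) (pow_le_one₀ (norm_nonneg _) hy.le)
  have h2 : ∀ x : ℝ, |x| < R → |x / R| < 1 := fun x hx => by
    rwa [abs_div, abs_of_pos R0, div_lt_one R0]
  have h3 : AnalyticOnNhd ℝ (fun x => ∑' n, coeff n c * x ^ n) (Set.Ioo (-R) R) := fun x hx => by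
    have := (h1.analyticAt (h2 x (abs_lt.2 hx))).comp (f := fun x => x / R) (by fun_prop)
    simpa [Function.comp_def, mul_div_cancel₀ _ R0.ne'] using this
  have h4 : Rep c fun x => ∑' n, coeff n c * x ^ n := fun x hx => by
    have := (h1 _ (h2 x (by linarith))).summable
    refine Summable.hasSum (this.congr fun n => ?_)
    rw [coeff_rescale, div_pow]
    field_simp
  refine ⟨h4, fun h0 => ?_⟩
  have m1 : (1 : ℝ) ∈ Set.Ioo (-R) R := ⟨by linarith, hR⟩
  refine ((h3 1 m1).eventually_eq_zero_or_eventually_ne_zero.resolve_left fun h => h0 ?_).filter_mono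
    (nhdsLT_le_nhdsNE 1)
  have h5 := h3.eqOn_zero_of_preconnected_of_eventuallyEq_zero isPreconnected_Ioo m1 h
  have h6 := h4.hasFP.hasFPowerSeriesAt.eq_zero_of_eventually
    (h5.eventuallyEq_of_mem (Ioo_mem_nhds (by linarith) R0))
  rw [FormalMultilinearSeries.ofScalars_series_eq_zero] at h6
  exact PowerSeries.ext fun n => congrFun h6 n

theorem poles {A N : ℝ⟦X⟧} {NF : ℝ → ℝ} (hD : Rep D DF) (hN : Rep N NF) (hA : A * D = N) {x : ℝ}
    (hx : |x| < 1) (h0 : DF x = 0) (h1 : NF x ≠ 0) :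
    (∀ᶠ y in 𝓝[≠] x, DF y ≠ 0) ∧ MeromorphicAt (NF / DF) x ∧
      ∃ m : ℤ, m < 0 ∧ meromorphicOrderAt (NF / DF) x = m := by
  have a1 := hD.analyticAt hx
  have a2 := hN.analyticAt hx
  have e : ∀ᶠ y in 𝓝[≠] x, DF y ≠ 0 := by
    refine a1.eventually_eq_zero_or_eventually_ne_zero.resolve_left fun h => h1 ?_
    have h2 : AnalyticOnNhd ℝ DF (Set.Ioo (-1) 1) := fun y hy => hD.analyticAt (abs_lt.2 hy)
    have h3 := h2.eqOn_zero_of_preconnected_of_eventuallyEq_zero isPreconnected_Ioo (abs_lt.1 hx) h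
    have h4 := hD.hasFP.hasFPowerSeriesAt.eq_zero_of_eventually
      (h3.eventuallyEq_of_mem (Ioo_mem_nhds (by norm_num) one_pos))
    rw [FormalMultilinearSeries.ofScalars_series_eq_zero] at h4
    have h5 : D = 0 := PowerSeries.ext fun n => congrFun h4 n
    rw [← hA, h5, mul_zero] at hN
    exact hN.unique Rep.zero hx
  refine ⟨e, a2.meromorphicAt.div a1.meromorphicAt, ?_⟩
  have o1 := (tendsto_zero_iff_meromorphicOrderAt_pos a1.meromorphicAt).1
    (h0 ▸ a1.continuousAt.tendsto.mono_left nhdsWithin_le_nhds)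
  have o2 := (tendsto_ne_zero_iff_meromorphicOrderAt_eq_zero a2.meromorphicAt).1
    ⟨_, h1, a2.continuousAt.tendsto.mono_left nhdsWithin_le_nhds⟩
  obtain ⟨m, hm⟩ := WithTop.ne_top_iff_exists.1
    ((meromorphicOrderAt_ne_top_iff_eventually_ne_zero a1.meromorphicAt).2 e)
  rw [meromorphicOrderAt_div a2.meromorphicAt a1.meromorphicAt, o2, ← hm]
  rw [← hm] at o1
  exact ⟨-m, neg_neg_of_pos (by exact_mod_cast o1), by simp⟩

theorem notDfinite (r : ℕ) (c : ℕ → ℝ⟦X⟧) (e : ℝ⟦X⟧) (R : ℝ) (hR : 1 < R)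
    (hc : ∀ i, Summable fun n => coeff n (c i) * R ^ n)
    (he : ∀ x : ℝ, |x| < 1 → Summable fun n => coeff n e * x ^ n)
    (h : ∑ i ∈ range r, c i *
      (derivative ℝ)^[i] (PowerSeries.mk fun n => (Nat.card (TranslClasses n) : ℝ)) = e) :
    ∀ i < r, c i = 0 := by
  set A : ℝ⟦X⟧ := PowerSeries.mk fun n => (Nat.card (TranslClasses n) : ℝ) with hA
  have h1 := congrArg (PowerSeries.map (algebraMap ℚ ℝ)) formal
  rw [map_mul, map_neg, show PowerSeries.map (algebraMap ℚ ℝ)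
    (PowerSeries.mk fun n => (Nat.card (TranslClasses n) : ℚ)) = A by ext n; simp [hA]] at h1
  have hD := rep_mR 1
  have hN := (rep_mR 0).neg
  have hM : Mer _ (mR 1) A ((fun x => -mR 0 x) / mR 1) :=
    ⟨1, _, by rw [pow_one, h1]; exact hN, fun x _ h0 => by simp [h0]⟩
  have hp := (zeros.and_eventually (Ioo_mem_nhdsLT (zero_lt_one' ℝ))).mono fun x hx =>
    poles hD hN h1 (by rw [abs_of_pos hx.2.1]; exact hx.2.2) hx.1.1 (neg_ne_zero.2 hx.1.2)
  generalize ((fun x => -mR 0 x) / mR 1) = f at hM hp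
  refine fun i hi => indep hD (G := fun i => deriv^[i] f) (fun i => ?_)
    (hp.mono fun x ⟨e, hm, m, m0, ho⟩ =>
      ⟨e, fun i => m - i, fun i j h => by simpa using h, by simpa using m0, fun i => ?_⟩)
    (fun i => (big hR (hc i)).1) (fun i => (big hR (hc i)).2)
    (eF := fun x => ∑' n, coeff n e * x ^ n) (fun x hx => (he x hx).hasSum) _ h i (mem_range.2 hi)
  · induction i with
    | zero => exact hM
    | succ i ih => simpa only [Function.iterate_succ_apply'] using ih.deriv hD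
  · induction i with
    | zero => exact ⟨hm, by simpa using ho⟩
    | succ i ih =>
      rw [Function.iterate_succ_apply']
      refine ⟨ih.1.deriv, (meromorphicOrderAt_deriv_eq_sub_one ?_ ih.2).trans ?_⟩
      · exact Int.cast_ne_zero.2 (show m - (i : ℤ) ≠ 0 by omega)
      · exact congrArg _ (by push_cast; ring)

end Pool.Agent.P.MP_8704cc_co
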