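import Mathlib

namespace Pool.Agent.P.MP_8704cc_co

open Finset PowerSeries Filter Topology

/-- `F` is the sum of the power series `f` on `(-1, 1)` -/
def Rep (f : ℝ⟦X⟧) (F : ℝ → ℝ) : Prop :=
  ∀ x : ℝ, |x| < 1 → HasSum (fun n => coeff n f * x ^ n) (F x)

namespace Rep

variable {f g : ℝ⟦X⟧} {F G : ℝ → ℝ}

theorem congr (h : Rep f F) (hF : ∀ x, |x| < 1 → F x = G x) : Rep f G :=
  fun x hx => hF x hx ▸ h x hx

theorem unique (h : Rep f F) (h' : Rep f G) {x : ℝ} (hx : |x| < 1) : F x = G x :=
  (h x hx).unique (h' x hx)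

theorem add (h : Rep f F) (h' : Rep g G) : Rep (f + g) fun x => F x + G x := fun x hx => by
  simpa only [map_add, add_mul] using (h x hx).add (h' x hx)

theorem neg (h : Rep f F) : Rep (-f) fun x => -F x := fun x hx => by
  simpa only [map_neg, neg_mul] using (h x hx).neg

theorem sub (h : Rep f F) (h' : Rep g G) : Rep (f - g) fun x => F x - G x := fun x hx => by
  simpa only [map_sub, sub_mul] using (h x hx).sub (h' x hx)

theorem mul (h : Rep f F) (h' : Rep g G) : Rep (f * g) fun x => F x * G x := fun x hx => by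
  have h1 := (h x hx).summable.norm
  have h2 := (h' x hx).summable.norm
  have h3 := (summable_norm_sum_mul_antidiagonal_of_summable_norm h1 h2).of_norm.hasSum
  rw [← tsum_mul_tsum_eq_tsum_sum_antidiagonal_of_summable_norm h1 h2, (h x hx).tsum_eq,
    (h' x hx).tsum_eq] at h3
  refine HasSum.congr_fun h3 fun n => ?_
  rw [coeff_mul, sum_mul]
  refine sum_congr rfl fun p hp => ?_
  rw [← mem_antidiagonal.1 hp]
  ring

theorem const (c : ℝ) : Rep (C c) fun _ => c := fun x _ => by
  have := hasSum_single (f := fun n => coeff n (C c : ℝ⟦X⟧) * x ^ n) 0 fun n hn => by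
    simp [coeff_C, hn]
  simpa using this

theorem one : Rep 1 fun _ => 1 := by simpa using const 1

theorem zero : Rep 0 fun _ => 0 := by simpa using const 0

theorem id : Rep X fun x => x := fun x _ => by
  have := hasSum_single (f := fun n => coeff n (X : ℝ⟦X⟧) * x ^ n) 1 fun n hn => by
    simp [coeff_X, hn]
  simpa using this

theorem pow (h : Rep f F) (k : ℕ) : Rep (f ^ k) fun x => F x ^ k := by
  induction k with
  | zero => simpa using one
  | succ k ih => simpa only [pow_succ] using ih.mul h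

theorem poly (p : Polynomial ℝ) : Rep p fun x => p.eval x := by
  induction p using Polynomial.induction_on' with
  | add p q hp hq => simpa using hp.add hq
  | monomial n a =>
    have := (const a).mul (id.pow n)
    simpa [← Polynomial.C_mul_X_pow_eq_monomial] using this

theorem hasFP (h : Rep f F) :
    HasFPowerSeriesOnBall F (FormalMultilinearSeries.ofScalars ℝ fun n => coeff n f) 0 1 := by
  refine ⟨?_, one_pos, fun {y} hy => ?_⟩
  · refine ENNReal.le_of_forall_nnreal_lt fun r hr => FormalMultilinearSeries.le_radius_of_summable _ ?_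
    have hr' : |(r : ℝ)| < 1 := by
      rw [NNReal.abs_eq]
      exact_mod_cast hr
    simpa [FormalMultilinearSeries.ofScalars_norm] using (h r hr').summable.norm
  · have hy' : |y| < 1 := by
      have := hy
      rw [← ENNReal.ofReal_one, Metric.eball_ofReal] at this
      simpa using this
    simpa [FormalMultilinearSeries.ofScalars_apply_eq, mul_comm] using h y hy'

theorem analyticAt (h : Rep f F) {x : ℝ} (hx : |x| < 1) : AnalyticAt ℝ F x := by
  refine h.hasFP.analyticAt_of_mem ?_
  rw [← ENNReal.ofReal_one, Metric.eball_ofReal]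
  simpa using hx

theorem deriv (h : Rep f F) : Rep (derivative ℝ f) (deriv F) := fun x hx => by
  have h1 := h.hasFP.fderiv.hasSum (y := x) (by
    rw [← ENNReal.ofReal_one, Metric.eball_ofReal]
    simpa using hx)
  have h2 := (ContinuousLinearMap.apply ℝ ℝ (1 : ℝ)).hasSum h1
  simp only [zero_add, ContinuousLinearMap.apply_apply, fderiv_apply_one_eq_deriv] at h2
  refine HasSum.congr_fun h2 fun n => ?_
  rw [FormalMultilinearSeries.apply_eq_pow_smul_coeff, smul_apply,
    FormalMultilinearSeries.derivSeries_coeff_one, coeff_derivative]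
  simp
  ring

end Rep

/-- pairs (series, its sum) form a ring -/
def RepRing : Subring (ℝ⟦X⟧ × (ℝ → ℝ)) where
  carrier := {p | Rep p.1 p.2}
  mul_mem' := Rep.mul
  one_mem' := Rep.one
  add_mem' := Rep.add
  zero_mem' := Rep.zero
  neg_mem' := Rep.neg

open scoped PowerSeries.WithPiTopology in
theorem Rep.series {f : ℕ → ℚ⟦X⟧} {F : ℕ → ℝ → ℝ} {s : ℚ} (hs : |s| = 1) {g : ℚ⟦X⟧}
    (h0 : ∀ k n, 0 ≤ coeff n (f k)) (h : ∀ k, Rep (map (algebraMap ℚ ℝ) (f k)) (F k))
    (hF : ∀ r, 0 ≤ r → r < 1 → Summable fun k => F k r) (hg : HasSum (fun k => C s ^ k * f k) g) :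
    Rep (map (algebraMap ℚ ℝ) g) fun x => ∑' k, (s : ℝ) ^ k * F k x := fun x hx => by
  have hx' : |(|x|)| < 1 := by rwa [abs_abs]
  have hs' : |(s : ℝ)| = 1 := by exact_mod_cast hs
  have c0 : ∀ k n, 0 ≤ coeff n (map (algebraMap ℚ ℝ) (f k)) := fun k n => by simpa using h0 k n
  have h1 : Summable fun p : ℕ × ℕ => coeff p.2 (map (algebraMap ℚ ℝ) (f p.1)) * |x| ^ p.2 := by
    refine (summable_prod_of_nonneg fun p => mul_nonneg (c0 _ _) (by positivity)).2
      ⟨fun k => (h k _ hx').summable, ?_⟩
    simpa only [fun k => (h k _ hx').tsum_eq] using hF _ (abs_nonneg x) hx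
  have h2 : Summable fun p : ℕ × ℕ =>
      (s : ℝ) ^ p.1 * (coeff p.2 (map (algebraMap ℚ ℝ) (f p.1)) * x ^ p.2) := by
    refine Summable.of_norm (h1.congr fun p => ?_)
    simp only [norm_mul, norm_pow, Real.norm_eq_abs, hs', one_pow, one_mul, abs_of_nonneg (c0 _ _)]
  have h3 := h2.hasSum.prod_fiberwise fun k => (h k x hx).mul_left ((s : ℝ) ^ k)
  simp only [h3.tsum_eq]
  refine ((Equiv.prodComm ℕ ℕ).hasSum_iff.2 h2.hasSum).prod_fiberwise fun n => ?_
  have h4 := (hg.map (coeff (R := ℚ) n) (PowerSeries.WithPiTopology.continuous_coeff ℚ n)).map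
    (Rat.castHom ℝ) Rat.continuous_coe_real
  refine HasSum.congr_fun (by simpa using h4.mul_right (x ^ n)) fun k => ?_
  simp [← map_pow, mul_assoc]

end Pool.Agent.P.MP_8704cc_co
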