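import Pool.Agent.P.MP_8704cc_co.NDForm
import Pool.Agent.P.MP_8704cc_co.NDRep

namespace Pool.Agent.P.MP_8704cc_co

open Finset PowerSeries Filter Topology
open scoped PowerSeries.WithPiTopology

/-- real value of `wgt` -/
noncomputable def wR (q : ℝ) : ℕ → ℝ
  | 0 => 1
  | k + 1 => wR q k * q ^ k * (1 - q ^ (k + 1))⁻¹ ^ 2

/-- real value of `lgd` -/
noncomputable def dR (q : ℝ) : ℕ → ℝ
  | 0 => 0
  | k + 1 => dR q k + 1 + 2 * (q ^ (k + 1) * (1 - q ^ (k + 1))⁻¹)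

/-- real value of `Js` -/
noncomputable def JR (s : ℝ) (m : ℕ) (q : ℝ) : ℝ := ∑' k, s ^ k * (wR q k * (q ^ k) ^ m)

/-- real value of `Ks` -/
noncomputable def KR (s : ℝ) (m : ℕ) (q : ℝ) : ℝ := ∑' k, s ^ k * (wR q k * (q ^ k) ^ m * dR q k)

/-- nonnegative coefficients -/
def Pos (f : ℚ⟦X⟧) : Prop := ∀ n, 0 ≤ coeff n f

theorem Pos.mul {f g : ℚ⟦X⟧} (h : Pos f) (h' : Pos g) : Pos (f * g) := fun n => by
  rw [coeff_mul]
  exact sum_nonneg fun p _ => mul_nonneg (h _) (h' _)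

theorem Pos.add {f g : ℚ⟦X⟧} (h : Pos f) (h' : Pos g) : Pos (f + g) := fun n => by
  rw [map_add]
  exact add_nonneg (h _) (h' _)

theorem Pos.xpow (k : ℕ) : Pos (X ^ k) := fun n => by
  rw [coeff_X_pow]
  split_ifs <;> norm_num

theorem Pos.one : Pos 1 := by simpa using Pos.xpow 0

theorem geoR (k : ℕ) : Pos (1 - X ^ (k + 1))⁻¹ ∧
    Rep (map (algebraMap ℚ ℝ) (1 - X ^ (k + 1))⁻¹) fun x => (1 - x ^ (k + 1))⁻¹ := by
  set g : ℚ⟦X⟧ := PowerSeries.mk fun n => if (k + 1) ∣ n then 1 else 0 with hg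
  have h1 : g * (1 - X ^ (k + 1)) = 1 := by
    ext n
    rw [mul_sub, mul_one, map_sub, coeff_mul_X_pow', coeff_one, hg]
    simp only [coeff_mk]
    by_cases h : k + 1 ≤ n
    · have : (k + 1 ∣ n - (k + 1)) ↔ (k + 1 ∣ n) := (Nat.dvd_sub_iff_left h dvd_rfl)
      rw [if_pos h, if_neg (show n ≠ 0 by omega)]
      simp only [this, sub_self]
    · rw [if_neg h]
      rcases Nat.eq_zero_or_pos n with rfl | hn
      · simp
      · rw [if_neg fun hd => h (Nat.le_of_dvd hn hd), if_neg hn.ne']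
        simp
  have h2 : (1 - X ^ (k + 1) : ℚ⟦X⟧)⁻¹ = g :=
    ((PowerSeries.eq_inv_iff_mul_eq_one (by simp)).2 h1).symm
  rw [h2]
  refine ⟨fun n => ?_, ?_⟩
  · rw [hg, coeff_mk]
    split_ifs <;> norm_num
  · have h3 : Rep (map (algebraMap ℚ ℝ) g) fun x => ∑' n, coeff n (map (algebraMap ℚ ℝ) g) * x ^ n :=
      fun x hx => Summable.hasSum <| by
        refine Summable.of_norm_bounded (summable_geometric_of_lt_one (abs_nonneg x) hx) fun n => ?_
        rw [hg, coeff_map, coeff_mk]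
        split_ifs <;> simp
    refine h3.congr fun x hx => ?_
    have h4 := h3.mul (Rep.one.sub (Rep.id.pow (k + 1)))
    have h5 : map (algebraMap ℚ ℝ) g * (1 - X ^ (k + 1)) = 1 := by
      simpa using congrArg (PowerSeries.map (algebraMap ℚ ℝ)) h1
    rw [h5] at h4
    exact eq_inv_of_mul_eq_one_left (h4.unique Rep.one hx)

theorem rep_wgt (k : ℕ) : Pos (wgt k) ∧ Rep (map (algebraMap ℚ ℝ) (wgt k)) fun x => wR x k := by
  induction k with
  | zero => exact ⟨wgt_zero ▸ Pos.one, by simpa [wgt_zero, wR] using Rep.one⟩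
  | succ k ih =>
    rw [wgt_succ]
    refine ⟨(ih.1.mul (Pos.xpow k)).mul (pow_two (1 - X ^ (k + 1) : ℚ⟦X⟧)⁻¹ ▸ (geoR k).1.mul (geoR k).1), ?_⟩
    simpa only [map_mul, map_pow, map_X, wR] using (ih.2.mul (Rep.id.pow k)).mul ((geoR k).2.pow 2)

theorem rep_lgd (k : ℕ) : Pos (lgd k) ∧ Rep (map (algebraMap ℚ ℝ) (lgd k)) fun x => dR x k := by
  induction k with
  | zero => exact ⟨fun n => by simp [lgd_zero], by simpa [lgd_zero, dR] using Rep.zero⟩
  | succ k ih =>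
    rw [lgd_succ, two_mul]
    have h1 := (Pos.xpow (k + 1)).mul (geoR k).1
    have h2 := (Rep.id.pow (k + 1)).mul (geoR k).2
    refine ⟨(ih.1.add Pos.one).add (h1.add h1), ?_⟩
    simpa only [map_mul, map_add, map_one, map_pow, map_X, dR, two_mul] using
      (ih.2.add Rep.one).add (h2.add h2)

variable {q s : ℝ}

theorem gbd (h0 : 0 ≤ q) (h1 : q < 1) (k : ℕ) :
    0 ≤ (1 - q ^ (k + 1))⁻¹ ∧ (1 - q ^ (k + 1))⁻¹ ≤ (1 - q)⁻¹ := by
  have : q ^ (k + 1) ≤ q := pow_le_of_le_one h0 h1.le (by omega)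
  exact ⟨inv_nonneg.2 (by linarith), inv_anti₀ (by linarith) (by linarith)⟩

theorem wR_nn (h0 : 0 ≤ q) (k : ℕ) : 0 ≤ wR q k := by
  induction k with
  | zero => simp [wR]
  | succ k ih => rw [wR]; positivity

theorem dR_bd (h0 : 0 ≤ q) (h1 : q < 1) (k : ℕ) :
    0 ≤ dR q k ∧ dR q k ≤ (1 + 2 * (1 - q)⁻¹) * (k + 1) := by
  have hi : 0 ≤ (1 - q)⁻¹ := inv_nonneg.2 (by linarith)
  induction k with
  | zero => simp [dR]; positivity
  | succ k ih =>
    have h2 := gbd h0 h1 k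
    have h3 : q ^ (k + 1) ≤ 1 := pow_le_one₀ h0 h1.le
    have h4 : 0 ≤ q ^ (k + 1) := by positivity
    rw [dR]
    push_cast
    constructor <;> nlinarith [mul_nonneg h4 h2.1, ih.1, ih.2, mul_le_of_le_one_left h2.1 h3, h2.2]

theorem sumW (h0 : 0 ≤ q) (h1 : q < 1) : Summable fun k => wR q k * (k + 1) := by
  refine summable_of_ratio_norm_eventually_le (r := 1 / 2) (by norm_num) ?_
  have := ((tendsto_pow_atTop_nhds_zero_of_lt_one h0 h1).mul_const ((1 - q)⁻¹ ^ 2)).eventually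
    (gt_mem_nhds (show 0 * (1 - q)⁻¹ ^ 2 < 1 / 4 by norm_num))
  filter_upwards [this] with k hk
  have h2 := gbd h0 h1 k
  have h3 := wR_nn h0 k
  have h4 : q ^ k * (1 - q ^ (k + 1))⁻¹ ^ 2 ≤ 1 / 4 :=
    (mul_le_mul_of_nonneg_left (pow_le_pow_left₀ h2.1 h2.2 2) (by positivity)).trans hk.le
  have h5 := wR_nn h0 (k + 1)
  rw [Real.norm_of_nonneg (by positivity), Real.norm_of_nonneg (by positivity), wR, mul_assoc (wR q k)]
  push_cast
  have h6 : (0 : ℝ) ≤ k := Nat.cast_nonneg k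
  nlinarith [mul_le_mul_of_nonneg_left h4 h3, mul_nonneg h3 h6,
    mul_le_mul_of_nonneg_left (mul_le_mul_of_nonneg_left h4 h3) h6]

theorem sumJ (h0 : 0 ≤ q) (h1 : q < 1) (m : ℕ) : Summable fun k => wR q k * (q ^ k) ^ m := by
  refine Summable.of_nonneg_of_le (fun k => mul_nonneg (wR_nn h0 k) (by positivity)) (fun k => ?_)
    (sumW h0 h1)
  refine mul_le_mul_of_nonneg_left ((pow_le_one₀ (by positivity) (pow_le_one₀ h0 h1.le)).trans ?_)
    (wR_nn h0 k)
  simp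

theorem sumK (h0 : 0 ≤ q) (h1 : q < 1) (m : ℕ) : Summable fun k => wR q k * (q ^ k) ^ m * dR q k := by
  refine Summable.of_nonneg_of_le
    (fun k => mul_nonneg (mul_nonneg (wR_nn h0 k) (by positivity)) (dR_bd h0 h1 k).1) (fun k => ?_)
    ((sumW h0 h1).mul_left (1 + 2 * (1 - q)⁻¹))
  have h2 : wR q k * (q ^ k) ^ m ≤ wR q k :=
    mul_le_of_le_one_right (wR_nn h0 k) (pow_le_one₀ (by positivity) (pow_le_one₀ h0 h1.le))
  have := mul_le_mul h2 (dR_bd h0 h1 k).2 (dR_bd h0 h1 k).1 (wR_nn h0 k)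
  linarith

theorem repJ {s : ℚ} (hs : |s| = 1) (m : ℕ) : Rep (map (algebraMap ℚ ℝ) (Js (C s) m)) (JR s m) := by
  refine Rep.series (f := fun k => wgt k * (X ^ k) ^ m) (F := fun k x => wR x k * (x ^ k) ^ m) hs
    (fun k => (rep_wgt k).1.mul (pow_mul (X : ℚ⟦X⟧) k m ▸ Pos.xpow _)) (fun k => ?_)
    (fun r h0 h1 => sumJ h0 h1 m) (HasSum.congr_fun (hJ (C s) m) fun k => by ring)
  simpa only [map_mul, map_pow, map_X] using (rep_wgt k).2.mul ((Rep.id.pow k).pow m)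

theorem repK {s : ℚ} (hs : |s| = 1) (m : ℕ) : Rep (map (algebraMap ℚ ℝ) (Ks (C s) m)) (KR s m) := by
  refine Rep.series (f := fun k => wgt k * (X ^ k) ^ m * lgd k)
    (F := fun k x => wR x k * (x ^ k) ^ m * dR x k) hs
    (fun k => ((rep_wgt k).1.mul (pow_mul (X : ℚ⟦X⟧) k m ▸ Pos.xpow _)).mul (rep_lgd k).1) (fun k => ?_)
    (fun r h0 h1 => sumK h0 h1 m) (HasSum.congr_fun (hK (C s) m) fun k => by ring)
  simpa only [map_mul, map_pow, map_X] using
    ((rep_wgt k).2.mul ((Rep.id.pow k).pow m)).mul (rep_lgd k).2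

theorem rep_c (s : ℚ) (m : ℕ) :
    Rep (map (algebraMap ℚ ℝ) (2 + C s * X ^ m)) fun x => 2 + (s : ℝ) * x ^ m := by
  have := (Rep.const 2).add ((Rep.const (s : ℝ)).mul (Rep.id.pow m))
  simpa [map_ofNat] using this

theorem recJR {s : ℚ} (hs : |s| = 1) (hq : |q| < 1) (m : ℕ) :
    JR s (m + 2) q = (2 + s * q ^ m) * JR s (m + 1) q - JR s m q := by
  have h := ((rep_c s m).mul (repJ hs (m + 1))).sub (repJ hs m)
  rw [← map_mul, ← map_sub, ← recJ] at h
  exact (repJ hs (m + 2)).unique h hq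

theorem recKR {s : ℚ} (hs : |s| = 1) (hq : |q| < 1) (m : ℕ) :
    KR s (m + 2) q = (2 + s * q ^ m) * KR s (m + 1) q - KR s m q + JR s m q - JR s (m + 2) q := by
  have h := ((((rep_c s m).mul (repK hs (m + 1))).sub (repK hs m)).add (repJ hs m)).sub (repJ hs (m + 2))
  rw [← map_mul, ← map_sub, ← map_add, ← map_sub, ← recK] at h
  exact (repK hs (m + 2)).unique h hq

theorem hsJ (hs : |s| = 1) (h0 : 0 ≤ q) (h1 : q < 1) (m : ℕ) :
    HasSum (fun k => s ^ k * (wR q k * (q ^ k) ^ m)) (JR s m q) :=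
  Summable.hasSum <| Summable.of_norm <| by
    simpa only [norm_mul (s ^ _), norm_pow s, Real.norm_eq_abs s, hs, one_pow, one_mul] using (sumJ h0 h1 m).norm

theorem hsK (hs : |s| = 1) (h0 : 0 ≤ q) (h1 : q < 1) (m : ℕ) :
    HasSum (fun k => s ^ k * (wR q k * (q ^ k) ^ m * dR q k)) (KR s m q) :=
  Summable.hasSum <| Summable.of_norm <| by
    simpa only [norm_mul (s ^ _), norm_pow s, Real.norm_eq_abs s, hs, one_pow, one_mul] using (sumK h0 h1 m).norm

theorem J_abs (hs : |s| = 1) (h0 : 0 ≤ q) (h1 : q < 1) (m : ℕ) : |JR s m q| ≤ JR 1 m q := by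
  refine (hsJ hs h0 h1 m).norm_le_of_bounded (hsJ abs_one h0 h1 m) fun k => le_of_eq ?_
  have := wR_nn h0 k
  rw [norm_mul, norm_pow, Real.norm_eq_abs, hs, Real.norm_of_nonneg (by positivity)]

theorem J_anti (h0 : 0 ≤ q) (h1 : q < 1) (m : ℕ) : JR 1 (m + 1) q ≤ JR 1 m q := by
  refine hasSum_le (fun k => ?_) (hsJ abs_one h0 h1 (m + 1)) (hsJ abs_one h0 h1 m)
  simp only [one_pow, one_mul]
  exact mul_le_mul_of_nonneg_left
    (pow_le_pow_of_le_one (by positivity) (pow_le_one₀ h0 h1.le) (by omega)) (wR_nn h0 k)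

theorem J_one (h0 : 0 ≤ q) (h1 : q < 1) (m : ℕ) : 1 ≤ JR 1 m q := by
  have := le_hasSum (hsJ abs_one h0 h1 m) 0 fun k _ => by
    have := wR_nn h0 k
    positivity
  simpa [wR] using this

theorem pw_le (h0 : 0 ≤ q) (h1 : q < 1) (m k : ℕ) : (q ^ (k + 1)) ^ m ≤ q ^ m :=
  pow_le_pow_left₀ (by positivity) (pow_le_of_le_one h0 h1.le (by omega)) m

theorem J_near (hs : |s| = 1) (h0 : 0 ≤ q) (h1 : q < 1) (m : ℕ) :
    |JR s m q - 1| ≤ q ^ m * JR 1 0 q := by
  refine ((hsJ hs h0 h1 m).sub (hasSum_ite_eq 0 (1 : ℝ))).norm_le_of_bounded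
    ((hsJ abs_one h0 h1 0).mul_left (q ^ m)) fun k => ?_
  have := wR_nn h0 k
  rcases k with _ | k
  · simp [wR]; positivity
  · rw [if_neg (by omega), sub_zero, norm_mul, norm_pow, Real.norm_eq_abs, hs,
      Real.norm_of_nonneg (by positivity)]
    simp only [one_pow, one_mul, pow_zero, mul_one]
    rw [mul_comm]
    exact mul_le_mul_of_nonneg_right (pw_le h0 h1 m k) this

theorem K_near (hs : |s| = 1) (h0 : 0 ≤ q) (h1 : q < 1) (m : ℕ) :
    |KR s m q| ≤ q ^ m * KR 1 0 q := by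
  refine (hsK hs h0 h1 m).norm_le_of_bounded ((hsK abs_one h0 h1 0).mul_left (q ^ m)) fun k => ?_
  have := wR_nn h0 k
  have h2 := (dR_bd h0 h1 k).1
  rcases k with _ | k
  · simp [dR]
  · rw [norm_mul, norm_pow, Real.norm_eq_abs, hs, Real.norm_of_nonneg (by positivity)]
    simp only [one_pow, one_mul, pow_zero, mul_one]
    have := mul_le_mul_of_nonneg_left (pw_le h0 h1 m k) (mul_nonneg this h2)
    linarith

theorem wron {s : ℚ} (hs : |s| = 1) (h0 : 0 ≤ q) (h1 : q < 1) :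
    JR s 0 q * KR s 1 q - JR s 1 q * KR s 0 q + JR s 0 q * JR s 1 q = 1 := by
  have hq : |q| < 1 := by rwa [abs_of_nonneg h0]
  have hs' : |(s : ℝ)| = 1 := by exact_mod_cast hs
  have hW : ∀ m, JR s m q * KR s (m + 1) q - JR s (m + 1) q * KR s m q + JR s m q * JR s (m + 1) q =
      JR s 0 q * KR s 1 q - JR s 1 q * KR s 0 q + JR s 0 q * JR s 1 q := fun m => by
    induction m with
    | zero => rfl
    | succ m ih =>
      rw [← ih, recKR hs hq m, recJR hs hq m]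
      ring
  have hp := tendsto_pow_atTop_nhds_zero_of_lt_one h0 h1
  have tJ : Tendsto (fun m => JR s m q) atTop (𝓝 1) := by
    rw [tendsto_iff_norm_sub_tendsto_zero]
    exact squeeze_zero (fun _ => norm_nonneg _) (J_near hs' h0 h1) (by simpa using hp.mul_const _)
  have tK : Tendsto (fun m => KR s m q) atTop (𝓝 0) :=
    squeeze_zero_norm (K_near hs' h0 h1) (by simpa using hp.mul_const _)
  have tJ' := (tendsto_add_atTop_iff_nat 1).2 tJ
  have tK' := (tendsto_add_atTop_iff_nat 1).2 tK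
  have := ((tJ.mul tK').sub (tJ'.mul tK)).add (tJ.mul tJ')
  simp only [hW] at this
  simpa using tendsto_nhds_unique tendsto_const_nhds this

end Pool.Agent.P.MP_8704cc_co
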