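import Mathlib

namespace Pool.Agent.P.MP_8704cc_co

open Finset Filter Topology

open Classical in
/-- number of sign changes among `f 0, …, f M` -/
noncomputable def chg (f : ℕ → ℝ) (M : ℕ) : ℕ :=
  ∑ n ∈ range M, if (0 ≤ f n ↔ 0 ≤ f (n + 1)) then 0 else 1

theorem sign_loc {g : ℝ → ℝ} {x : ℝ} (hc : ContinuousAt g x) (h : g x ≠ 0) :
    ∀ᶠ y in 𝓝 x, (0 ≤ g y ↔ 0 ≤ g x) := by
  rcases h.lt_or_gt with h | h
  · filter_upwards [hc.eventually (gt_mem_nhds h)] with y hy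
    exact iff_of_false hy.not_ge h.not_ge
  · filter_upwards [hc.eventually (lt_mem_nhds h)] with y hy
    exact iff_of_true hy.le h.le

theorem chg_loc {f : ℕ → ℝ → ℝ} {x : ℝ} (hc : ∀ n, ContinuousAt (f n) x) (h0 : f 0 x ≠ 0)
    (hs : ∀ n, f (n + 1) x = 0 → f n x * f (n + 2) x < 0) (M : ℕ) (hM : f M x ≠ 0) :
    ∀ᶠ y in 𝓝 x, chg (f · y) M = chg (f · x) M := by
  induction M using Nat.strong_induction_on with
  | _ M ih =>
    rcases M with _ | m
    · simp [chg]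
    by_cases hm : f m x = 0
    · rcases m with _ | j
      · exact absurd hm h0
      have h1 := hs j hm
      have hj : f j x ≠ 0 := fun h => by simp [h] at h1
      have h2 : 0 ≤ f j x ↔ ¬ 0 ≤ f (j + 1 + 1) x := by
        rcases mul_neg_iff.1 h1 with h | h
        · exact iff_of_true h.1.le h.2.not_ge
        · exact iff_of_false h.1.not_ge (not_not.2 h.2.le)
      filter_upwards [ih j (by omega) hj, sign_loc (hc j) hj, sign_loc (hc _) hM] with y e1 e2 e3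
      simp only [chg, sum_range_succ] at e1 ⊢
      simp only [e1, e2, e3, h2]
      by_cases a : 0 ≤ f (j + 1 + 1) x <;> by_cases b : 0 ≤ f (j + 1) x <;>
        by_cases c : 0 ≤ f (j + 1) y <;> simp [a, b, c]
    · filter_upwards [ih m (by omega) hm, sign_loc (hc m) hm, sign_loc (hc _) hM] with y e1 e2 e3
      simp only [chg, sum_range_succ] at e1 ⊢
      simp only [e1, e2, e3]

theorem chg_const {f : ℕ → ℝ → ℝ} {a b : ℝ} (hab : a ≤ b)
    (hc : ∀ x ∈ Set.Icc a b, ∀ n, ContinuousAt (f n) x) (h0 : ∀ x ∈ Set.Icc a b, f 0 x ≠ 0)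
    (hs : ∀ x ∈ Set.Icc a b, ∀ n, f (n + 1) x = 0 → f n x * f (n + 2) x < 0) (M : ℕ)
    (hM : ∀ x ∈ Set.Icc a b, f M x ≠ 0) : chg (f · a) M = chg (f · b) M := by
  refine isPreconnected_Icc.constant (f := fun y => chg (f · y) M) (fun x hx => ?_)
    (Set.left_mem_Icc.2 hab) (Set.right_mem_Icc.2 hab)
  exact (continuousAt_const.congr
    (EventuallyEq.symm (chg_loc (hc x hx) (h0 x hx) (hs x hx) M (hM x hx)))).continuousWithinAt

theorem chg_le {f : ℕ → ℝ} {M0 : ℕ} (h : ∀ n, M0 ≤ n → 0 < f n) (M : ℕ) :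
    chg f M ≤ M ∧ chg f M ≤ M0 := by
  induction M with
  | zero => simp [chg]
  | succ M ih =>
    simp only [chg, sum_range_succ] at ih ⊢
    split_ifs with h1
    · omega
    · have : ¬ M0 ≤ M := fun h2 => h1 (iff_of_true (h M h2).le (h _ (by omega)).le)
      omega

theorem window {p0 p1 p2 p3 p4 c0 c1 c2 : ℝ} (h0 : c0 ≤ 5 / 4) (h1 : c1 ≤ 5 / 4) (h2 : c2 ≤ 5 / 4)
    (e0 : p2 = c0 * p1 - p0) (e1 : p3 = c1 * p2 - p1) (e2 : p4 = c2 * p3 - p2)
    (hn : ¬ (p1 = 0 ∧ p2 = 0)) :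
    ¬ ((0 ≤ p0 ↔ 0 ≤ p1) ∧ (0 ≤ p1 ↔ 0 ≤ p2) ∧ (0 ≤ p2 ↔ 0 ≤ p3) ∧ (0 ≤ p3 ↔ 0 ≤ p4)) := by
  rintro ⟨a, b, c, d⟩
  by_cases h : 0 ≤ p0
  · have a1 := a.1 h
    have a2 := b.1 a1
    have a3 := c.1 a2
    have a4 := d.1 a3
    have b1 := mul_le_mul_of_nonneg_right h0 a1
    have b2 := mul_le_mul_of_nonneg_right h1 a2
    have b3 := mul_le_mul_of_nonneg_right h2 a3
    exact hn ⟨by linarith, by linarith⟩
  · have a1 := not_le.1 (mt a.2 h)
    have a2 := not_le.1 (mt b.2 a1.not_ge)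
    have a3 := not_le.1 (mt c.2 a2.not_ge)
    have a4 := not_le.1 (mt d.2 a3.not_ge)
    have b1 := mul_le_mul_of_nonpos_right h0 a1.le
    have b2 := mul_le_mul_of_nonpos_right h1 a2.le
    have b3 := mul_le_mul_of_nonpos_right h2 a3.le
    linarith [not_le.1 h]

theorem chg_ge {f c : ℕ → ℝ} (hr : ∀ n, f (n + 3) = c n * f (n + 2) - f (n + 1))
    (hn : ∀ n, ¬ (f (n + 1) = 0 ∧ f (n + 2) = 0)) (Z : ℕ) (hc : ∀ n ≤ 4 * Z, c n ≤ 5 / 4) {M : ℕ}
    (hM : 4 * Z + 1 ≤ M) : Z ≤ chg f M := by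
  have key : Z ≤ chg f (4 * Z + 1) := by
    clear hM
    induction Z with
    | zero => omega
    | succ Z ih =>
      have h1 := ih fun n hn => hc n (by omega)
      have h2 := window (hc (4 * Z) (by omega)) (hc (4 * Z + 1) (by omega)) (hc (4 * Z + 2) (by omega))
        (hr _) (hr _) (hr _) (hn (4 * Z + 1))
      rw [show 4 * (Z + 1) + 1 = 4 * Z + 1 + 1 + 1 + 1 + 1 by ring]
      simp only [chg] at h1 ⊢
      rw [sum_range_succ, sum_range_succ, sum_range_succ, sum_range_succ]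
      split_ifs with a b c d
      · exact absurd ⟨a, b, c, d⟩ h2
      all_goals omega
  exact key.trans (sum_le_sum_of_subset (range_subset_range.2 hM))

end Pool.Agent.P.MP_8704cc_co
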