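import Pool.Agent.P.MP_8704cc_co.NDReal
import Pool.Agent.P.MP_8704cc_co.NDSturm
import Pool.Agent.P.MP_8704cc_co.NDAlg

namespace Pool.Agent.P.MP_8704cc_co

open PowerSeries Filter Topology

variable {q : ℝ}

theorem rJp (hq : |q| < 1) (m : ℕ) : JR 1 (m + 2) q = (2 + q ^ m) * JR 1 (m + 1) q - JR 1 m q := by
  simpa using recJR (s := 1) abs_one hq m

theorem rJm (hq : |q| < 1) (m : ℕ) :
    JR (-1) (m + 2) q = (2 - q ^ m) * JR (-1) (m + 1) q - JR (-1) m q := by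
  simpa [sub_eq_add_neg] using recJR (s := -1) (by simp) hq m

theorem rKm (hq : |q| < 1) (m : ℕ) : KR (-1) (m + 2) q =
    (2 - q ^ m) * KR (-1) (m + 1) q - KR (-1) m q + JR (-1) m q - JR (-1) (m + 2) q := by
  simpa [sub_eq_add_neg] using recKR (s := -1) (by simp) hq m

theorem J_step (h0 : 0 ≤ q) (h1 : q < 1) (n : ℕ) : (1 + q ^ n) * JR 1 (n + 1) q ≤ JR 1 n q := by
  have := rJp (by rwa [abs_of_nonneg h0]) n
  linarith [J_anti h0 h1 (n + 1)]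

theorem J_grow (h0 : 0 ≤ q) (h1 : q < 1) {n : ℕ} (h : 3 / 4 ≤ q ^ (n + 1)) :
    13 / 6 * JR 1 (n + 1) q ≤ JR 1 n q := by
  have a1 := rJp (by rwa [abs_of_nonneg h0]) n
  have a2 := J_step h0 h1 (n + 1)
  have a3 : q ^ (n + 1) ≤ q ^ n := pow_le_pow_of_le_one h0 h1.le (by omega)
  have a4 := J_one h0 h1 (n + 1)
  have a5 := J_one h0 h1 (n + 1 + 1)
  nlinarith

theorem J_ratio (h0 : 9 / 10 ≤ q) (h1 : q < 1) : JR 1 1 q ≤ 39 / 100 * JR 1 0 q := by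
  have q0 : 0 ≤ q := by linarith
  have hq : |q| < 1 := by rwa [abs_of_nonneg q0]
  have a1 := rJp hq 0
  have a2 := rJp hq 1
  have a3 := J_step q0 h1 2
  have a4 := J_one q0 h1 2
  have a5 := J_one q0 h1 3
  have a6 : 81 / 100 ≤ q ^ 2 := by nlinarith
  simp only [pow_zero, pow_one, zero_add, Nat.reduceAdd] at a1 a2 a3
  nlinarith

theorem J_sep (h0 : 0 ≤ q) (h1 : q < 1) {L : ℕ} (h : 3 / 4 ≤ q ^ L) :
    |JR (-1) 0 q| + |JR (-1) 1 q| ≤ 3 * (12 / 13) ^ L * JR 1 0 q := by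
  have hq : |q| < 1 := by rwa [abs_of_nonneg h0]
  have key : ∀ n ≤ L, (|JR (-1) 0 q| + |JR (-1) 1 q| / 2) * JR 1 n q ≤
      (12 / 13) ^ n * (|JR (-1) n q| + |JR (-1) (n + 1) q| / 2) * JR 1 0 q := fun n hn => by
    induction n with
    | zero => simp
    | succ n ih =>
      have a1 := ih (by omega)
      have a2 : 3 / 4 ≤ q ^ (n + 1) := h.trans (pow_le_pow_of_le_one h0 h1.le hn)
      have a3 := J_grow h0 h1 a2
      have a4 : q ^ (n + 1) ≤ q ^ n := pow_le_pow_of_le_one h0 h1.le (by omega)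
      have a5 : q ^ n ≤ 1 := pow_le_one₀ h0 h1.le
      have a6 : |JR (-1) n q| ≤ 3 / 2 * |JR (-1) (n + 1) q| + |JR (-1) (n + 2) q| := by
        have e : JR (-1) n q = (2 - q ^ n) * JR (-1) (n + 1) q - JR (-1) (n + 2) q := by
          linarith [rJm hq n]
        rw [e]
        refine (abs_sub _ _).trans (add_le_add_left ?_ _)
        rw [abs_mul, abs_of_nonneg (by linarith)]
        exact mul_le_mul_of_nonneg_right (by linarith) (abs_nonneg _)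
      have a7 : 0 ≤ |JR (-1) 0 q| + |JR (-1) 1 q| / 2 := by positivity
      have a8 : 0 ≤ (12 / 13 : ℝ) ^ n * JR 1 0 q := mul_nonneg (by positivity) (by linarith [J_one h0 h1 0])
      have a9 := mul_le_mul_of_nonneg_left a3 a7
      have a10 := mul_le_mul_of_nonneg_left a6 a8
      rw [pow_succ]
      linarith
  have b1 := key L le_rfl
  have b2 := J_abs (s := -1) (by simp) h0 h1 L
  have b3 := (J_abs (s := -1) (by simp) h0 h1 (L + 1)).trans (J_anti h0 h1 L)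
  have b4 : 0 ≤ (12 / 13 : ℝ) ^ L * JR 1 0 q := mul_nonneg (by positivity) (by linarith [J_one h0 h1 0])
  have b5 := mul_le_mul_of_nonneg_left b2 b4
  have b6 := mul_le_mul_of_nonneg_left b3 b4
  have b7 : (|JR (-1) 0 q| + |JR (-1) 1 q| / 2) * JR 1 L q ≤
      (3 / 2 * (12 / 13) ^ L * JR 1 0 q) * JR 1 L q := by linarith
  have b8 := le_of_mul_le_mul_right b7 (by linarith [J_one h0 h1 L])
  linarith [abs_nonneg (JR (-1) 0 q)]

theorem small {η : ℝ} (hη : 0 < η) : ∀ᶠ q in 𝓝[<] (1 : ℝ),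
    |JR (-1) 0 q| + |JR (-1) 1 q| ≤ η * (1 - q) ^ 2 * JR 1 0 q := by
  have h1 : Tendsto (fun n : ℕ => 52 * (((n + 1 : ℕ) : ℝ) ^ 2 * (12 / 13 : ℝ) ^ (n + 1))) atTop (𝓝 (52 * 0)) :=
    ((tendsto_add_atTop_iff_nat 1).2 (tendsto_pow_const_mul_const_pow_of_abs_lt_one 2
      (r := 12 / 13) (by rw [abs_of_nonneg] <;> norm_num))).const_mul 52
  obtain ⟨L0, hL⟩ := eventually_atTop.1 (h1.eventually (gt_mem_nhds (by simpa using hη)))
  have h2 : (1 : ℝ) - 1 / (4 * (L0 + 1)) < 1 := sub_lt_self _ (by positivity)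
  filter_upwards [Ioo_mem_nhdsLT h2, Ioo_mem_nhdsLT (zero_lt_one' ℝ)] with q hq q01
  have e0 : 0 < 1 - q := by linarith [hq.2]
  have e1 : 1 - q < 1 / (4 * (L0 + 1)) := by linarith [hq.1]
  rw [lt_div_iff₀ (by positivity)] at e1
  set L := ⌊1 / (4 * (1 - q))⌋₊
  have l1 : L0 ≤ L := Nat.le_floor (by rw [le_div_iff₀ (by positivity)]; nlinarith)
  have l2 : (L : ℝ) ≤ 1 / (4 * (1 - q)) := Nat.floor_le (by positivity)
  have l3 : 1 / (4 * (1 - q)) < L + 1 := Nat.lt_floor_add_one _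
  rw [le_div_iff₀ (by positivity)] at l2
  rw [div_lt_iff₀ (by positivity)] at l3
  have l4 := one_add_mul_le_pow (show -2 ≤ q - 1 by linarith [q01.1]) L
  rw [add_sub_cancel] at l4
  refine (J_sep q01.1.le q01.2 (L := L) (by linarith)).trans
    (mul_le_mul_of_nonneg_right ?_ (by linarith [J_one q01.1.le q01.2 0]))
  have l5 := hL L l1
  have l6 : 1 ≤ ((L + 1) * (4 * (1 - q))) ^ 2 := one_le_pow₀ l3.le
  have l7 : (0 : ℝ) ≤ (12 / 13) ^ L := by positivity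
  push_cast at l5
  rw [pow_succ (12 / 13 : ℝ)] at l5
  nlinarith [mul_le_mul_of_nonneg_left l6 l7, mul_le_mul_of_nonneg_right l5.le (sq_nonneg (1 - q))]

/-- the oscillating solution -/
noncomputable def PP (n : ℕ) (q : ℝ) : ℝ :=
  JR 1 0 q * KR (-1) n q + (n * JR 1 0 q - KR 1 0 q) * JR (-1) n q

theorem PP_rec (hq : |q| < 1) (n : ℕ) : PP (n + 2) q = (2 - q ^ n) * PP (n + 1) q - PP n q := by
  simp only [PP]
  rw [rKm hq, rJm hq]
  push_cast
  ring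

theorem wm (h0 : 0 ≤ q) (h1 : q < 1) :
    JR (-1) 0 q * KR (-1) 1 q - JR (-1) 1 q * KR (-1) 0 q + JR (-1) 0 q * JR (-1) 1 q = 1 := by
  simpa using wron (s := -1) (by simp) h0 h1

theorem PP_ne (h0 : 0 ≤ q) (h1 : q < 1) (n : ℕ) : ¬ (PP n q = 0 ∧ PP (n + 1) q = 0) := by
  induction n with
  | zero =>
    rintro ⟨a, b⟩
    have : JR (-1) 0 q * PP (0 + 1) q - JR (-1) 1 q * PP 0 q = JR 1 0 q := by
      simp only [PP]
      push_cast
      linear_combination JR 1 0 q * wm h0 h1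
    rw [a, b] at this
    linarith [J_one h0 h1 0]
  | succ n ih =>
    rintro ⟨a, b⟩
    have := PP_rec (by rwa [abs_of_nonneg h0]) n
    rw [a, b] at this
    exact ih ⟨by linarith, a⟩

theorem rJ1 (m : ℕ) : Rep (map (algebraMap ℚ ℝ) (Js 1 m)) (JR 1 m) := by simpa using repJ (s := 1) abs_one m
theorem rK1 (m : ℕ) : Rep (map (algebraMap ℚ ℝ) (Ks 1 m)) (KR 1 m) := by simpa using repK (s := 1) abs_one m
theorem rJ2 (m : ℕ) : Rep (map (algebraMap ℚ ℝ) (Js (-1) m)) (JR (-1) m) := by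
  simpa using repJ (s := -1) (by simp) m
theorem rK2 (m : ℕ) : Rep (map (algebraMap ℚ ℝ) (Ks (-1) m)) (KR (-1) m) := by
  simpa using repK (s := -1) (by simp) m

theorem PP_cont (hq : |q| < 1) (n : ℕ) : ContinuousAt (PP n) q :=
  (((rJ1 0).analyticAt hq).continuousAt.mul ((rK2 n).analyticAt hq).continuousAt).add
    (((continuousAt_const.mul ((rJ1 0).analyticAt hq).continuousAt).sub
      ((rK1 0).analyticAt hq).continuousAt).mul ((rJ2 n).analyticAt hq).continuousAt)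

theorem PP_pos {b : ℝ} (b0 : 0 ≤ b) (hb : b < 1) : ∀ᶠ n in atTop, ∀ q ∈ Set.Icc 0 b, 0 < PP n q := by
  have hI : ∀ q ∈ Set.Icc 0 b, |q| < 1 := fun q hq => by rw [abs_of_nonneg hq.1]; linarith [hq.2]
  obtain ⟨M, hM⟩ := (isCompact_Icc (a := 0) (b := b)).exists_bound_of_continuousOn
    (f := fun q => (JR 1 0 q, KR 1 0 q)) fun q hq =>
      (((rJ1 0).analyticAt (hI q hq)).continuousAt.prodMk
        ((rK1 0).analyticAt (hI q hq)).continuousAt).continuousWithinAt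
  have t1 := ((tendsto_pow_atTop_nhds_zero_of_lt_one b0 hb).mul_const M).eventually
    (gt_mem_nhds (show 0 * M < 1 / 2 by norm_num))
  filter_upwards [t1, tendsto_natCast_atTop_atTop.eventually_ge_atTop (M + 2)] with n h1 h2 q hq
  have q1 : q < 1 := by linarith [hq.2]
  have h3 := hM q hq
  simp only [Prod.norm_def, Real.norm_eq_abs, max_le_iff, abs_le] at h3
  have h4 := J_one hq.1 q1 0
  have h5 : q ^ n ≤ b ^ n := pow_le_pow_left₀ hq.1 hq.2 n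
  have h6 : 0 ≤ q ^ n := pow_nonneg hq.1 n
  have h7 := (abs_le.1 (J_near (s := -1) (by simp) hq.1 q1 n)).1
  have h8 := (abs_le.1 (K_near (s := -1) (by simp) hq.1 q1 n)).1
  have h9 : q ^ n * M ≤ b ^ n * M := mul_le_mul_of_nonneg_right h5 (by linarith [h3.1.2])
  have j1 : 1 / 2 ≤ JR (-1) n q := by nlinarith [h3.1.2]
  have k1 : -(1 / 2) ≤ KR (-1) n q := by nlinarith [h3.2.2]
  have c1 : JR 1 0 q + 1 ≤ n * JR 1 0 q - KR 1 0 q := by nlinarith [h3.2.2, h3.1.2]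
  unfold PP
  nlinarith

/-- the minors as functions -/
noncomputable def mR (j : Fin 4) (q : ℝ) : ℝ := mnr j (TT q (JR 1 0 q) (JR 1 1 q) (KR 1 0 q) (KR 1 1 q)
  (JR (-1) 0 q) (JR (-1) 1 q) (KR (-1) 0 q) (KR (-1) 1 q))

theorem rep_mR (j : Fin 4) : Rep (map (algebraMap ℚ ℝ) (mnr j (TT X (Js 1 0) (Js 1 1) (Ks 1 0) (Ks 1 1)
    (Js (-1) 0) (Js (-1) 1) (Ks (-1) 0) (Ks (-1) 1)))) (mR j) := by
  set z : RepRing := mnr j (TT ⟨(X, fun x => x), Rep.id⟩ ⟨(_, _), rJ1 0⟩ ⟨(_, _), rJ1 1⟩ ⟨(_, _), rK1 0⟩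
    ⟨(_, _), rK1 1⟩ ⟨(_, _), rJ2 0⟩ ⟨(_, _), rJ2 1⟩ ⟨(_, _), rK2 0⟩ ⟨(_, _), rK2 1⟩) with hz
  have h1 := congrArg ((RingHom.fst _ _).comp RepRing.subtype) hz
  have h2 := fun x => congrArg ((Pi.evalRingHom _ x).comp ((RingHom.snd _ _).comp RepRing.subtype)) hz
  simp only [mnr_map] at h1 h2
  rw [mnr_map, map_X]
  have h3 : Rep z.1.1 z.1.2 := z.2
  exact (show z.1.1 = _ from h1) ▸ h3.congr fun x _ => h2 x

theorem near_one : ∀ᶠ q in 𝓝[<] (1 : ℝ),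
    (PP 0 q = 0 → 0 < mR 1 q * PP 1 q) ∧ (mR 1 q = 0 → mR 0 q ≠ 0) := by
  obtain ⟨η, hη, hk⟩ := key
  filter_upwards [hk, small hη, Ioo_mem_nhdsLT (show (9 / 10 : ℝ) < 1 by norm_num)] with q h1 h2 hq
  have q0 : 0 < q := by linarith [hq.1]
  have a1 := J_one q0.le hq.2 0
  have a0 : 0 < JR 1 0 q := by linarith
  have w1 : JR 1 0 q * KR 1 1 q - JR 1 1 q * KR 1 0 q + JR 1 0 q * JR 1 1 q = 1 := by
    simpa using wron (s := 1) abs_one q0.le hq.2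
  have w2 := wm q0.le hq.2
  have a2 := J_ratio hq.1.le hq.2
  have a3 := J_one q0.le hq.2 1
  simp only [mR, PP, Nat.cast_zero, Nat.cast_one, zero_mul, zero_sub, one_mul, neg_mul, ← sub_eq_add_neg]
  obtain ⟨r, hr⟩ : ∃ r, JR 1 1 q = JR 1 0 q * r := ⟨_, (mul_div_cancel₀ _ a0.ne').symm⟩
  obtain ⟨x, hx⟩ : ∃ r, JR (-1) 0 q = JR 1 0 q * r := ⟨_, (mul_div_cancel₀ _ a0.ne').symm⟩
  obtain ⟨y, hy⟩ : ∃ r, JR (-1) 1 q = JR 1 0 q * r := ⟨_, (mul_div_cancel₀ _ a0.ne').symm⟩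
  rw [hr] at w1 a2 a3
  rw [hx, hy] at w2 h2
  rw [hr, hx, hy, algD w1 w2, algN w1 w2]
  generalize JR 1 0 q = a at *
  rw [abs_mul, abs_mul, abs_of_pos a0] at h2
  obtain ⟨k1, k2⟩ := h1 r ⟨by nlinarith, by nlinarith⟩ x y _ _ (by nlinarith)
    (show x * (a * KR (-1) 1 q + (a - KR 1 0 q) * (a * y)) - y * (a * KR (-1) 0 q - KR 1 0 q * (a * x)) = 1 by
      linear_combination w2)
  have p2 : 0 < 4 * q ^ 2 * a := by positivity
  have p3 : 0 < 4 * q ^ 3 * a := by positivity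
  refine ⟨fun h => ?_, fun h => mul_ne_zero p3.ne' (k2 ((mul_eq_zero.1 h).resolve_left p2.ne'))⟩
  rw [mul_assoc]
  exact mul_pos p2 (k1 h)

theorem zeros : ∃ᶠ q in 𝓝[<] (1 : ℝ), mR 1 q = 0 ∧ mR 0 q ≠ 0 := by
  intro hc
  obtain ⟨a, ha, hI⟩ := mem_nhdsLT_iff_exists_Ioo_subset.1
    ((hc.and near_one).and (Ioo_mem_nhdsLT (zero_lt_one' ℝ)))
  obtain ⟨x, hx⟩ : (Set.Ioo a 1).Nonempty := Set.nonempty_Ioo.2 ha
  have x01 := (hI hx).2
  obtain ⟨M0, hM0⟩ := eventually_atTop.1 (PP_pos x01.1.le x01.2)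
  have t : ∀ᶠ q in 𝓝[<] (1 : ℝ), 3 / 4 < q ^ (4 * (M0 + 2)) :=
    (((continuous_pow (4 * (M0 + 2))).tendsto 1).eventually (lt_mem_nhds (by norm_num))).filter_mono
      nhdsWithin_le_nhds
  obtain ⟨y, y1, y2⟩ := (t.and (Ioo_mem_nhdsLT hx.2)).exists
  have y0 : 0 ≤ y := by linarith [x01.1, y2.1]
  obtain ⟨M, m1, m2⟩ := ((PP_pos y0 y2.2).and (eventually_ge_atTop (4 * (M0 + 2)))).exists
  have sub : ∀ q ∈ Set.Icc x y, q ∈ Set.Ioo a 1 := fun q hq => ⟨by linarith [hq.1, hx.1], by linarith [hq.2, y2.2]⟩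
  have ab : ∀ q ∈ Set.Icc x y, |q| < 1 := fun q hq => by
    rw [abs_of_pos (hI (sub q hq)).2.1]; exact (sub q hq).2
  let f : ℕ → ℝ → ℝ := fun n => Nat.casesOn n (fun q => -mR 1 q) PP
  have h1 := chg_const (f := f) y2.1.le (fun q hq n => by
      rcases n with _ | n
      · exact ((rep_mR 1).analyticAt (ab q hq)).continuousAt.neg
      · exact PP_cont (ab q hq) n)
    (fun q hq h => (hI (sub q hq)).1.1 ⟨neg_eq_zero.1 h, (hI (sub q hq)).1.2.2 (neg_eq_zero.1 h)⟩)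
    (fun q hq n h => by
      rcases n with _ | n
      · have := (hI (sub q hq)).1.2.1 h
        show -mR 1 q * PP 1 q < 0
        linarith
      · have h' : PP (n + 1) q = 0 := h
        have h2 := PP_rec (ab q hq) n
        have h3 : PP n q ≠ 0 := fun h3 => PP_ne (hI (sub q hq)).2.1.le (sub q hq).2 n ⟨h3, h'⟩
        show PP n q * PP (n + 2) q < 0
        rw [h2, h']
        nlinarith [sq_pos_of_ne_zero h3])
    (M + 1) fun q hq => (m1 q ⟨by linarith [hq.1, x01.1], hq.2⟩).ne'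
  have h2 := (chg_le (f := (f · x)) (M0 := M0 + 1) (fun n hn => by
    obtain ⟨n, rfl⟩ : ∃ k, n = k + 1 := ⟨n - 1, by omega⟩
    exact hM0 n (by omega) x ⟨x01.1.le, le_rfl⟩) (M + 1)).2
  have h3 := chg_ge (f := (f · y)) (c := fun n => 2 - y ^ n)
    (fun n => PP_rec (by rw [abs_of_nonneg y0]; exact y2.2) n) (fun n => PP_ne y0 y2.2 n) (M0 + 2)
    (fun n hn => by linarith [pow_le_pow_of_le_one y0 y2.2.le hn]) (M := M + 1) (by omega)
  omega

end Pool.Agent.P.MP_8704cc_co
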