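import Pool.Agent.P.MP_8704cc_co.Eqs
import Pool.Agent.P.MP_8704cc_co.Defs

namespace Pool.Agent.P.MP_8704cc_co

open Code Finset PowerSeries
open scoped PowerSeries.WithPiTopology

section Generic
variable {B : Type} [CommRing B] [TopologicalSpace B] [IsTopologicalRing B] [T3Space B]

/-- gauge transformed series -/
noncomputable def Px (q t : B) : B := L q (kx t) + t * (1 - t)
/-- gauge transformed series -/
noncomputable def Py (q t : B) : B := L q (ky t) + 2 * t * (1 - t)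
/-- gauge transformed series -/
noncomputable def Pz (q t : B) : B := L q (kz t) + (1 - t)

theorem Px_eq {q : B} (hq : Good q) (t : B) :
    Px q t = t * (q + al q) + t * (1 - t) * (1 + q + be q) + t * geo q t * (q * la' q) +
      q ^ 2 * t * geo q t ^ 2 * Pz q (q * t) := by
  unfold Px Pz
  linear_combination eq_x hq t - q ^ 2 * t * geo q t * geo_mul hq t

theorem Py_eq {q : B} (hq : Good q) (t : B) :
    Py q t = 2 * t * (1 - t) + 2 * t * (q + al q) + t ^ 2 * geo q t * (q * la' q) +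
      q * t * geo q t ^ 2 * Py q (q * t) := by
  unfold Py
  linear_combination eq_y hq t - 2 * q ^ 2 * t ^ 2 * geo q t * geo_mul hq t

theorem Pz_eq {q : B} (hq : Good q) (t : B) :
    Pz q t = (1 - t) + t * geo q t ^ 2 * Px q (q * t) := by
  unfold Px Pz
  linear_combination eq_z hq t - q * t ^ 2 * (geo q t + 1) * geo_mul hq t

theorem P_close_x {q : B} (hq : Good q) (t : B) :
    ∃ r, Px q t - t * Py q t + t ^ 2 * Pz q t = (1 - t) ^ 2 * r := by
  refine ⟨L q (fun _ _ c => t ^ c) + t, ?_⟩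
  unfold Px Py Pz
  linear_combination close_x hq t

theorem P_close_y {q : B} (hq : Good q) (t : B) :
    ∃ r, Py q t - 2 * t * Pz q t = (1 - t) * r := by
  refine ⟨L q (fun u w c => (iz u + iz w) * t ^ c), ?_⟩
  unfold Py Pz
  linear_combination close_y hq t

theorem map_L {B' : Type} [CommRing B'] [TopologicalSpace B'] [T2Space B'] (φ : B →+* B')
    (hφ : Continuous φ) {q : B} (hq : Good q) (f : ℕ → ℕ → ℕ → B) :
    φ (L q f) = L (φ q) (fun u w c => φ (f u w c)) := by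
  unfold L T
  have := ((summable_W hq (fun P => P) Function.injective_id
    (fun P => ker f P.la P.core P.rb)).hasSum.map φ hφ).tsum_eq
  rw [← this]
  refine tsum_congr fun P => ?_
  simp only [Function.comp, W, ker, map_mul, map_sum]
  split_ifs <;> simp

end Generic

theorem good_X : Good (X : ℚ⟦X⟧) := by
  intro ι f hf
  rw [PowerSeries.WithPiTopology.summable_iff_summable_coeff]
  intro n
  refine summable_of_hasFiniteSupport ((hf (n + 1)).subset ?_)
  intro i hi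
  simp only [Set.mem_ofPred_eq]
  intro h
  exact hi (X_pow_dvd_iff.1 h n (by omega))

open TrivSqZeroExt in
theorem good_dual : Good (inl X : DualNumber ℚ⟦X⟧) := by
  intro ι f hf
  have h1 : Summable fun i => (f i).fst := by
    refine good_X _ fun n => (hf n).subset fun i hi h => hi ?_
    obtain ⟨r, hr⟩ := h
    exact ⟨r.fst, by rw [hr]; simp⟩
  have h2 : Summable fun i => (f i).snd := by
    refine good_X _ fun n => (hf n).subset fun i hi h => hi ?_
    obtain ⟨r, hr⟩ := h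
    exact ⟨r.snd, by rw [hr, inl_pow]; simp⟩
  have h3 : HasSum (fun i => (inl (f i).fst : DualNumber ℚ⟦X⟧)) _ := hasSum_inl _ h1.hasSum
  have h4 : HasSum (fun i => (inr (f i).snd : DualNumber ℚ⟦X⟧)) _ := hasSum_inr _ h2.hasSum
  have := h3.add h4
  simp only [inl_fst_add_inr_snd_eq] at this
  exact this.summable

open TrivSqZeroExt in
/-- the points `q^k (1 + eps)` -/
noncomputable def tk (k : ℕ) : DualNumber ℚ⟦X⟧ := inl (X ^ k) + inr (X ^ k)

theorem inv_mul_one_sub (k : ℕ) : (1 - X ^ (k + 1) : ℚ⟦X⟧)⁻¹ * (1 - X ^ (k + 1)) = 1 :=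
  PowerSeries.inv_mul_cancel _ (by simp)

open TrivSqZeroExt in
theorem recur : ∃ (x y z x' y' z' : ℕ → ℚ⟦X⟧) (β μ : ℚ⟦X⟧),
    (∀ k, x k = X ^ k * (X + al X) + X ^ k * (1 - X ^ k) * β +
      2 * X ^ k * (1 - X ^ (k + 1))⁻¹ * μ +
      X ^ 2 * X ^ k * (1 - X ^ (k + 1))⁻¹ ^ 2 * z (k + 1)) ∧
    (∀ k, y k = 2 * X ^ k * (1 - X ^ k) + 2 * X ^ k * (X + al X) +
      2 * (X ^ k) ^ 2 * (1 - X ^ (k + 1))⁻¹ * μ +
      X * X ^ k * (1 - X ^ (k + 1))⁻¹ ^ 2 * y (k + 1)) ∧
    (∀ k, z k = 1 - X ^ k + X ^ k * (1 - X ^ (k + 1))⁻¹ ^ 2 * x (k + 1)) ∧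
    (∀ k, x' k = X ^ k * (X + al X) + X ^ k * (1 - 2 * X ^ k) * β +
      2 * X ^ k * (1 - X ^ (k + 1))⁻¹ ^ 2 * μ +
      X ^ 2 * X ^ k * (1 - X ^ (k + 1))⁻¹ ^ 2 *
        ((1 + 2 * (X ^ (k + 1) * (1 - X ^ (k + 1))⁻¹)) * z (k + 1) + z' (k + 1))) ∧
    (∀ k, y' k = 2 * X ^ k * (1 - 2 * X ^ k) + 2 * X ^ k * (X + al X) +
      2 * (X ^ k) ^ 2 * ((1 - X ^ (k + 1))⁻¹ + (1 - X ^ (k + 1))⁻¹ ^ 2) * μ +
      X * X ^ k * (1 - X ^ (k + 1))⁻¹ ^ 2 *
        ((1 + 2 * (X ^ (k + 1) * (1 - X ^ (k + 1))⁻¹)) * y (k + 1) + y' (k + 1))) ∧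
    (∀ k, z' k = - X ^ k + X ^ k * (1 - X ^ (k + 1))⁻¹ ^ 2 *
        ((1 + 2 * (X ^ (k + 1) * (1 - X ^ (k + 1))⁻¹)) * x (k + 1) + x' (k + 1))) ∧
    x 0 - y 0 + z 0 = 0 ∧ x 0 - z 0 = 0 ∧ x' 0 - y' 0 + z' 0 = 0 := by
  set q : DualNumber ℚ⟦X⟧ := inl X with hqdef
  have hq : Good q := good_dual
  have f1 : ∀ k, (tk k).fst = X ^ k := fun k => by simp [tk]
  have f2 : ∀ k, (tk k).snd = X ^ k := fun k => by simp [tk]
  have q1 : q.fst = X := by simp [hqdef]
  have q2 : q.snd = 0 := by simp [hqdef]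
  have hs : ∀ k, q * tk k = tk (k + 1) := by
    intro k
    ext1
    · simp [f1, q1, pow_succ']
    · simp [DualNumber.snd_mul, f1, f2, q1, q2, pow_succ']
  have g1 : ∀ k, (geo q (tk k)).fst = (1 - X ^ (k + 1))⁻¹ := by
    intro k
    have h := congrArg fst (geo_mul hq (tk k))
    rw [hs] at h
    simp only [fst_mul, fst_sub, fst_one, f1] at h
    linear_combination (1 - X ^ (k + 1))⁻¹ * h - (geo q (tk k)).fst * inv_mul_one_sub k
  have g2 : ∀ k, (geo q (tk k)).snd = X ^ (k + 1) * (1 - X ^ (k + 1))⁻¹ ^ 2 := by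
    intro k
    have h := congrArg snd (geo_mul hq (tk k))
    rw [hs] at h
    simp only [DualNumber.snd_mul, fst_sub, snd_sub, fst_one, snd_one, f1, f2, g1] at h
    linear_combination (1 - X ^ (k + 1))⁻¹ * h - (geo q (tk k)).snd * inv_mul_one_sub k
  have hin : Continuous (inlHom ℚ⟦X⟧ ℚ⟦X⟧) := continuous_inl
  have a0 : al q = inl (al X) := by
    have := map_L (inlHom ℚ⟦X⟧ ℚ⟦X⟧) hin good_X (fun _ _ c => X ^ c)
    simp only [map_pow] at this
    exact this.symm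
  have b0 : be q = inl (be X) := by
    have := map_L (inlHom ℚ⟦X⟧ ℚ⟦X⟧) hin good_X (fun _ _ c => (c : ℚ⟦X⟧) * X ^ c)
    simp only [map_pow, map_mul, map_natCast] at this
    exact this.symm
  have l0 : la' q = inl (la' X) := by
    have := map_L (inlHom ℚ⟦X⟧ ℚ⟦X⟧) hin good_X (fun u w c => (iz u + iz w) * X ^ c)
    have h2 : ∀ u, inlHom ℚ⟦X⟧ ℚ⟦X⟧ (iz u) = iz u := by
      intro u; unfold iz; split_ifs <;> simp
    simp only [map_pow, map_mul, map_add, h2] at this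
    exact this.symm
  obtain ⟨μ, hμ⟩ : ∃ μ : ℚ⟦X⟧, X * la' X = 2 * μ := by
    refine ⟨C (1 / 2 : ℚ) * (X * la' X), ?_⟩
    have : (2 : ℚ⟦X⟧) * C (1 / 2 : ℚ) = 1 := by
      rw [show (2 : ℚ⟦X⟧) = C (2 : ℚ) from (map_ofNat C 2).symm, ← map_mul]; norm_num
    rw [← mul_assoc, this, one_mul]
  have two1 : (2 : DualNumber ℚ⟦X⟧).fst = 2 := by
    rw [← one_add_one_eq_two, fst_add, fst_one]; norm_num
  have two2 : (2 : DualNumber ℚ⟦X⟧).snd = 0 := by
    rw [← one_add_one_eq_two, snd_add, snd_one]; norm_num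
  obtain ⟨r1, c1⟩ := P_close_x hq (tk 0)
  obtain ⟨r2, c2⟩ := P_close_y hq (tk 0)
  have c11 := congrArg fst c1
  have c12 := congrArg snd c1
  have c21 := congrArg fst c2
  simp only [pow_two, fst_add, fst_sub, fst_mul, snd_add, snd_sub, DualNumber.snd_mul, fst_one,
    snd_one, f1, f2, two1, two2, pow_zero] at c11 c12 c21
  refine ⟨fun k => (Px q (tk k)).fst, fun k => (Py q (tk k)).fst, fun k => (Pz q (tk k)).fst,
    fun k => (Px q (tk k)).snd, fun k => (Py q (tk k)).snd, fun k => (Pz q (tk k)).snd,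
    1 + X + be X, μ, fun k => ?_, fun k => ?_, fun k => ?_, fun k => ?_, fun k => ?_, fun k => ?_,
    by linear_combination c11, by linear_combination c11 + c21,
    by linear_combination c12 + c21⟩
  · have h := congrArg fst (Px_eq hq (tk k))
    simp only [hs, a0, b0, l0, pow_two, fst_add, fst_sub, fst_mul, fst_one, fst_inl, f1, q1,
      g1] at h
    linear_combination h + X ^ k * (1 - X ^ (k + 1))⁻¹ * hμ
  · have h := congrArg fst (Py_eq hq (tk k))
    simp only [hs, a0, b0, l0, pow_two, fst_add, fst_sub, fst_mul, fst_one, fst_inl, f1, q1,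
      g1, two1] at h
    linear_combination h + (X ^ k) ^ 2 * (1 - X ^ (k + 1))⁻¹ * hμ
  · have h := congrArg fst (Pz_eq hq (tk k))
    simp only [hs, pow_two, fst_add, fst_sub, fst_mul, fst_one, f1, g1] at h
    linear_combination h
  · have h := congrArg snd (Px_eq hq (tk k))
    simp only [hs, a0, b0, l0, pow_two, fst_add, fst_sub, fst_mul, fst_one, fst_inl, f1, q1,
      g1, snd_add, snd_sub, DualNumber.snd_mul, snd_one, snd_inl, f2, q2, g2] at h
    linear_combination h + (X ^ k * (1 - X ^ (k + 1))⁻¹ +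
      X ^ k * (X ^ (k + 1) * (1 - X ^ (k + 1))⁻¹ ^ 2)) * hμ -
      2 * μ * X ^ k * (1 - X ^ (k + 1))⁻¹ * inv_mul_one_sub k
  · have h := congrArg snd (Py_eq hq (tk k))
    simp only [hs, a0, b0, l0, pow_two, fst_add, fst_sub, fst_mul, fst_one, fst_inl, f1, q1,
      g1, snd_add, snd_sub, DualNumber.snd_mul, snd_one, snd_inl, f2, q2, g2, two1, two2] at h
    linear_combination h + (2 * (X ^ k) ^ 2 * (1 - X ^ (k + 1))⁻¹ +
      (X ^ k) ^ 2 * (X ^ (k + 1) * (1 - X ^ (k + 1))⁻¹ ^ 2)) * hμ -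
      2 * μ * (X ^ k) ^ 2 * (1 - X ^ (k + 1))⁻¹ * inv_mul_one_sub k
  · have h := congrArg snd (Pz_eq hq (tk k))
    simp only [hs, pow_two, fst_add, fst_sub, fst_mul, fst_one, f1, g1, snd_add, snd_sub,
      DualNumber.snd_mul, snd_one, f2, g2] at h
    linear_combination h

end Pool.Agent.P.MP_8704cc_co
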